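import Pool.Agent.H95.NE.Mat
import Pool.Graph.R_seed8.Helper608.Brouwer

/-! Nash equilibria of bimatrix games, by Brouwer's theorem. -/

set_option autoImplicit false

open Finset

namespace Pool.Agent.H40.NE

section
variable {I : Type*} [Fintype I]

/-- a continuous retraction onto the simplex -/
noncomputable def pr (x : I → ℝ) (i : I) : ℝ :=
  (max (x i) 0 + max 0 (1 - ∑ k, max (x k) 0) / (Fintype.card I : ℝ)) / max 1 (∑ k, max (x k) 0)

theorem pr_pos (x : I → ℝ) : (0 : ℝ) < max 1 (∑ k, max (x k) 0) :=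
  lt_of_lt_of_le one_pos (le_max_left _ _)

theorem pr_nonneg (x : I → ℝ) (i : I) : 0 ≤ pr x i :=
  div_nonneg (add_nonneg (le_max_right _ _) (div_nonneg (le_max_left _ _) (Nat.cast_nonneg _)))
    (pr_pos x).le

theorem pr_sum [Nonempty I] (x : I → ℝ) : ∑ i, pr x i = 1 := by
  unfold pr
  rw [← Finset.sum_div, Finset.sum_add_distrib, Finset.sum_const, Finset.card_univ, nsmul_eq_mul,
    mul_div_cancel₀ _ (Nat.cast_ne_zero.2 Fintype.card_ne_zero), div_eq_one_iff_eq (pr_pos x).ne']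
  rcases le_total (∑ k, max (x k) 0) 1 with h | h
  · rw [max_eq_left h, max_eq_right (by linarith)]; ring
  · rw [max_eq_right h, max_eq_left (by linarith)]; ring

theorem pr_eq (x : I → ℝ) (h0 : ∀ i, 0 ≤ x i) (h1 : ∑ i, x i = 1) : pr x = x := by
  funext i
  have h : ∑ k, max (x k) 0 = 1 := by
    rw [← h1]
    exact Finset.sum_congr rfl fun k _ => max_eq_left (h0 k)
  unfold pr
  rw [h, max_eq_left (h0 i)]
  simp

theorem pr_cont : Continuous (pr : (I → ℝ) → I → ℝ) := by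
  refine continuous_pi fun i => ?_
  unfold pr
  refine Continuous.div (by fun_prop) (by fun_prop) fun x => (pr_pos x).ne'

/-- the gain of the pure action `i` -/
noncomputable def gain (x u : I → ℝ) (i : I) : ℝ := max 0 (u i - ∑ k, x k * u k)

noncomputable def nm (x u : I → ℝ) (i : I) : ℝ := (x i + gain x u i) / (1 + ∑ k, gain x u k)

theorem gain_nonneg (x u : I → ℝ) (i : I) : 0 ≤ gain x u i := le_max_left _ _

theorem nm_den (x u : I → ℝ) : 0 < 1 + ∑ k, gain x u k :=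
  add_pos_of_pos_of_nonneg one_pos (Finset.sum_nonneg fun _ _ => gain_nonneg _ _ _)

theorem nm_nonneg (x u : I → ℝ) (h0 : ∀ i, 0 ≤ x i) (i : I) : 0 ≤ nm x u i :=
  div_nonneg (add_nonneg (h0 i) (gain_nonneg _ _ _)) (nm_den _ _).le

theorem nm_sum (x u : I → ℝ) (h1 : ∑ i, x i = 1) : ∑ i, nm x u i = 1 := by
  unfold nm
  rw [← Finset.sum_div, Finset.sum_add_distrib, h1, div_self (nm_den _ _).ne']

theorem nm_fixed (x u : I → ℝ) (h0 : ∀ i, 0 ≤ x i) (h1 : ∑ i, x i = 1) (h : nm x u = x) (i : I) :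
    u i ≤ ∑ k, x k * u k := by
  have hex : ∃ k, 0 < x k ∧ u k ≤ ∑ k, x k * u k := by
    by_contra hne
    push Not at hne
    have h2 : ∑ k, x k * (∑ k, x k * u k) < ∑ k, x k * u k := by
      have hk : ∃ k, 0 < x k := by
        by_contra hk
        push Not at hk
        have := Finset.sum_nonpos fun k (_ : k ∈ Finset.univ) => hk k
        rw [h1] at this
        linarith
      obtain ⟨k, hk⟩ := hk
      refine Finset.sum_lt_sum (fun j _ => ?_) ⟨k, Finset.mem_univ _,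
        mul_lt_mul_of_pos_left (hne k hk) hk⟩
      rcases (h0 j).eq_or_lt with hj | hj
      · rw [← hj, zero_mul, zero_mul]
      · exact (mul_lt_mul_of_pos_left (hne j hj) hj).le
    rw [← Finset.sum_mul, h1, one_mul] at h2
    exact lt_irrefl _ h2
  obtain ⟨k, hk, hku⟩ := hex
  have hgk : gain x u k = 0 := max_eq_left (by linarith)
  have e := congrFun h k
  unfold nm at e
  rw [hgk, add_zero, div_eq_iff (nm_den _ _).ne'] at e
  have hs : ∑ k, gain x u k = 0 := by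
    have : x k * (∑ k, gain x u k) = 0 := by linarith
    exact (mul_eq_zero.1 this).resolve_left hk.ne'
  have hi := (Finset.sum_eq_zero_iff_of_nonneg fun k _ => gain_nonneg x u k).1 hs i
    (Finset.mem_univ _)
  have := le_max_right (0 : ℝ) (u i - ∑ k, x k * u k)
  unfold gain at hi
  rw [hi] at this
  linarith

theorem simplex_le_one (x : I → ℝ) (h0 : ∀ i, 0 ≤ x i) (h1 : ∑ i, x i = 1) (i : I) : x i ≤ 1 := by
  rw [← h1]
  exact Finset.single_le_sum (fun k _ => h0 k) (Finset.mem_univ i)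

theorem norm_simplex_le (x : I → ℝ) (h0 : ∀ i, 0 ≤ x i) (h1 : ∑ i, x i = 1) : ‖x‖ ≤ 1 := by
  rw [pi_norm_le_iff_of_nonneg zero_le_one]
  intro i
  rw [Real.norm_eq_abs, abs_of_nonneg (h0 i)]
  exact simplex_le_one x h0 h1 i

end

theorem bimatrix_fintype {I J : Type*} [Fintype I] [Fintype J] [Nonempty I] [Nonempty J]
    (M N : I → J → ℝ) : ∃ (x : I → ℝ) (y : J → ℝ), (∀ i, 0 ≤ x i) ∧ ∑ i, x i = 1 ∧
      (∀ j, 0 ≤ y j) ∧ ∑ j, y j = 1 ∧
      (∀ i, ∑ j, y j * M i j ≤ ∑ k, x k * ∑ j, y j * M k j) ∧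
      ∀ j, ∑ i, x i * N i j ≤ ∑ k, y k * ∑ i, x i * N i k := by
  let f : (I → ℝ) × (J → ℝ) → (I → ℝ) × (J → ℝ) := fun z =>
    (nm (pr z.1) (fun i => ∑ j, pr z.2 j * M i j), nm (pr z.2) (fun j => ∑ i, pr z.1 i * N i j))
  have hp1 : ∀ i, Continuous fun z : (I → ℝ) × (J → ℝ) => pr z.1 i := fun i =>
    (continuous_apply i).comp (pr_cont.comp continuous_fst)
  have hp2 : ∀ j, Continuous fun z : (I → ℝ) × (J → ℝ) => pr z.2 j := fun j =>
    (continuous_apply j).comp (pr_cont.comp continuous_snd)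
  have hf : Continuous f := by
    refine Continuous.prodMk (continuous_pi fun i => ?_) (continuous_pi fun j => ?_)
    · unfold nm
      refine Continuous.div ?_ ?_ fun z => (nm_den _ _).ne'
      · unfold gain
        fun_prop
      · unfold gain
        fun_prop
    · unfold nm
      refine Continuous.div ?_ ?_ fun z => (nm_den _ _).ne'
      · unfold gain
        fun_prop
      · unfold gain
        fun_prop
  obtain ⟨z, hz⟩ := Pool.Agent.Helper608.Brouwer.brouwer f hf 1 (fun z => by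
    refine max_le ?_ ?_
    · exact norm_simplex_le _ (nm_nonneg _ _ (pr_nonneg _)) (nm_sum _ _ (pr_sum _))
    · exact norm_simplex_le _ (nm_nonneg _ _ (pr_nonneg _)) (nm_sum _ _ (pr_sum _)))
  have e1 : nm (pr z.1) (fun i => ∑ j, pr z.2 j * M i j) = z.1 := congrArg Prod.fst hz
  have e2 : nm (pr z.2) (fun j => ∑ i, pr z.1 i * N i j) = z.2 := congrArg Prod.snd hz
  have a1 : ∀ i, 0 ≤ z.1 i := by rw [← e1]; exact nm_nonneg _ _ (pr_nonneg _)
  have b1 : ∑ i, z.1 i = 1 := by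
    have := nm_sum (pr z.1) (fun i => ∑ j, pr z.2 j * M i j) (pr_sum _)
    rwa [e1] at this
  have a2 : ∀ j, 0 ≤ z.2 j := by rw [← e2]; exact nm_nonneg _ _ (pr_nonneg _)
  have b2 : ∑ j, z.2 j = 1 := by
    have := nm_sum (pr z.2) (fun j => ∑ i, pr z.1 i * N i j) (pr_sum _)
    rwa [e2] at this
  rw [pr_eq _ a1 b1, pr_eq _ a2 b2] at e1 e2
  exact ⟨z.1, z.2, a1, b1, a2, b2, fun i => nm_fixed _ _ a1 b1 e1 i,
    fun j => nm_fixed _ _ a2 b2 e2 j⟩

open Pool.Agent.H95.NE in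
/-- Nash's theorem for two players. -/
theorem bimatrix {A B : Type*} {F : Finset A} {E : Finset B} (hF : F.Nonempty) (hE : E.Nonempty)
    (M N : A → B → ℝ) : ∃ (x : A → ℝ) (y : B → ℝ), Mix F x ∧ Mix E y ∧
      (∀ a ∈ F, ∑ b ∈ E, y b * M a b ≤ ∑ a ∈ F, ∑ b ∈ E, x a * y b * M a b) ∧
      ∀ b ∈ E, ∑ a ∈ F, x a * N a b ≤ ∑ a ∈ F, ∑ b ∈ E, x a * y b * N a b := by
  classical
  have : Nonempty F := hF.to_subtype
  have : Nonempty E := hE.to_subtype
  obtain ⟨x, y, hx0, hx1, hy0, hy1, h1, h2⟩ := bimatrix_fintype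
    (fun (i : F) (j : E) => M i.1 j.1) (fun i j => N i.1 j.1)
  let X : A → ℝ := fun a => if h : a ∈ F then x ⟨a, h⟩ else 0
  let Y : B → ℝ := fun b => if h : b ∈ E then y ⟨b, h⟩ else 0
  have hX : ∀ i : F, X i.1 = x i := fun i => by simp [X]
  have hY : ∀ j : E, Y j.1 = y j := fun j => by simp [Y]
  have sF : ∀ g : A → ℝ, ∑ a ∈ F, g a = ∑ i : F, g i.1 := fun g => (Finset.sum_coe_sort F g).symm
  have sE : ∀ g : B → ℝ, ∑ b ∈ E, g b = ∑ j : E, g j.1 := fun g => (Finset.sum_coe_sort E g).symm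
  refine ⟨X, Y, ⟨fun a ha => ?_, ?_⟩, ⟨fun b hb => ?_, ?_⟩, fun a ha => ?_, fun b hb => ?_⟩
  · rw [hX ⟨a, ha⟩]; exact hx0 _
  · rw [sF]; simp only [hX]; exact hx1
  · rw [hY ⟨b, hb⟩]; exact hy0 _
  · rw [sE]; simp only [hY]; exact hy1
  · rw [sF, sE]
    simp only [sE, hX, hY]
    refine (h1 ⟨a, ha⟩).trans_eq ?_
    refine Finset.sum_congr rfl fun i _ => ?_
    rw [Finset.mul_sum]
    exact Finset.sum_congr rfl fun j _ => (mul_assoc _ _ _).symm
  · rw [sF, sF]
    simp only [sE, hX, hY]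
    refine (h2 ⟨b, hb⟩).trans_eq ?_
    rw [Finset.sum_comm]
    refine Finset.sum_congr rfl fun j _ => ?_
    rw [Finset.mul_sum]
    exact Finset.sum_congr rfl fun i _ => by ring

end Pool.Agent.H40.NE
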