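import Pool.Agent.H95.NE.Defs

/-! The definition of an obstruction. -/

set_option autoImplicit false

open Relation

namespace Pool.Agent.H40.NE

open Pool.Agent.H95.NE Pool.Agent.H95.NE.Game

variable {S A B : Type*}

/-- Each state of `C` is controlled by one of the players: if his action allows the play to stay
in `C`, then the next state does not depend on the action of the opponent. -/
def Controlled (G : Game S A B) (C : Set S) : Prop :=
  ∀ s ∈ C, (∀ a ∈ G.act₁ s, ∀ b ∈ G.act₂ s, ∀ b' ∈ G.act₂ s,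
      G.δ s a b ∈ C → G.δ s a b' = G.δ s a b) ∨
    ∀ a ∈ G.act₁ s, ∀ a' ∈ G.act₁ s, ∀ b ∈ G.act₂ s, G.δ s a b ∈ C → G.δ s a' b = G.δ s a b

/-- The sets `A'`, `B'` of actions are a block at `s`: they are nonempty, and every other action of a
player is dominated by a mixed action of his actions in the block, where the payoff is the value of
the player at the next state and the actions of the opponent in the block are considered. -/
structure Block (G : Game S A B) (T₁ T₂ : Set S) (s : S) (A' : Finset A) (B' : Finset B) : Prop where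
  sub₁ : A' ⊆ G.act₁ s
  sub₂ : B' ⊆ G.act₂ s
  ne₁ : A'.Nonempty
  ne₂ : B'.Nonempty
  dom₁ : ∀ a ∈ G.act₁ s, a ∉ A' → ∃ x, Mix A' x ∧
    ∀ b ∈ B', G.val₁ T₁ (G.δ s a b) ≤ ∑ a' ∈ A', x a' * G.val₁ T₁ (G.δ s a' b)
  dom₂ : ∀ b ∈ G.act₂ s, b ∉ B' → ∃ y, Mix B' y ∧
    ∀ a ∈ A', G.val₂ T₂ (G.δ s a b) ≤ ∑ b' ∈ B', y b' * G.val₂ T₂ (G.δ s a b')

/-- `s` is open: it is settled for neither player, and it is not stuck for both players. -/
def Open (G : Game S A B) (T₁ T₂ : Set S) (s : S) : Prop :=
  ¬ G.Settled T₁ T₂ s ∧ ¬ G.swap.Settled T₂ T₁ s ∧ ¬ (G.Stuck T₁ T₂ s ∧ G.swap.Stuck T₂ T₁ s)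

/-- A move from an open state. -/
def OStep (G : Game S A B) (T₁ T₂ : Set S) (s t : S) : Prop := Open G T₁ T₂ s ∧ G.Step s t

/-- A move from an open state at which the values add up to less than `1`. -/
def LStep (G : Game S A B) (T₁ T₂ : Set S) (s t : S) : Prop :=
  Open G T₁ T₂ s ∧ G.val₁ T₁ s + G.val₂ T₂ s < 1 ∧ G.Step s t

/-- A move inside `C`. -/
def CStep (G : Game S A B) (C : Set S) (s t : S) : Prop := s ∈ C ∧ t ∈ C ∧ G.Step s t

/-- `C` is a replay set: from each of its states the play can stay in `C` in one way only, and two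
actions of a player which can stay in `C` against a common action of the opponent stay in `C`
against the same actions of the opponent. -/
def Replay (G : Game S A B) (C : Set S) : Prop :=
  ∀ s ∈ C, (∀ a ∈ G.act₁ s, ∀ b ∈ G.act₂ s, ∀ a' ∈ G.act₁ s, ∀ b' ∈ G.act₂ s,
      G.δ s a b ∈ C → G.δ s a' b' ∈ C → G.δ s a b = G.δ s a' b') ∧
    ∀ a ∈ G.act₁ s, ∀ a' ∈ G.act₁ s, ∀ b ∈ G.act₂ s, ∀ b' ∈ G.act₂ s,
      G.δ s a b ∈ C → G.δ s a' b ∈ C → G.δ s a b' ∈ C → G.δ s a' b' ∈ C

/-- Two actions of player 1 at `s` that repeat `s` against a common action of player 2 repeat `s`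
against the same actions of player 2, unless one of the two always repeats `s`. -/
def Regular (G : Game S A B) (s : S) : Prop :=
  ∀ a ∈ G.act₁ s, ∀ a' ∈ G.act₁ s, ∀ b ∈ G.act₂ s, G.δ s a b = s → G.δ s a' b = s →
    (∀ b' ∈ G.act₂ s, G.δ s a b' = s ↔ G.δ s a' b' = s) ∨
    (∀ b' ∈ G.act₂ s, G.δ s a b' = s) ∨ ∀ b' ∈ G.act₂ s, G.δ s a' b' = s

/-- `C` is an obstruction for the initial state `s₀`. -/
structure Obstruction (G : Game S A B) (T₁ T₂ : Set S) (s₀ : S) (C : Set S) : Prop where
  nonempty : C.Nonempty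
  /-- the states of `C` are open -/
  isOpen : ∀ s ∈ C, Open G T₁ T₂ s
  /-- at the states of `C` the values add up to less than `1` -/
  sum_lt : ∀ s ∈ C, G.val₁ T₁ s + G.val₂ T₂ s < 1
  /-- each state of `C` is reached from `s₀` by moves from open states -/
  reach : ∀ s ∈ C, ReflTransGen (OStep G T₁ T₂) s₀ s
  /-- each state of `C` is reached from each state of `C` by at least one move inside `C` -/
  conn : ∀ s ∈ C, ∀ t ∈ C, TransGen (CStep G C) s t
  /-- from each state of `C` a doubly stuck state is reached by moves from open states at which the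
  values add up to less than `1` -/
  stuck : ∀ s ∈ C, ∃ d, ReflTransGen (LStep G T₁ T₂) s d ∧ G.Stuck T₁ T₂ d ∧ G.swap.Stuck T₂ T₁ d
  /-- each block at a state of `C` has a pair of actions with which the play stays in `C` -/
  block : ∀ s ∈ C, ∀ A' B', Block G T₁ T₂ s A' B' → ∃ a ∈ A', ∃ b ∈ B', G.δ s a b ∈ C
  /-- some state of `C` is not controlled by a single player -/
  not_controlled : ¬ Controlled G C
  /-- `C` is not a replay set -/
  not_replay : ¬ Replay G C
  /-- if `C` has only one element, then it is regular for neither player -/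
  not_regular : ∀ s, C = {s} → ¬ Regular G s ∧ ¬ Regular G.swap s

end Pool.Agent.H40.NE
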