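import Pool.Agent.H40.NE.Glue
import Pool.Agent.H40.NE.ObstDefs

/-! Blocks of actions all outcomes of which have an equilibrium. -/

set_option autoImplicit false

open Finset Relation

namespace Pool.Agent.H40.NE

open Pool.Agent.H95.NE Pool.Agent.H95.NE.Game

variable {S A B : Type*} {G : Game S A B} {T T₁ T₂ : Set S}

theorem val₁_le_nash {s : S} {σ : List (A × B) → A → ℝ} {τ : List (A × B) → B → ℝ}
    (h : G.IsNash T₁ T₂ s σ τ) : G.val₁ T₁ s ≤ G.pay T₁ s σ τ := by
  refine csSup_le ?_ ?_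
  · exact ⟨0, σ, h.1, fun τ' hτ' => pay_nonneg h.1 hτ'⟩
  · rintro c ⟨σ', hσ', h'⟩
    exact (h' τ h.2.1).trans (h.2.2.1 σ' hσ')

theorem val₂_le_nash {s : S} {σ : List (A × B) → A → ℝ} {τ : List (A × B) → B → ℝ}
    (h : G.IsNash T₁ T₂ s σ τ) : G.val₂ T₂ s ≤ G.pay T₂ s σ τ := by
  refine csSup_le ?_ ?_
  · exact ⟨0, τ, h.2.1, fun σ' hσ' => pay_nonneg hσ' h.2.1⟩
  · rintro c ⟨τ', hτ', h'⟩
    exact (h' σ h.1).trans (h.2.2.2 τ' hτ')

theorem sum_ext {A : Type*} [DecidableEq A] {F F' : Finset A} (h : F' ⊆ F) (x g : A → ℝ) :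
    ∑ a ∈ F, (if a ∈ F' then x a else 0) * g a = ∑ a ∈ F', x a * g a := by
  rw [← Finset.sum_subset h fun a _ ha => by rw [if_neg ha, zero_mul]]
  exact Finset.sum_congr rfl fun a ha => by rw [if_pos ha]

theorem mix_ext {A : Type*} [DecidableEq A] {F F' : Finset A} (h : F' ⊆ F) {x : A → ℝ}
    (hx : Mix F' x) : Mix F fun a => if a ∈ F' then x a else 0 := by
  refine ⟨fun a _ => ?_, ?_⟩
  · by_cases ha : a ∈ F'
    · simp only [if_pos ha]; exact hx.1 a ha
    · simp only [if_neg ha]; exact le_rfl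
  · have := sum_ext h x fun _ => 1
    simp only [mul_one] at this
    rw [this]; exact hx.2

/-- If there is an equilibrium from every outcome of a dominating block at `s`, there is one from
`s`. -/
theorem block [Finite S] {s : S} (hs1 : s ∉ T₁) (hs2 : s ∉ T₂) {A' : Finset A} {B' : Finset B}
    (hbl : Block G T₁ T₂ s A' B') (h : ∀ a ∈ A', ∀ b ∈ B', HasNE G T₁ T₂ (G.δ s a b)) :
    HasNE G T₁ T₂ s := by
  classical
  obtain ⟨hA, hB, hA', hB', hd1, hd2⟩ := hbl
  choose σ τ hσ hτ hN using exists_default G T₁ T₂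
  obtain ⟨yc, hyc, hcap⟩ := exists_cap G T₁
  obtain ⟨xc, hxc, hcap'⟩ := exists_cap' G T₂
  obtain ⟨x, y, hx, hy, h1, h2⟩ := bimatrix hA' hB'
    (fun a b => G.pay T₁ (G.δ s a b) (σ (G.δ s a b)) (τ (G.δ s a b)))
    (fun a b => G.pay T₂ (G.δ s a b) (σ (G.δ s a b)) (τ (G.δ s a b)))
  let X : A → ℝ := fun a => if a ∈ A' then x a else 0
  let Y : B → ℝ := fun b => if b ∈ B' then y b else 0
  have hX : Mix (G.act₁ s) X := mix_ext hA hx
  have hY : Mix (G.act₂ s) Y := mix_ext hB hy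
  let σ' : List (A × B) → A → ℝ := fun h => match h.getLast? with
    | none => X
    | some p => if p.2 ∈ B' then σ (G.δ s p.1 p.2) h.dropLast
        else xc (G.st (G.δ s p.1 p.2) h.dropLast)
  let τ' : List (A × B) → B → ℝ := fun h => match h.getLast? with
    | none => Y
    | some p => if p.1 ∈ A' then τ (G.δ s p.1 p.2) h.dropLast
        else yc (G.st (G.δ s p.1 p.2) h.dropLast)
  have eσ : ∀ h p, σ' (h ++ [p]) = if p.2 ∈ B' then σ (G.δ s p.1 p.2) h
      else xc (G.st (G.δ s p.1 p.2) h) := by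
    intro h p
    simp [σ']
  have eτ : ∀ h p, τ' (h ++ [p]) = if p.1 ∈ A' then τ (G.δ s p.1 p.2) h
      else yc (G.st (G.δ s p.1 p.2) h) := by
    intro h p
    simp [τ']
  have S1 : G.Strat₁ s σ' := by
    intro h
    rcases List.eq_nil_or_concat h with rfl | ⟨h', p, rfl⟩
    · exact hX
    · rw [List.concat_eq_append, eσ, st_append]
      split_ifs
      · exact hσ _ h'
      · exact hxc _
  have S2 : G.Strat₂ s τ' := by
    intro h
    rcases List.eq_nil_or_concat h with rfl | ⟨h', p, rfl⟩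
    · exact hY
    · rw [List.concat_eq_append, eτ, st_append]
      split_ifs
      · exact hτ _ h'
      · exact hyc _
  have cσ : ∀ a b, b ∈ B' → (fun h => σ' (h ++ [(a, b)])) = σ (G.δ s a b) := by
    intro a b hb
    funext h
    rw [eσ, if_pos hb]
  have cτ : ∀ a b, a ∈ A' → (fun h => τ' (h ++ [(a, b)])) = τ (G.δ s a b) := by
    intro a b ha
    funext h
    rw [eτ, if_pos ha]
  have cσ' : ∀ a b, b ∉ B' → (fun h => σ' (h ++ [(a, b)])) =
      fun h => xc (G.st (G.δ s a b) h) := by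
    intro a b hb
    funext h
    rw [eσ, if_neg hb]
  have cτ' : ∀ a b, a ∉ A' → (fun h => τ' (h ++ [(a, b)])) =
      fun h => yc (G.st (G.δ s a b) h) := by
    intro a b ha
    funext h
    rw [eτ, if_neg ha]
  have e1 : ∀ T, s ∉ T → G.pay T s σ' τ' = ∑ a ∈ A', ∑ b ∈ B', x a * y b *
      G.pay T (G.δ s a b) (σ (G.δ s a b)) (τ (G.δ s a b)) := by
    intro T hT
    rw [pay_step hT S1 S2, dsum, dsum]
    change ∑ a ∈ G.act₁ s, X a * ∑ b ∈ G.act₂ s, Y b * _ = _
    rw [sum_ext hA]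
    refine Finset.sum_congr rfl fun a ha => ?_
    congr 1
    rw [sum_ext hB]
    refine Finset.sum_congr rfl fun b hb => ?_
    rw [cσ a b hb, cτ a b ha]
  refine ⟨σ', τ', S1, S2, fun ρ hρ => ?_, fun ρ hρ => ?_⟩
  · rw [e1 _ hs1, pay_step hs1 hρ S2, dsum]
    refine mix_le (hρ []) fun a ha => ?_
    change ∑ b ∈ G.act₂ s, Y b * _ ≤ _
    rw [sum_ext hB]
    by_cases haA : a ∈ A'
    · refine le_trans ?_ (h1 a haA)
      refine Finset.sum_le_sum fun b hb => mul_le_mul_of_nonneg_left ?_ (hy.1 b hb)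
      rw [cτ a b haA]
      exact (hN _ (h a haA b hb)).2.2.1 _ (strat₁_append hρ [(a, b)])
    · obtain ⟨z, hz, hz'⟩ := hd1 a ha haA
      have k1 : ∑ b ∈ B', y b * G.pay T₁ (G.δ s a b) (fun h => ρ (h ++ [(a, b)]))
          (fun h => τ' (h ++ [(a, b)])) ≤ ∑ b ∈ B', y b * ∑ a' ∈ A', z a' *
            G.pay T₁ (G.δ s a' b) (σ (G.δ s a' b)) (τ (G.δ s a' b)) := by
        refine Finset.sum_le_sum fun b hb => mul_le_mul_of_nonneg_left ?_ (hy.1 b hb)
        rw [cτ' a b haA]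
        refine (hcap _ _ (strat₁_append hρ [(a, b)])).trans ?_
        change G.L T₁ (G.δ s a b) ≤ _
        rw [← val₁_eq]
        refine (hz' b hb).trans ?_
        exact Finset.sum_le_sum fun a' ha' => mul_le_mul_of_nonneg_left
          (val₁_le_nash (hN _ (h a' ha' b hb))) (hz.1 a' ha')
      refine k1.trans ?_
      have k2 : ∑ b ∈ B', y b * ∑ a' ∈ A', z a' *
            G.pay T₁ (G.δ s a' b) (σ (G.δ s a' b)) (τ (G.δ s a' b)) =
          ∑ a' ∈ A', z a' * ∑ b ∈ B', y b *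
            G.pay T₁ (G.δ s a' b) (σ (G.δ s a' b)) (τ (G.δ s a' b)) := by
        simp only [Finset.mul_sum]
        rw [Finset.sum_comm]
        exact Finset.sum_congr rfl fun a _ => Finset.sum_congr rfl fun b _ => by ring
      rw [k2]
      exact mix_le hz fun a' ha' => h1 a' ha'
  · rw [e1 _ hs2, pay_step hs2 S1 hρ, dsum']
    refine mix_le (hρ []) fun b hb => ?_
    change ∑ a ∈ G.act₁ s, X a * _ ≤ _
    rw [sum_ext hA]
    by_cases hbB : b ∈ B'
    · refine le_trans ?_ (h2 b hbB)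
      refine Finset.sum_le_sum fun a ha => mul_le_mul_of_nonneg_left ?_ (hx.1 a ha)
      rw [cσ a b hbB]
      exact (hN _ (h a ha b hbB)).2.2.2 _ (strat₂_append hρ [(a, b)])
    · obtain ⟨z, hz, hz'⟩ := hd2 b hb hbB
      have k1 : ∑ a ∈ A', x a * G.pay T₂ (G.δ s a b) (fun h => σ' (h ++ [(a, b)]))
          (fun h => ρ (h ++ [(a, b)])) ≤ ∑ a ∈ A', x a * ∑ b' ∈ B', z b' *
            G.pay T₂ (G.δ s a b') (σ (G.δ s a b')) (τ (G.δ s a b')) := by
        refine Finset.sum_le_sum fun a ha => mul_le_mul_of_nonneg_left ?_ (hx.1 a ha)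
        rw [cσ' a b hbB]
        refine (hcap' _ _ (strat₂_append hρ [(a, b)])).trans ?_
        change G.swap.L T₂ (G.δ s a b) ≤ _
        rw [← val₁_eq, ← val₂_eq]
        refine (hz' a ha).trans ?_
        exact Finset.sum_le_sum fun b' hb' => mul_le_mul_of_nonneg_left
          (val₂_le_nash (hN _ (h a ha b' hb'))) (hz.1 b' hb')
      refine k1.trans ?_
      have k2 : ∑ a ∈ A', x a * ∑ b' ∈ B', z b' *
            G.pay T₂ (G.δ s a b') (σ (G.δ s a b')) (τ (G.δ s a b')) =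
          ∑ b' ∈ B', z b' * ∑ a ∈ A', x a *
            G.pay T₂ (G.δ s a b') (σ (G.δ s a b')) (τ (G.δ s a b')) := by
        simp only [Finset.mul_sum]
        rw [Finset.sum_comm]
        exact Finset.sum_congr rfl fun a _ => Finset.sum_congr rfl fun b _ => by ring
      rw [k2]
      exact mix_le hz fun b' hb' => h2 b' hb'

end Pool.Agent.H40.NE
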