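import Pool.Agent.H40.NE.Glue

/-! Stationary equilibria of discounted games, by Brouwer's theorem. -/

set_option autoImplicit false

open Finset

namespace Pool.Agent.H40.NE

open Pool.Agent.H95.NE Pool.Agent.H95.NE.Game

variable {S A B : Type*}

theorem simplex_avg_le {I : Type*} [Fintype I] {x u : I → ℝ} {K : ℝ} (h0 : ∀ i, 0 ≤ x i)
    (h1 : ∑ i, x i = 1) (hu : ∀ i, u i ≤ K) : ∑ i, x i * u i ≤ K := by
  calc ∑ i, x i * u i ≤ ∑ i, x i * K :=
        Finset.sum_le_sum fun i _ => mul_le_mul_of_nonneg_left (hu i) (h0 i)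
    _ = K := by rw [← Finset.sum_mul, h1, one_mul]

theorem disc [Finite S] (G : Game S A B) (K : ℝ) (hK : 0 ≤ K) (c d e : S → A → B → ℝ)
    (hc : ∀ s a b, 0 ≤ c s a b) (hd : ∀ s a b, 0 ≤ d s a b) (he : ∀ s a b, 0 ≤ e s a b)
    (hcd : ∀ s a b, c s a b * K + d s a b ≤ K) (hce : ∀ s a b, c s a b * K + e s a b ≤ K) :
    ∃ (x : S → A → ℝ) (y : S → B → ℝ) (f g : S → ℝ), (∀ s, Mix (G.act₁ s) (x s)) ∧
      (∀ s, Mix (G.act₂ s) (y s)) ∧ (∀ s, 0 ≤ f s ∧ f s ≤ K) ∧ (∀ s, 0 ≤ g s ∧ g s ≤ K) ∧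
      (∀ s, f s = ∑ a ∈ G.act₁ s, x s a * ∑ b ∈ G.act₂ s,
        y s b * (c s a b * f (G.δ s a b) + d s a b)) ∧
      (∀ s, ∀ a ∈ G.act₁ s, ∑ b ∈ G.act₂ s,
        y s b * (c s a b * f (G.δ s a b) + d s a b) ≤ f s) ∧
      (∀ s, g s = ∑ b ∈ G.act₂ s, y s b * ∑ a ∈ G.act₁ s,
        x s a * (c s a b * g (G.δ s a b) + e s a b)) ∧
      ∀ s, ∀ b ∈ G.act₂ s, ∑ a ∈ G.act₁ s,
        x s a * (c s a b * g (G.δ s a b) + e s a b) ≤ g s := by
  classical
  have : Fintype S := Fintype.ofFinite S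
  have hne1 : ∀ s, Nonempty (G.act₁ s) := fun s => (G.ne₁ s).to_subtype
  have hne2 : ∀ s, Nonempty (G.act₂ s) := fun s => (G.ne₂ s).to_subtype
  let cl : ℝ → ℝ := fun r => max 0 (min K r)
  have cl0 : ∀ r, 0 ≤ cl r := fun r => le_max_left _ _
  have clK : ∀ r, cl r ≤ K := fun r => max_le hK (min_le_left _ _)
  have cl_eq : ∀ r, 0 ≤ r → r ≤ K → cl r = r := fun r h0 h1 => by
    simp only [cl, min_eq_right h1, max_eq_right h0]
  let E := (∀ s, (G.act₁ s → ℝ)) × (∀ s, (G.act₂ s → ℝ)) × (S → ℝ) × (S → ℝ)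
  let M1 : E → ∀ s, G.act₁ s → G.act₂ s → ℝ := fun z s i j =>
    c s i.1 j.1 * cl (z.2.2.1 (G.δ s i.1 j.1)) + d s i.1 j.1
  let M2 : E → ∀ s, G.act₁ s → G.act₂ s → ℝ := fun z s i j =>
    c s i.1 j.1 * cl (z.2.2.2 (G.δ s i.1 j.1)) + e s i.1 j.1
  have M1_0 : ∀ z s i j, 0 ≤ M1 z s i j := fun z s i j =>
    add_nonneg (mul_nonneg (hc _ _ _) (cl0 _)) (hd _ _ _)
  have M2_0 : ∀ z s i j, 0 ≤ M2 z s i j := fun z s i j =>
    add_nonneg (mul_nonneg (hc _ _ _) (cl0 _)) (he _ _ _)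
  have M1_K : ∀ z s i j, M1 z s i j ≤ K := fun z s i j =>
    (add_le_add_left (mul_le_mul_of_nonneg_left (clK _) (hc _ _ _)) _).trans (hcd _ _ _)
  have M2_K : ∀ z s i j, M2 z s i j ≤ K := fun z s i j =>
    (add_le_add_left (mul_le_mul_of_nonneg_left (clK _) (hc _ _ _)) _).trans (hce _ _ _)
  let Φ : E → E := fun z =>
    (fun s => nm (pr (z.1 s)) (fun i => ∑ j, pr (z.2.1 s) j * M1 z s i j),
      fun s => nm (pr (z.2.1 s)) (fun j => ∑ i, pr (z.1 s) i * M2 z s i j),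
      fun s => ∑ i, pr (z.1 s) i * ∑ j, pr (z.2.1 s) j * M1 z s i j,
      fun s => ∑ j, pr (z.2.1 s) j * ∑ i, pr (z.1 s) i * M2 z s i j)
  have hX : ∀ s i, Continuous fun z : E => pr (z.1 s) i := fun s i =>
    (continuous_apply i).comp (pr_cont.comp ((continuous_apply s).comp continuous_fst))
  have hY : ∀ s j, Continuous fun z : E => pr (z.2.1 s) j := fun s j =>
    (continuous_apply j).comp (pr_cont.comp ((continuous_apply s).comp
      (continuous_fst.comp continuous_snd)))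
  have hcl : Continuous cl := by
    simp only [cl]; fun_prop
  have hM1 : ∀ s i j, Continuous fun z : E => M1 z s i j := fun s i j => by
    have h : Continuous fun z : E => cl (z.2.2.1 (G.δ s i.1 j.1)) :=
      hcl.comp ((continuous_apply _).comp (continuous_fst.comp
        (continuous_snd.comp continuous_snd)))
    exact (continuous_const.mul h).add continuous_const
  have hM2 : ∀ s i j, Continuous fun z : E => M2 z s i j := fun s i j => by
    have h : Continuous fun z : E => cl (z.2.2.2 (G.δ s i.1 j.1)) :=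
      hcl.comp ((continuous_apply _).comp (continuous_snd.comp
        (continuous_snd.comp continuous_snd)))
    exact (continuous_const.mul h).add continuous_const
  have hU : ∀ s i, Continuous fun z : E => ∑ j, pr (z.2.1 s) j * M1 z s i j := fun s i =>
    continuous_finsetSum _ fun j _ => (hY s j).mul (hM1 s i j)
  have hV : ∀ s j, Continuous fun z : E => ∑ i, pr (z.1 s) i * M2 z s i j := fun s j =>
    continuous_finsetSum _ fun i _ => (hX s i).mul (hM2 s i j)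
  have hSU : ∀ s, Continuous fun z : E => ∑ i, pr (z.1 s) i * ∑ j, pr (z.2.1 s) j * M1 z s i j :=
    fun s => continuous_finsetSum _ fun i _ => (hX s i).mul (hU s i)
  have hSV : ∀ s, Continuous fun z : E => ∑ j, pr (z.2.1 s) j * ∑ i, pr (z.1 s) i * M2 z s i j :=
    fun s => continuous_finsetSum _ fun j _ => (hY s j).mul (hV s j)
  have hg1 : ∀ s i, Continuous fun z : E => gain (pr (z.1 s))
      (fun i => ∑ j, pr (z.2.1 s) j * M1 z s i j) i := fun s i =>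
    continuous_const.max ((hU s i).sub (hSU s))
  have hg2 : ∀ s j, Continuous fun z : E => gain (pr (z.2.1 s))
      (fun j => ∑ i, pr (z.1 s) i * M2 z s i j) j := fun s j =>
    continuous_const.max ((hV s j).sub (hSV s))
  have hΦ : Continuous Φ := by
    refine Continuous.prodMk (continuous_pi fun s => continuous_pi fun i => ?_)
      (Continuous.prodMk (continuous_pi fun s => continuous_pi fun j => ?_)
        (Continuous.prodMk (continuous_pi hSU) (continuous_pi hSV)))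
    · exact ((hX s i).add (hg1 s i)).div
        (continuous_const.add (continuous_finsetSum _ fun k _ => hg1 s k)) fun z => (nm_den _ _).ne'
    · exact ((hY s j).add (hg2 s j)).div
        (continuous_const.add (continuous_finsetSum _ fun k _ => hg2 s k)) fun z => (nm_den _ _).ne'
  have b1 : ∀ z : E, ∀ s, (0 ≤ ∑ i, pr (z.1 s) i * ∑ j, pr (z.2.1 s) j * M1 z s i j) ∧
      ∑ i, pr (z.1 s) i * ∑ j, pr (z.2.1 s) j * M1 z s i j ≤ K := fun z s =>
    ⟨Finset.sum_nonneg fun i _ => mul_nonneg (pr_nonneg _ _) (Finset.sum_nonneg fun j _ =>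
      mul_nonneg (pr_nonneg _ _) (M1_0 z s i j)),
      simplex_avg_le (pr_nonneg _) (pr_sum _) fun i => simplex_avg_le (pr_nonneg _) (pr_sum _)
        fun j => M1_K z s i j⟩
  have b2 : ∀ z : E, ∀ s, (0 ≤ ∑ j, pr (z.2.1 s) j * ∑ i, pr (z.1 s) i * M2 z s i j) ∧
      ∑ j, pr (z.2.1 s) j * ∑ i, pr (z.1 s) i * M2 z s i j ≤ K := fun z s =>
    ⟨Finset.sum_nonneg fun i _ => mul_nonneg (pr_nonneg _ _) (Finset.sum_nonneg fun j _ =>
      mul_nonneg (pr_nonneg _ _) (M2_0 z s j i)),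
      simplex_avg_le (pr_nonneg _) (pr_sum _) fun i => simplex_avg_le (pr_nonneg _) (pr_sum _)
        fun j => M2_K z s j i⟩
  have hR : (0 : ℝ) ≤ max 1 K := zero_le_one.trans (le_max_left _ _)
  obtain ⟨z, hz⟩ := Pool.Agent.Helper608.Brouwer.brouwer Φ hΦ (max 1 K) (fun z => by
    refine max_le ?_ (max_le ?_ (max_le ?_ ?_))
    · refine (pi_norm_le_iff_of_nonneg hR).2 fun s => ?_
      exact (norm_simplex_le _ (nm_nonneg _ _ (pr_nonneg _)) (nm_sum _ _ (pr_sum _))).trans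
        (le_max_left _ _)
    · refine (pi_norm_le_iff_of_nonneg hR).2 fun s => ?_
      exact (norm_simplex_le _ (nm_nonneg _ _ (pr_nonneg _)) (nm_sum _ _ (pr_sum _))).trans
        (le_max_left _ _)
    · refine (pi_norm_le_iff_of_nonneg hR).2 fun s => ?_
      have := b1 z s
      rw [Real.norm_eq_abs, abs_of_nonneg this.1]
      exact this.2.trans (le_max_right _ _)
    · refine (pi_norm_le_iff_of_nonneg hR).2 fun s => ?_
      have := b2 z s
      rw [Real.norm_eq_abs, abs_of_nonneg this.1]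
      exact this.2.trans (le_max_right _ _))
  have z1 : ∀ s, nm (pr (z.1 s)) (fun i => ∑ j, pr (z.2.1 s) j * M1 z s i j) = z.1 s :=
    fun s => congrFun (congrArg (fun w : E => w.1) hz) s
  have z2 : ∀ s, nm (pr (z.2.1 s)) (fun j => ∑ i, pr (z.1 s) i * M2 z s i j) = z.2.1 s :=
    fun s => congrFun (congrArg (fun w : E => w.2.1) hz) s
  have z3 : ∀ s, ∑ i, pr (z.1 s) i * ∑ j, pr (z.2.1 s) j * M1 z s i j = z.2.2.1 s :=
    fun s => congrFun (congrArg (fun w : E => w.2.2.1) hz) s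
  have z4 : ∀ s, ∑ j, pr (z.2.1 s) j * ∑ i, pr (z.1 s) i * M2 z s i j = z.2.2.2 s :=
    fun s => congrFun (congrArg (fun w : E => w.2.2.2) hz) s
  have x0 : ∀ s i, 0 ≤ z.1 s i := fun s i => by
    rw [← z1 s]; exact nm_nonneg _ _ (pr_nonneg _) i
  have x1 : ∀ s, ∑ i, z.1 s i = 1 := fun s => by
    rw [← z1 s]; exact nm_sum _ _ (pr_sum _)
  have y0 : ∀ s j, 0 ≤ z.2.1 s j := fun s j => by
    rw [← z2 s]; exact nm_nonneg _ _ (pr_nonneg _) j
  have y1 : ∀ s, ∑ j, z.2.1 s j = 1 := fun s => by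
    rw [← z2 s]; exact nm_sum _ _ (pr_sum _)
  have px : ∀ s, pr (z.1 s) = z.1 s := fun s => pr_eq _ (x0 s) (x1 s)
  have py : ∀ s, pr (z.2.1 s) = z.2.1 s := fun s => pr_eq _ (y0 s) (y1 s)
  have f0 : ∀ s, 0 ≤ z.2.2.1 s ∧ z.2.2.1 s ≤ K := fun s => by rw [← z3 s]; exact b1 z s
  have g0 : ∀ s, 0 ≤ z.2.2.2 s ∧ z.2.2.2 s ≤ K := fun s => by rw [← z4 s]; exact b2 z s
  have m1 : ∀ s i j, M1 z s i j = c s i.1 j.1 * z.2.2.1 (G.δ s i.1 j.1) + d s i.1 j.1 :=
    fun s i j => by simp only [M1, cl_eq _ (f0 _).1 (f0 _).2]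
  have m2 : ∀ s i j, M2 z s i j = c s i.1 j.1 * z.2.2.2 (G.δ s i.1 j.1) + e s i.1 j.1 :=
    fun s i j => by simp only [M2, cl_eq _ (g0 _).1 (g0 _).2]
  simp only [px, py, m1, m2] at z1 z2 z3 z4
  let X : S → A → ℝ := fun s a => if h : a ∈ G.act₁ s then z.1 s ⟨a, h⟩ else 0
  let Y : S → B → ℝ := fun s b => if h : b ∈ G.act₂ s then z.2.1 s ⟨b, h⟩ else 0
  have hXi : ∀ s (i : G.act₁ s), X s i.1 = z.1 s i := fun s i => by simp [X]
  have hYj : ∀ s (j : G.act₂ s), Y s j.1 = z.2.1 s j := fun s j => by simp [Y]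
  have sF : ∀ s (φ : A → ℝ), ∑ a ∈ G.act₁ s, φ a = ∑ i : G.act₁ s, φ i.1 := fun s φ =>
    (Finset.sum_coe_sort (G.act₁ s) φ).symm
  have sE : ∀ s (φ : B → ℝ), ∑ b ∈ G.act₂ s, φ b = ∑ j : G.act₂ s, φ j.1 := fun s φ =>
    (Finset.sum_coe_sort (G.act₂ s) φ).symm
  refine ⟨X, Y, z.2.2.1, z.2.2.2, fun s => ⟨fun a ha => ?_, ?_⟩, fun s => ⟨fun b hb => ?_, ?_⟩,
    f0, g0, fun s => ?_, fun s a ha => ?_, fun s => ?_, fun s b hb => ?_⟩
  · rw [hXi s ⟨a, ha⟩]; exact x0 s _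
  · rw [sF]; simp only [hXi]; exact x1 s
  · rw [hYj s ⟨b, hb⟩]; exact y0 s _
  · rw [sE]; simp only [hYj]; exact y1 s
  · rw [sF]
    simp only [sE, hXi, hYj]
    exact (z3 s).symm
  · rw [sE]
    simp only [hYj]
    have := nm_fixed _ _ (x0 s) (x1 s) (z1 s) ⟨a, ha⟩
    rw [z3 s] at this
    exact this
  · rw [sE]
    simp only [sF, hXi, hYj]
    exact (z4 s).symm
  · rw [sF]
    simp only [hXi]
    have := nm_fixed _ _ (y0 s) (y1 s) (z2 s) ⟨b, hb⟩
    rw [z4 s] at this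
    exact this

end Pool.Agent.H40.NE
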