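import Pool.Agent.H40.NE.Stat
import Pool.Agent.H40.NE.Disc2

/-! Unilateral exits from a cycle. -/

set_option autoImplicit false
set_option linter.unusedSectionVars false

open Finset Relation Filter Topology

namespace Pool.Agent.H40.NE

open Pool.Agent.H95.NE Pool.Agent.H95.NE.Game

variable {S A B : Type*}

open Classical in
/-- `φ` inside `C`, `P` outside -/
noncomputable def ext (C : Set S) (φ P : S → ℝ) (t : S) : ℝ := if t ∈ C then φ t else P t

theorem ext_in {C : Set S} {φ P : S → ℝ} {t : S} (h : t ∈ C) : ext C φ P t = φ t := if_pos h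

theorem ext_out {C : Set S} {φ P : S → ℝ} {t : S} (h : t ∉ C) : ext C φ P t = P t := if_neg h

theorem mix_ge_pos {A : Type*} {F : Finset A} {x : A → ℝ} (hx : Mix F x) {V : A → ℝ} {c : ℝ}
    (h : ∀ a ∈ F, 0 < x a → c ≤ V a) : c ≤ ∑ a ∈ F, x a * V a := by
  calc c = ∑ a ∈ F, x a * c := by rw [← Finset.sum_mul, hx.2, one_mul]
    _ ≤ ∑ a ∈ F, x a * V a := Finset.sum_le_sum fun a ha => by
        rcases (hx.1 a ha).lt_or_eq with h1 | h1
        · exact mul_le_mul_of_nonneg_left (h a ha h1) h1.le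
        · rw [← h1, zero_mul, zero_mul]

variable [Finite S] {G : Game S A B} {T₁ T₂ C : Set S}

theorem ST.core₁ (D : ST G T₁ T₂ C) (nx : S → S) (hnxC : ∀ s ∈ C, nx s ∈ C)
    (hnx : ∀ s ∈ C, ∀ a ∈ G.act₁ s, ∀ b ∈ G.act₂ s, G.δ s a b ∈ C → G.δ s a b = nx s)
    (habs : ∀ s ∈ C, ∃ t, ReflTransGen (PS G C D.x D.y) s t ∧ t ∉ C)
    {κ : ℝ} (hκ1 : κ ≤ 1) (φ g : S → ℝ) (hφ0 : ∀ s, 0 ≤ φ s)
    (h1 : ∀ s ∈ C, ∀ a ∈ G.act₁ s,
      ∑ b ∈ G.act₂ s, D.y s b * ext C (fun t => κ * φ t) (D.F T₁) (G.δ s a b) ≤ φ s)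
    (h1' : ∀ s ∈ C, ∀ a ∈ G.act₁ s, 0 < D.x s a →
      φ s ≤ ∑ b ∈ G.act₂ s, D.y s b * ext C (fun t => κ * φ t) (D.F T₁) (G.δ s a b))
    (h2 : ∀ s ∈ C, ∀ b ∈ G.act₂ s,
      ∑ a ∈ G.act₁ s, D.x s a * ext C g (D.F T₂) (G.δ s a b) ≤ g s)
    (h2' : ∀ s ∈ C, ∀ b ∈ G.act₂ s, 0 < D.y s b →
      g s ≤ ∑ a ∈ G.act₁ s, D.x s a * ext C g (D.F T₂) (G.δ s a b))
    (hc : ∀ s ∈ C, ∀ a ∈ G.act₁ s, ∀ a₀ ∈ G.act₁ s, 0 < D.x s a₀ →
      ∑ b ∈ G.act₂ s, D.y s b * ext C 1 0 (G.δ s a b) ≤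
        ∑ b ∈ G.act₂ s, D.y s b * ext C 1 0 (G.δ s a₀ b)) :
    ∀ s ∈ C, HasNE G T₁ T₂ s := by
  have hκφ : ∀ s, κ * φ s ≤ φ s := fun s => by
    have := mul_le_mul_of_nonneg_right hκ1 (hφ0 s)
    rwa [one_mul] at this
  -- player 1
  have hφF : ∀ s ∈ C, φ s ≤ D.F T₁ s := by
    intro s hs
    have := max_principle D.hx D.hy (F := D.F T₁) (φ := ext C φ (D.F T₁))
      (fun s hs => (D.F_step hs (D.hC₁ s hs)).ge)
      (fun s hs => by
        rw [ext_in hs, dsum]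
        refine mix_ge_pos (D.hx s) fun a ha hxa => (h1' s hs a ha hxa).trans ?_
        refine Finset.sum_le_sum fun b hb => mul_le_mul_of_nonneg_left ?_ ((D.hy s).1 b hb)
        by_cases hd : G.δ s a b ∈ C
        · rw [ext_in hd, ext_in hd]; exact hκφ _
        · rw [ext_out hd, ext_out hd])
      (fun s hs => (ext_out hs).le) habs s hs
    rwa [ext_in hs] at this
  have hW : ∀ s ∈ C, ∀ a ∈ G.act₁ s, ∑ b ∈ G.act₂ s, D.y s b * D.F T₁ (G.δ s a b) =
      ∑ b ∈ G.act₂ s, D.y s b * ext C (fun t => κ * φ t) (D.F T₁) (G.δ s a b) +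
        (D.F T₁ (nx s) - κ * φ (nx s)) * ∑ b ∈ G.act₂ s, D.y s b * ext C 1 0 (G.δ s a b) := by
    intro s hs a ha
    rw [Finset.mul_sum, ← Finset.sum_add_distrib]
    refine Finset.sum_congr rfl fun b hb => ?_
    by_cases hd : G.δ s a b ∈ C
    · rw [ext_in hd, ext_in hd, hnx s hs a ha b hb hd]
      simp only [Pi.one_apply]
      ring
    · rw [ext_out hd, ext_out hd]
      simp
  have hcoef : ∀ s ∈ C, 0 ≤ D.F T₁ (nx s) - κ * φ (nx s) := fun s hs => by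
    have := hφF _ (hnxC s hs)
    have := hκφ (nx s)
    linarith
  have V₁ : ∀ s ∈ C, ∀ a ∈ G.act₁ s,
      ∑ b ∈ G.act₂ s, D.y s b * D.F T₁ (G.δ s a b) ≤ D.F T₁ s := by
    intro s hs a ha
    obtain ⟨a₀, ha₀, hxa₀⟩ := (D.hx s).exists_pos
    have e1 : φ s + (D.F T₁ (nx s) - κ * φ (nx s)) *
        ∑ b ∈ G.act₂ s, D.y s b * ext C 1 0 (G.δ s a₀ b) ≤ D.F T₁ s := by
      rw [D.F_step hs (D.hC₁ s hs), dsum]
      refine mix_ge_pos (D.hx s) fun a' ha' hxa' => ?_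
      rw [hW s hs a' ha']
      have := h1' s hs a' ha' hxa'
      have := mul_le_mul_of_nonneg_left (hc s hs a₀ ha₀ a' ha' hxa') (hcoef s hs)
      linarith
    rw [hW s hs a ha]
    have := h1 s hs a ha
    have := mul_le_mul_of_nonneg_left (hc s hs a ha a₀ ha₀ hxa₀) (hcoef s hs)
    linarith
  -- player 2
  have hHg : ∀ s, D.F T₂ s = ext C g (D.F T₂) s := by
    intro s
    by_cases hs : s ∈ C
    · refine le_antisymm ?_ ?_
      · exact max_principle D.hx D.hy (F := ext C g (D.F T₂)) (φ := D.F T₂)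
          (fun s hs => by
            rw [ext_in hs, dsum']
            exact mix_le (D.hy s) fun b hb => h2 s hs b hb)
          (fun s hs => (D.F_step hs (D.hC₂ s hs)).le)
          (fun s hs => (ext_out hs).ge) habs s hs
      · exact max_principle D.hx D.hy (F := D.F T₂) (φ := ext C g (D.F T₂))
          (fun s hs => (D.F_step hs (D.hC₂ s hs)).ge)
          (fun s hs => by
            rw [ext_in hs, dsum']
            exact mix_ge_pos (D.hy s) fun b hb hyb => h2' s hs b hb hyb)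
          (fun s hs => (ext_out hs).le) habs s hs
    · rw [ext_out hs]
  have V₂ : ∀ s ∈ C, ∀ b ∈ G.act₂ s,
      ∑ a ∈ G.act₁ s, D.x s a * D.F T₂ (G.δ s a b) ≤ D.F T₂ s := by
    intro s hs b hb
    have := h2 s hs b hb
    rw [hHg s, ext_in hs]
    refine le_trans (le_of_eq ?_) this
    exact Finset.sum_congr rfl fun a _ => by rw [← hHg]
  exact fun s hs => D.verify V₁ V₂ hs

theorem ST.core₂ (D : ST G T₁ T₂ C) (nx : S → S) (hnxC : ∀ s ∈ C, nx s ∈ C)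
    (hnx : ∀ s ∈ C, ∀ a ∈ G.act₁ s, ∀ b ∈ G.act₂ s, G.δ s a b ∈ C → G.δ s a b = nx s)
    (habs : ∀ s ∈ C, ∃ t, ReflTransGen (PS G C D.x D.y) s t ∧ t ∉ C)
    {κ : ℝ} (hκ1 : κ ≤ 1) (φ g : S → ℝ) (hφ0 : ∀ s, 0 ≤ φ s)
    (h1 : ∀ s ∈ C, ∀ b ∈ G.act₂ s,
      ∑ a ∈ G.act₁ s, D.x s a * ext C (fun t => κ * φ t) (D.F T₂) (G.δ s a b) ≤ φ s)
    (h1' : ∀ s ∈ C, ∀ b ∈ G.act₂ s, 0 < D.y s b →
      φ s ≤ ∑ a ∈ G.act₁ s, D.x s a * ext C (fun t => κ * φ t) (D.F T₂) (G.δ s a b))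
    (h2 : ∀ s ∈ C, ∀ a ∈ G.act₁ s,
      ∑ b ∈ G.act₂ s, D.y s b * ext C g (D.F T₁) (G.δ s a b) ≤ g s)
    (h2' : ∀ s ∈ C, ∀ a ∈ G.act₁ s, 0 < D.x s a →
      g s ≤ ∑ b ∈ G.act₂ s, D.y s b * ext C g (D.F T₁) (G.δ s a b))
    (hc : ∀ s ∈ C, ∀ b ∈ G.act₂ s, ∀ b₀ ∈ G.act₂ s, 0 < D.y s b₀ →
      ∑ a ∈ G.act₁ s, D.x s a * ext C 1 0 (G.δ s a b) ≤
        ∑ a ∈ G.act₁ s, D.x s a * ext C 1 0 (G.δ s a b₀)) :
    ∀ s ∈ C, HasNE G T₁ T₂ s := by
  have hκφ : ∀ s, κ * φ s ≤ φ s := fun s => by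
    have := mul_le_mul_of_nonneg_right hκ1 (hφ0 s)
    rwa [one_mul] at this
  -- player 2
  have hφF : ∀ s ∈ C, φ s ≤ D.F T₂ s := by
    intro s hs
    have := max_principle D.hx D.hy (F := D.F T₂) (φ := ext C φ (D.F T₂))
      (fun s hs => (D.F_step hs (D.hC₂ s hs)).ge)
      (fun s hs => by
        rw [ext_in hs, dsum']
        refine mix_ge_pos (D.hy s) fun b hb hyb => (h1' s hs b hb hyb).trans ?_
        refine Finset.sum_le_sum fun a ha => mul_le_mul_of_nonneg_left ?_ ((D.hx s).1 a ha)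
        by_cases hd : G.δ s a b ∈ C
        · rw [ext_in hd, ext_in hd]; exact hκφ _
        · rw [ext_out hd, ext_out hd])
      (fun s hs => (ext_out hs).le) habs s hs
    rwa [ext_in hs] at this
  have hW : ∀ s ∈ C, ∀ b ∈ G.act₂ s, ∑ a ∈ G.act₁ s, D.x s a * D.F T₂ (G.δ s a b) =
      ∑ a ∈ G.act₁ s, D.x s a * ext C (fun t => κ * φ t) (D.F T₂) (G.δ s a b) +
        (D.F T₂ (nx s) - κ * φ (nx s)) * ∑ a ∈ G.act₁ s, D.x s a * ext C 1 0 (G.δ s a b) := by
    intro s hs b hb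
    rw [Finset.mul_sum, ← Finset.sum_add_distrib]
    refine Finset.sum_congr rfl fun a ha => ?_
    by_cases hd : G.δ s a b ∈ C
    · rw [ext_in hd, ext_in hd, hnx s hs a ha b hb hd]
      simp only [Pi.one_apply]
      ring
    · rw [ext_out hd, ext_out hd]
      simp
  have hcoef : ∀ s ∈ C, 0 ≤ D.F T₂ (nx s) - κ * φ (nx s) := fun s hs => by
    have := hφF _ (hnxC s hs)
    have := hκφ (nx s)
    linarith
  have V₂ : ∀ s ∈ C, ∀ b ∈ G.act₂ s,
      ∑ a ∈ G.act₁ s, D.x s a * D.F T₂ (G.δ s a b) ≤ D.F T₂ s := by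
    intro s hs b hb
    obtain ⟨b₀, hb₀, hyb₀⟩ := (D.hy s).exists_pos
    have e1 : φ s + (D.F T₂ (nx s) - κ * φ (nx s)) *
        ∑ a ∈ G.act₁ s, D.x s a * ext C 1 0 (G.δ s a b₀) ≤ D.F T₂ s := by
      rw [D.F_step hs (D.hC₂ s hs), dsum']
      refine mix_ge_pos (D.hy s) fun b' hb' hyb' => ?_
      rw [hW s hs b' hb']
      have := h1' s hs b' hb' hyb'
      have := mul_le_mul_of_nonneg_left (hc s hs b₀ hb₀ b' hb' hyb') (hcoef s hs)
      linarith
    rw [hW s hs b hb]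
    have := h1 s hs b hb
    have := mul_le_mul_of_nonneg_left (hc s hs b hb b₀ hb₀ hyb₀) (hcoef s hs)
    linarith
  -- player 1
  have hHg : ∀ s, D.F T₁ s = ext C g (D.F T₁) s := by
    intro s
    by_cases hs : s ∈ C
    · refine le_antisymm ?_ ?_
      · exact max_principle D.hx D.hy (F := ext C g (D.F T₁)) (φ := D.F T₁)
          (fun s hs => by
            rw [ext_in hs, dsum]
            exact mix_le (D.hx s) fun a ha => h2 s hs a ha)
          (fun s hs => (D.F_step hs (D.hC₁ s hs)).le)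
          (fun s hs => (ext_out hs).ge) habs s hs
      · exact max_principle D.hx D.hy (F := D.F T₁) (φ := ext C g (D.F T₁))
          (fun s hs => (D.F_step hs (D.hC₁ s hs)).ge)
          (fun s hs => by
            rw [ext_in hs, dsum]
            exact mix_ge_pos (D.hx s) fun a ha hxa => h2' s hs a ha hxa)
          (fun s hs => (ext_out hs).le) habs s hs
    · rw [ext_out hs]
  have V₁ : ∀ s ∈ C, ∀ a ∈ G.act₁ s,
      ∑ b ∈ G.act₂ s, D.y s b * D.F T₁ (G.δ s a b) ≤ D.F T₁ s := by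
    intro s hs a ha
    have := h2 s hs a ha
    rw [hHg s, ext_in hs]
    refine le_trans (le_of_eq ?_) this
    exact Finset.sum_congr rfl fun b _ => by rw [← hHg]
  exact fun s hs => D.verify V₁ V₂ hs

/-- The limit profile leaves `C`. -/
theorem ST.core₀ (D : ST G T₁ T₂ C)
    (habs : ∀ s ∈ C, ∃ t, ReflTransGen (PS G C D.x D.y) s t ∧ t ∉ C) (f g : S → ℝ)
    (h1 : ∀ s ∈ C, ∀ a ∈ G.act₁ s,
      ∑ b ∈ G.act₂ s, D.y s b * ext C f (D.F T₁) (G.δ s a b) ≤ f s)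
    (h1' : ∀ s ∈ C, ∀ a ∈ G.act₁ s, 0 < D.x s a →
      f s ≤ ∑ b ∈ G.act₂ s, D.y s b * ext C f (D.F T₁) (G.δ s a b))
    (h2 : ∀ s ∈ C, ∀ b ∈ G.act₂ s,
      ∑ a ∈ G.act₁ s, D.x s a * ext C g (D.F T₂) (G.δ s a b) ≤ g s)
    (h2' : ∀ s ∈ C, ∀ b ∈ G.act₂ s, 0 < D.y s b →
      g s ≤ ∑ a ∈ G.act₁ s, D.x s a * ext C g (D.F T₂) (G.δ s a b)) :
    ∀ s ∈ C, HasNE G T₁ T₂ s := by
  have hFf : ∀ s, D.F T₁ s = ext C f (D.F T₁) s := by
    intro s
    by_cases hs : s ∈ C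
    · refine le_antisymm ?_ ?_
      · exact max_principle D.hx D.hy (F := ext C f (D.F T₁)) (φ := D.F T₁)
          (fun s hs => by
            rw [ext_in hs, dsum]
            exact mix_le (D.hx s) fun a ha => h1 s hs a ha)
          (fun s hs => (D.F_step hs (D.hC₁ s hs)).le)
          (fun s hs => (ext_out hs).ge) habs s hs
      · exact max_principle D.hx D.hy (F := D.F T₁) (φ := ext C f (D.F T₁))
          (fun s hs => (D.F_step hs (D.hC₁ s hs)).ge)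
          (fun s hs => by
            rw [ext_in hs, dsum]
            exact mix_ge_pos (D.hx s) fun a ha hxa => h1' s hs a ha hxa)
          (fun s hs => (ext_out hs).le) habs s hs
    · rw [ext_out hs]
  have hHg : ∀ s, D.F T₂ s = ext C g (D.F T₂) s := by
    intro s
    by_cases hs : s ∈ C
    · refine le_antisymm ?_ ?_
      · exact max_principle D.hx D.hy (F := ext C g (D.F T₂)) (φ := D.F T₂)
          (fun s hs => by
            rw [ext_in hs, dsum']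
            exact mix_le (D.hy s) fun b hb => h2 s hs b hb)
          (fun s hs => (D.F_step hs (D.hC₂ s hs)).le)
          (fun s hs => (ext_out hs).ge) habs s hs
      · exact max_principle D.hx D.hy (F := D.F T₂) (φ := ext C g (D.F T₂))
          (fun s hs => (D.F_step hs (D.hC₂ s hs)).ge)
          (fun s hs => by
            rw [ext_in hs, dsum']
            exact mix_ge_pos (D.hy s) fun b hb hyb => h2' s hs b hb hyb)
          (fun s hs => (ext_out hs).le) habs s hs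
    · rw [ext_out hs]
  refine fun s hs => D.verify (fun s hs a ha => ?_) (fun s hs b hb => ?_) hs
  · have := h1 s hs a ha
    rw [hFf s, ext_in hs]
    refine le_trans (le_of_eq ?_) this
    exact Finset.sum_congr rfl fun b _ => by rw [← hFf]
  · have := h2 s hs b hb
    rw [hHg s, ext_in hs]
    refine le_trans (le_of_eq ?_) this
    exact Finset.sum_congr rfl fun a _ => by rw [← hHg]

end Pool.Agent.H40.NE
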