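import Pool.Agent.H40.NE.Core1

/-! Replay cycles all exits of which have an equilibrium. -/

set_option autoImplicit false
set_option linter.unusedSectionVars false

open Finset Relation Filter Topology

namespace Pool.Agent.H40.NE

open Pool.Agent.H95.NE Pool.Agent.H95.NE.Game

variable {S A B : Type*}

theorem mix_le_pos {A : Type*} {F : Finset A} {x : A → ℝ} (hx : Mix F x) {V : A → ℝ} {c : ℝ}
    (h : ∀ a ∈ F, 0 < x a → V a ≤ c) : ∑ a ∈ F, x a * V a ≤ c := by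
  calc ∑ a ∈ F, x a * V a ≤ ∑ a ∈ F, x a * c := Finset.sum_le_sum fun a ha => by
        rcases (hx.1 a ha).lt_or_eq with h1 | h1
        · exact mul_le_mul_of_nonneg_left (h a ha h1) h1.le
        · rw [← h1, zero_mul, zero_mul]
    _ = c := by rw [← Finset.sum_mul, hx.2, one_mul]

theorem ext_congr {C : Set S} {φ P P' : S → ℝ} (h : ∀ k ∉ C, P k = P' k) (t : S) :
    ext C φ P t = ext C φ P' t := by
  by_cases ht : t ∈ C
  · rw [ext_in ht, ext_in ht]
  · rw [ext_out ht, ext_out ht, h t ht]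

theorem exists_ulim (u : ℕ → ℝ) (h : ∀ n, 0 ≤ u n ∧ u n ≤ 1) :
    ∃ l, 0 ≤ l ∧ l ≤ 1 ∧ Tendsto u (hyperfilter ℕ) (𝓝 l) := by
  obtain ⟨l, hl, hle⟩ := (isCompact_Icc (a := (0 : ℝ)) (b := 1)).ultrafilter_le_nhds
    (Ultrafilter.map u (hyperfilter ℕ)) (by
      rw [Ultrafilter.coe_map, le_principal_iff, Filter.mem_map]
      exact Filter.univ_mem' fun n => h n)
  exact ⟨l, hl.1, hl.2, hle⟩

theorem mix_le_one {A : Type*} {F : Finset A} {x : A → ℝ} (hx : Mix F x) {a : A} (ha : a ∈ F) :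
    x a ≤ 1 := by
  rw [← hx.2]
  exact Finset.single_le_sum (f := x) (fun b hb => hx.1 b hb) ha

theorem absorb {G : Game S A B} {C : Set S} {x : S → A → ℝ} {y : S → B → ℝ} {nx : S → S}
    (hx : ∀ s, Mix (G.act₁ s) (x s)) (hy : ∀ s, Mix (G.act₂ s) (y s))
    (hnxC : ∀ s ∈ C, nx s ∈ C)
    (hnx : ∀ s ∈ C, ∀ a ∈ G.act₁ s, ∀ b ∈ G.act₂ s, G.δ s a b ∈ C → G.δ s a b = nx s)
    (hconn : ∀ s ∈ C, ∀ t ∈ C, ∃ n, nx^[n] s = t)
    (hex : ∃ s ∈ C, ∃ a ∈ G.act₁ s, ∃ b ∈ G.act₂ s, 0 < x s a ∧ 0 < y s b ∧ G.δ s a b ∉ C) :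
    ∀ s ∈ C, ∃ t, ReflTransGen (PS G C x y) s t ∧ t ∉ C := by
  obtain ⟨s', hs', a', ha', b', hb', hxa, hyb, hout⟩ := hex
  intro s hs
  obtain ⟨n, hn⟩ := hconn s hs s' hs'
  induction n generalizing s with
  | zero =>
    have : s = s' := hn
    subst this
    exact ⟨_, ReflTransGen.single ⟨hs, a', ha', b', hb', hxa, hyb, rfl⟩, hout⟩
  | succ n ih =>
    obtain ⟨a, ha, hxa⟩ := (hx s).exists_pos
    obtain ⟨b, hb, hyb⟩ := (hy s).exists_pos
    by_cases hd : G.δ s a b ∈ C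
    · have e := hnx s hs a ha b hb hd
      obtain ⟨t, ht, htC⟩ := ih (nx s) (hnxC s hs) hn
      exact ⟨t, ReflTransGen.head ⟨hs, a, ha, b, hb, hxa, hyb, e⟩ ht, htC⟩
    · exact ⟨_, ReflTransGen.single ⟨hs, a, ha, b, hb, hxa, hyb, rfl⟩, hd⟩

theorem replay [Finite S] {G : Game S A B} {T₁ T₂ C : Set S} (hC₁ : ∀ s ∈ C, s ∉ T₁)
    (hC₂ : ∀ s ∈ C, s ∉ T₂) (nx : S → S) (hnxC : ∀ s ∈ C, nx s ∈ C)
    (hnx : ∀ s ∈ C, ∀ a ∈ G.act₁ s, ∀ b ∈ G.act₂ s, G.δ s a b ∈ C → G.δ s a b = nx s)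
    (hconn : ∀ s ∈ C, ∀ t ∈ C, ∃ n, nx^[n] s = t)
    (hdif : ∀ s ∈ C, ∀ a ∈ G.act₁ s, ∀ a' ∈ G.act₁ s, ∀ b ∈ G.act₂ s, ∀ b' ∈ G.act₂ s,
      G.δ s a b ∈ C → G.δ s a' b ∈ C → G.δ s a b' ∈ C → G.δ s a' b' ∈ C)
    (hout : ∀ s ∈ C, ∀ a ∈ G.act₁ s, ∀ b ∈ G.act₂ s, G.δ s a b ∉ C →
      HasNE G T₁ T₂ (G.δ s a b)) {s₀ : S} (hs₀ : s₀ ∈ C) : HasNE G T₁ T₂ s₀ := by
  classical
  choose σ τ hσ hτ hN using exists_default G T₁ T₂
  let P : S → ℝ := fun k => G.pay T₁ k (σ k) (τ k)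
  let Q : S → ℝ := fun k => G.pay T₂ k (σ k) (τ k)
  have hP0 : ∀ k, 0 ≤ P k := fun k => pay_nonneg (hσ k) (hτ k)
  have hQ0 : ∀ k, 0 ≤ Q k := fun k => pay_nonneg (hσ k) (hτ k)
  have hP1 : ∀ k, P k ≤ 1 := fun k => pay_le_one (hσ k) (hτ k)
  have hQ1 : ∀ k, Q k ≤ 1 := fun k => pay_le_one (hσ k) (hτ k)
  let κ : ℕ → ℝ := fun n => 1 - 1 / ((n : ℝ) + 2)
  have hκ : ∀ n, 0 ≤ κ n ∧ κ n < 1 := fun n => by
    have h2 : (0 : ℝ) < (n : ℝ) + 2 := by positivity
    have h3 : 1 / ((n : ℝ) + 2) ≤ 1 := by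
      rw [div_le_one h2]; linarith [Nat.cast_nonneg (α := ℝ) n]
    have h4 : 0 < 1 / ((n : ℝ) + 2) := by positivity
    exact ⟨by simp only [κ]; linarith, by simp only [κ]; linarith⟩
  -- equilibria of the discounted games
  have hdisc := fun n => disc G 1 zero_le_one
    (fun s a b => if G.δ s a b ∈ C then κ n else 0)
    (fun s a b => if G.δ s a b ∈ C then 0 else P (G.δ s a b))
    (fun s a b => if G.δ s a b ∈ C then 0 else Q (G.δ s a b))
    (fun s a b => by split_ifs; exacts [(hκ n).1, le_rfl])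
    (fun s a b => by split_ifs; exacts [le_rfl, hP0 _])
    (fun s a b => by split_ifs; exacts [le_rfl, hQ0 _])
    (fun s a b => by split_ifs <;> linarith [(hκ n).2, hP1 (G.δ s a b)])
    (fun s a b => by split_ifs <;> linarith [(hκ n).2, hQ1 (G.δ s a b)])
  choose x y f g hx hy hf hg ef if' eg ig using hdisc
  have e1 : ∀ n s a b, (if G.δ s a b ∈ C then κ n else 0) * f n (G.δ s a b) +
      (if G.δ s a b ∈ C then 0 else P (G.δ s a b)) =
      ext C (fun t => κ n * f n t) P (G.δ s a b) := by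
    intro n s a b
    by_cases h : G.δ s a b ∈ C
    · rw [if_pos h, if_pos h, ext_in h, add_zero]
    · rw [if_neg h, if_neg h, ext_out h]; ring
  have e2 : ∀ n s a b, (if G.δ s a b ∈ C then κ n else 0) * g n (G.δ s a b) +
      (if G.δ s a b ∈ C then 0 else Q (G.δ s a b)) =
      ext C (fun t => κ n * g n t) Q (G.δ s a b) := by
    intro n s a b
    by_cases h : G.δ s a b ∈ C
    · rw [if_pos h, if_pos h, ext_in h, add_zero]
    · rw [if_neg h, if_neg h, ext_out h]; ring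
  simp only [e1] at ef if'
  simp only [e2] at eg ig
  have cf : ∀ n s, ∀ a ∈ G.act₁ s, 0 < x n s a → ∑ b ∈ G.act₂ s, y n s b *
      ext C (fun t => κ n * f n t) P (G.δ s a b) = f n s := fun n s a ha h =>
    sum_eq_of (hx n s) (if' n s) (ef n s).le ha h
  have cg : ∀ n s, ∀ b ∈ G.act₂ s, 0 < y n s b → ∑ a ∈ G.act₁ s, x n s a *
      ext C (fun t => κ n * g n t) Q (G.δ s a b) = g n s := fun n s b hb h =>
    sum_eq_of (hy n s) (ig n s) (eg n s).le hb h
  -- limits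
  have hκlim : Tendsto κ (hyperfilter ℕ) (𝓝 1) := by
    have : Tendsto κ atTop (𝓝 (1 - 0)) := by
      refine Tendsto.sub tendsto_const_nhds ?_
      have h := tendsto_one_div_add_atTop_nhds_zero_nat (𝕜 := ℝ)
      have h2 := h.comp (tendsto_add_atTop_nat 1)
      refine h2.congr fun n => ?_
      simp only [Function.comp, Nat.cast_add, Nat.cast_one]
      congr 1
      ring
    rw [sub_zero] at this
    exact this.mono_left Nat.hyperfilter_le_atTop
  have hXex : ∀ s a, ∃ l, a ∈ G.act₁ s → Tendsto (fun n => x n s a) (hyperfilter ℕ) (𝓝 l) := by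
    intro s a
    by_cases ha : a ∈ G.act₁ s
    · obtain ⟨l, _, _, hl⟩ := exists_ulim (fun n => x n s a)
        fun n => ⟨(hx n s).1 a ha, mix_le_one (hx n s) ha⟩
      exact ⟨l, fun _ => hl⟩
    · exact ⟨0, fun h => absurd h ha⟩
  have hYex : ∀ s b, ∃ l, b ∈ G.act₂ s → Tendsto (fun n => y n s b) (hyperfilter ℕ) (𝓝 l) := by
    intro s b
    by_cases hb : b ∈ G.act₂ s
    · obtain ⟨l, _, _, hl⟩ := exists_ulim (fun n => y n s b)
        fun n => ⟨(hy n s).1 b hb, mix_le_one (hy n s) hb⟩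
      exact ⟨l, fun _ => hl⟩
    · exact ⟨0, fun h => absurd h hb⟩
  choose X hX using hXex
  choose Y hY using hYex
  choose F hF0 hF1 hF using fun s => exists_ulim (fun n => f n s) fun n => hf n s
  choose H hH0 hH1 hH using fun s => exists_ulim (fun n => g n s) fun n => hg n s
  have hXm : ∀ s, Mix (G.act₁ s) (X s) := fun s => by
    refine ⟨fun a ha => ge_of_tendsto' (hX s a ha) fun n => (hx n s).1 a ha, ?_⟩
    have := tendsto_finsetSum (G.act₁ s) fun a ha => hX s a ha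
    exact tendsto_nhds_unique this (by simp only [fun n => (hx n s).2]; exact tendsto_const_nhds)
  have hYm : ∀ s, Mix (G.act₂ s) (Y s) := fun s => by
    refine ⟨fun b hb => ge_of_tendsto' (hY s b hb) fun n => (hy n s).1 b hb, ?_⟩
    have := tendsto_finsetSum (G.act₂ s) fun b hb => hY s b hb
    exact tendsto_nhds_unique this (by simp only [fun n => (hy n s).2]; exact tendsto_const_nhds)
  have tf : ∀ t, Tendsto (fun n => ext C (fun t => κ n * f n t) P t) (hyperfilter ℕ)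
      (𝓝 (ext C F P t)) := fun t => by
    by_cases ht : t ∈ C
    · simp only [ext_in ht]
      have := hκlim.mul (hF t)
      rwa [one_mul] at this
    · simp only [ext_out ht]; exact tendsto_const_nhds
  have tg : ∀ t, Tendsto (fun n => ext C (fun t => κ n * g n t) Q t) (hyperfilter ℕ)
      (𝓝 (ext C H Q t)) := fun t => by
    by_cases ht : t ∈ C
    · simp only [ext_in ht]
      have := hκlim.mul (hH t)
      rwa [one_mul] at this
    · simp only [ext_out ht]; exact tendsto_const_nhds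
  have t1 : ∀ s a, Tendsto (fun n => ∑ b ∈ G.act₂ s, y n s b *
      ext C (fun t => κ n * f n t) P (G.δ s a b)) (hyperfilter ℕ)
      (𝓝 (∑ b ∈ G.act₂ s, Y s b * ext C F P (G.δ s a b))) := fun s a =>
    tendsto_finsetSum _ fun b hb => (hY s b hb).mul (tf _)
  have t2 : ∀ s b, Tendsto (fun n => ∑ a ∈ G.act₁ s, x n s a *
      ext C (fun t => κ n * g n t) Q (G.δ s a b)) (hyperfilter ℕ)
      (𝓝 (∑ a ∈ G.act₁ s, X s a * ext C H Q (G.δ s a b))) := fun s b =>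
    tendsto_finsetSum _ fun a ha => (hX s a ha).mul (tg _)
  have l1 : ∀ s, ∀ a ∈ G.act₁ s, ∑ b ∈ G.act₂ s, Y s b * ext C F P (G.δ s a b) ≤ F s :=
    fun s a ha => le_of_tendsto_of_tendsto' (t1 s a) (hF s) fun n => if' n s a ha
  have l2 : ∀ s, ∀ b ∈ G.act₂ s, ∑ a ∈ G.act₁ s, X s a * ext C H Q (G.δ s a b) ≤ H s :=
    fun s b hb => le_of_tendsto_of_tendsto' (t2 s b) (hH s) fun n => ig n s b hb
  have l1' : ∀ s, ∀ a ∈ G.act₁ s, (∀ᶠ n in (hyperfilter ℕ : Filter ℕ), 0 < x n s a) →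
      ∑ b ∈ G.act₂ s, Y s b * ext C F P (G.δ s a b) = F s := fun s a ha h =>
    tendsto_nhds_unique_of_eventuallyEq (t1 s a) (hF s) (h.mono fun n hn => cf n s a ha hn)
  have l2' : ∀ s, ∀ b ∈ G.act₂ s, (∀ᶠ n in (hyperfilter ℕ : Filter ℕ), 0 < y n s b) →
      ∑ a ∈ G.act₁ s, X s a * ext C H Q (G.δ s a b) = H s := fun s b hb h =>
    tendsto_nhds_unique_of_eventuallyEq (t2 s b) (hH s) (h.mono fun n hn => cg n s b hb hn)
  have pX : ∀ s, ∀ a ∈ G.act₁ s, 0 < X s a → ∀ᶠ n in (hyperfilter ℕ : Filter ℕ), 0 < x n s a :=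
    fun s a ha h => (hX s a ha).eventually (lt_mem_nhds h)
  have pY : ∀ s, ∀ b ∈ G.act₂ s, 0 < Y s b → ∀ᶠ n in (hyperfilter ℕ : Filter ℕ), 0 < y n s b :=
    fun s b hb h => (hY s b hb).eventually (lt_mem_nhds h)
  -- profiles
  let mk : ∀ (x' : S → A → ℝ) (y' : S → B → ℝ), (∀ s, Mix (G.act₁ s) (x' s)) →
      (∀ s, Mix (G.act₂ s) (y' s)) → ST G T₁ T₂ C := fun x' y' h1 h2 =>
    { σ := σ, τ := τ, hσ := hσ, hτ := hτ, x := x', y := y', hx := h1, hy := h2, hC₁ := hC₁,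
      hC₂ := hC₂, hout := fun s hs a ha b hb h => hN _ (hout s hs a ha b hb h) }
  have x1 : ∀ x' y' h1 h2 φ t, ext C φ ((mk x' y' h1 h2).F T₁) t = ext C φ P t :=
    fun x' y' h1 h2 φ t => ext_congr (fun k hk => ST.F_out _ hk) t
  have x2 : ∀ x' y' h1 h2 φ t, ext C φ ((mk x' y' h1 h2).F T₂) t = ext C φ Q t :=
    fun x' y' h1 h2 φ t => ext_congr (fun k hk => ST.F_out _ hk) t
  by_cases hA : ∃ s ∈ C, ∃ a ∈ G.act₁ s, ∃ b ∈ G.act₂ s, 0 < X s a ∧ 0 < Y s b ∧ G.δ s a b ∉ C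
  · refine (mk X Y hXm hYm).core₀ (absorb hXm hYm hnxC hnx hconn hA) F H
      (fun s hs a ha => ?_) (fun s hs a ha h => ?_) (fun s hs b hb => ?_) (fun s hs b hb h => ?_)
      s₀ hs₀
    · simp only [x1]; exact l1 s a ha
    · simp only [x1]; exact (l1' s a ha (pX s a ha h)).ge
    · simp only [x2]; exact l2 s b hb
    · simp only [x2]; exact (l2' s b hb (pY s b hb h)).ge
  push Not at hA
  choose a0 ha0 hXa0 using fun s => (hXm s).exists_pos
  choose b0 hb0 hYb0 using fun s => (hYm s).exists_pos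
  have h00 : ∀ s ∈ C, G.δ s (a0 s) (b0 s) ∈ C := fun s hs =>
    hA s hs _ (ha0 s) _ (hb0 s) (hXa0 s) (hYb0 s)
  have hI : ∀ s ∈ C, ∀ a ∈ G.act₁ s, 0 < X s a → G.δ s a (b0 s) ∈ C := fun s hs a ha h =>
    hA s hs a ha _ (hb0 s) h (hYb0 s)
  have hJ : ∀ s ∈ C, ∀ b ∈ G.act₂ s, 0 < Y s b → G.δ s (a0 s) b ∈ C := fun s hs b hb h =>
    hA s hs _ (ha0 s) b hb (hXa0 s) h
  -- stay sets
  have hIJ : ∀ s ∈ C, ∀ a ∈ G.act₁ s, ∀ b ∈ G.act₂ s, G.δ s a (b0 s) ∈ C →
      G.δ s (a0 s) b ∈ C → G.δ s a b ∈ C := fun s hs a ha b hb h1 h2 =>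
    hdif s hs _ (ha0 s) a ha _ (hb0 s) b hb (h00 s hs) h1 h2
  have hIJ' : ∀ s ∈ C, ∀ a ∈ G.act₁ s, ∀ b ∈ G.act₂ s, G.δ s a (b0 s) ∈ C →
      G.δ s a b ∈ C → G.δ s (a0 s) b ∈ C := fun s hs a ha b hb h1 h2 =>
    hdif s hs a ha _ (ha0 s) _ (hb0 s) b hb h1 (h00 s hs) h2
  have hnI : ∀ s ∈ C, ∀ a ∈ G.act₁ s, ∀ b ∈ G.act₂ s, G.δ s (a0 s) b ∈ C →
      G.δ s a b ∈ C → G.δ s a (b0 s) ∈ C := fun s hs a ha b hb h1 h2 =>
    hdif s hs _ (ha0 s) a ha b hb _ (hb0 s) h1 h2 (h00 s hs)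
  have stay1 : ∀ s ∈ C, ∀ a ∈ G.act₁ s, G.δ s a (b0 s) ∈ C → ∀ b ∈ G.act₂ s,
      ext C 1 0 (G.δ s a b) = ext C 1 0 (G.δ s (a0 s) b) := by
    intro s hs a ha h b hb
    by_cases hb' : G.δ s (a0 s) b ∈ C
    · rw [ext_in hb', ext_in (hIJ s hs a ha b hb h hb')]; rfl
    · rw [ext_out hb', ext_out fun h' => hb' (hIJ' s hs a ha b hb h h')]; rfl
  have stay1' : ∀ s ∈ C, ∀ a ∈ G.act₁ s, G.δ s a (b0 s) ∉ C → ∀ b ∈ G.act₂ s,
      ext C 1 0 (G.δ s a b) + ext C 1 0 (G.δ s (a0 s) b) ≤ 1 := by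
    intro s hs a ha h b hb
    by_cases hb' : G.δ s (a0 s) b ∈ C
    · rw [ext_in hb', ext_out fun h' => h (hnI s hs a ha b hb hb' h')]
      simp
    · rw [ext_out hb']
      by_cases h' : G.δ s a b ∈ C
      · rw [ext_in h']; simp
      · rw [ext_out h']; simp
  have stay2 : ∀ s ∈ C, ∀ b ∈ G.act₂ s, G.δ s (a0 s) b ∈ C → ∀ a ∈ G.act₁ s,
      ext C 1 0 (G.δ s a b) = ext C 1 0 (G.δ s a (b0 s)) := by
    intro s hs b hb h a ha
    by_cases ha' : G.δ s a (b0 s) ∈ C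
    · rw [ext_in ha', ext_in (hIJ s hs a ha b hb ha' h)]; rfl
    · rw [ext_out ha', ext_out fun h' => ha' (hnI s hs a ha b hb h h')]; rfl
  have stay2' : ∀ s ∈ C, ∀ b ∈ G.act₂ s, G.δ s (a0 s) b ∉ C → ∀ a ∈ G.act₁ s,
      ext C 1 0 (G.δ s a b) + ext C 1 0 (G.δ s a (b0 s)) ≤ 1 := by
    intro s hs b hb h a ha
    by_cases ha' : G.δ s a (b0 s) ∈ C
    · rw [ext_in ha', ext_out fun h' => h (hIJ' s hs a ha b hb ha' h')]
      simp
    · rw [ext_out ha']
      by_cases h' : G.δ s a b ∈ C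
      · rw [ext_in h']; simp
      · rw [ext_out h']; simp
  have half1 : ∀ s ∈ C, ∀ᶠ n in (hyperfilter ℕ : Filter ℕ),
      1 / 2 < ∑ b ∈ G.act₂ s, y n s b * ext C 1 0 (G.δ s (a0 s) b) := by
    intro s hs
    have h1 : Tendsto (fun n => ∑ b ∈ G.act₂ s, y n s b * ext C 1 0 (G.δ s (a0 s) b))
        (hyperfilter ℕ) (𝓝 (∑ b ∈ G.act₂ s, Y s b * ext C 1 0 (G.δ s (a0 s) b))) :=
      tendsto_finsetSum _ fun b hb => (hY s b hb).mul tendsto_const_nhds
    refine h1.eventually (lt_mem_nhds ?_)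
    have h2 : (1 : ℝ) ≤ ∑ b ∈ G.act₂ s, Y s b * ext C 1 0 (G.δ s (a0 s) b) :=
      mix_ge_pos (hYm s) fun b hb h => by rw [ext_in (hJ s hs b hb h)]; exact le_rfl
    linarith
  have half2 : ∀ s ∈ C, ∀ᶠ n in (hyperfilter ℕ : Filter ℕ),
      1 / 2 < ∑ a ∈ G.act₁ s, x n s a * ext C 1 0 (G.δ s a (b0 s)) := by
    intro s hs
    have h1 : Tendsto (fun n => ∑ a ∈ G.act₁ s, x n s a * ext C 1 0 (G.δ s a (b0 s)))
        (hyperfilter ℕ) (𝓝 (∑ a ∈ G.act₁ s, X s a * ext C 1 0 (G.δ s a (b0 s)))) :=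
      tendsto_finsetSum _ fun a ha => (hX s a ha).mul tendsto_const_nhds
    refine h1.eventually (lt_mem_nhds ?_)
    have h2 : (1 : ℝ) ≤ ∑ a ∈ G.act₁ s, X s a * ext C 1 0 (G.δ s a (b0 s)) :=
      mix_ge_pos (hXm s) fun a ha h => by rw [ext_in (hI s hs a ha h)]; exact le_rfl
    linarith
  have dec : ∀ p : ℕ → Prop, (∀ᶠ n in (hyperfilter ℕ : Filter ℕ), p n) ∨
      ∀ᶠ n in (hyperfilter ℕ : Filter ℕ), ¬ p n := fun p => by
    by_cases h : ∀ᶠ n in (hyperfilter ℕ : Filter ℕ), p n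
    · exact Or.inl h
    · exact Or.inr (Ultrafilter.eventually_not.2 h)
  have allx : ∀ᶠ n in (hyperfilter ℕ : Filter ℕ), ∀ s, ∀ a ∈ G.act₁ s, 0 < X s a → 0 < x n s a := by
    rw [eventually_all]
    intro s
    rw [eventually_all_finset]
    intro a ha
    by_cases h : 0 < X s a
    · exact (pX s a ha h).mono fun n hn _ => hn
    · exact Eventually.of_forall fun n h' => absurd h' h
  have ally : ∀ᶠ n in (hyperfilter ℕ : Filter ℕ), ∀ s, ∀ b ∈ G.act₂ s, 0 < Y s b → 0 < y n s b := by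
    rw [eventually_all]
    intro s
    rw [eventually_all_finset]
    intro b hb
    by_cases h : 0 < Y s b
    · exact (pY s b hb h).mono fun n hn _ => hn
    · exact Eventually.of_forall fun n h' => absurd h' h
  have supx : ∀ᶠ n in (hyperfilter ℕ : Filter ℕ), ∀ s, ∀ a ∈ G.act₁ s, 0 < x n s a →
      ∀ᶠ m in (hyperfilter ℕ : Filter ℕ), 0 < x m s a := by
    rw [eventually_all]
    intro s
    rw [eventually_all_finset]
    intro a _
    rcases dec fun n => 0 < x n s a with h | h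
    · exact Eventually.of_forall fun n _ => h
    · exact h.mono fun n hn h' => absurd h' hn
  have supy : ∀ᶠ n in (hyperfilter ℕ : Filter ℕ), ∀ s, ∀ b ∈ G.act₂ s, 0 < y n s b →
      ∀ᶠ m in (hyperfilter ℕ : Filter ℕ), 0 < y m s b := by
    rw [eventually_all]
    intro s
    rw [eventually_all_finset]
    intro b _
    rcases dec fun n => 0 < y n s b with h | h
    · exact Eventually.of_forall fun n _ => h
    · exact h.mono fun n hn h' => absurd h' hn
  have half1' : ∀ᶠ n in (hyperfilter ℕ : Filter ℕ), ∀ s, s ∈ C →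
      1 / 2 < ∑ b ∈ G.act₂ s, y n s b * ext C 1 0 (G.δ s (a0 s) b) := by
    rw [eventually_all]
    intro s
    by_cases hs : s ∈ C
    · exact (half1 s hs).mono fun n hn _ => hn
    · exact Eventually.of_forall fun n h' => absurd h' hs
  have half2' : ∀ᶠ n in (hyperfilter ℕ : Filter ℕ), ∀ s, s ∈ C →
      1 / 2 < ∑ a ∈ G.act₁ s, x n s a * ext C 1 0 (G.δ s a (b0 s)) := by
    rw [eventually_all]
    intro s
    by_cases hs : s ∈ C
    · exact (half2 s hs).mono fun n hn _ => hn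
    · exact Eventually.of_forall fun n h' => absurd h' hs
  by_cases hB1 : ∃ s ∈ C, ∃ b ∈ G.act₂ s, G.δ s (a0 s) b ∉ C ∧
      ∀ᶠ n in (hyperfilter ℕ : Filter ℕ), 0 < y n s b
  · obtain ⟨s', hs', b', hb', hnb', hev⟩ := hB1
    obtain ⟨n, ⟨⟨⟨hn1, hn2⟩, hn3⟩, hn4⟩⟩ := (((hev.and allx).and half1').and supy).exists
    refine (mk X (y n) hXm (hy n)).core₁ nx hnxC hnx (absorb hXm (hy n) hnxC hnx hconn
      ⟨s', hs', a0 s', ha0 s', b', hb', hXa0 s', hn1, hnb'⟩) (hκ n).2.le (f n) H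
      (fun s => (hf n s).1) (fun s hs a ha => ?_) (fun s hs a ha h => ?_) (fun s hs b hb => ?_)
      (fun s hs b hb h => ?_) (fun s hs a ha a₀ ha₀ h => ?_) s₀ hs₀
    · simp only [x1]; exact if' n s a ha
    · simp only [x1]; exact (cf n s a ha (hn2 s a ha h)).ge
    · simp only [x2]; exact l2 s b hb
    · simp only [x2]; exact (l2' s b hb (hn4 s b hb h)).ge
    · change ∑ b ∈ G.act₂ s, y n s b * ext C 1 0 (G.δ s a b) ≤
        ∑ b ∈ G.act₂ s, y n s b * ext C 1 0 (G.δ s a₀ b)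
      have e : ∑ b ∈ G.act₂ s, y n s b * ext C 1 0 (G.δ s a₀ b) =
          ∑ b ∈ G.act₂ s, y n s b * ext C 1 0 (G.δ s (a0 s) b) :=
        Finset.sum_congr rfl fun b hb => by rw [stay1 s hs a₀ ha₀ (hI s hs a₀ ha₀ h) b hb]
      rw [e]
      by_cases hIa : G.δ s a (b0 s) ∈ C
      · exact (Finset.sum_congr rfl fun b hb => by rw [stay1 s hs a ha hIa b hb]).le
      · have h3 := hn3 s hs
        have h4 : ∑ b ∈ G.act₂ s, y n s b * ext C 1 0 (G.δ s a b) +
            ∑ b ∈ G.act₂ s, y n s b * ext C 1 0 (G.δ s (a0 s) b) ≤ 1 := by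
          rw [← Finset.sum_add_distrib, ← (hy n s).2]
          refine Finset.sum_le_sum fun b hb => ?_
          rw [← mul_add]
          have := mul_le_mul_of_nonneg_left (stay1' s hs a ha hIa b hb) ((hy n s).1 b hb)
          rwa [mul_one] at this
        linarith
  by_cases hB2 : ∃ s ∈ C, ∃ a ∈ G.act₁ s, G.δ s a (b0 s) ∉ C ∧
      ∀ᶠ n in (hyperfilter ℕ : Filter ℕ), 0 < x n s a
  · obtain ⟨s', hs', a', ha', hna', hev⟩ := hB2
    obtain ⟨n, ⟨⟨⟨hn1, hn2⟩, hn3⟩, hn4⟩⟩ := (((hev.and ally).and half2').and supx).exists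
    refine (mk (x n) Y (hx n) hYm).core₂ nx hnxC hnx (absorb (hx n) hYm hnxC hnx hconn
      ⟨s', hs', a', ha', b0 s', hb0 s', hn1, hYb0 s', hna'⟩) (hκ n).2.le (g n) F
      (fun s => (hg n s).1) (fun s hs b hb => ?_) (fun s hs b hb h => ?_) (fun s hs a ha => ?_)
      (fun s hs a ha h => ?_) (fun s hs b hb b₀ hb₀ h => ?_) s₀ hs₀
    · simp only [x2]; exact ig n s b hb
    · simp only [x2]; exact (cg n s b hb (hn2 s b hb h)).ge
    · simp only [x1]; exact l1 s a ha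
    · simp only [x1]; exact (l1' s a ha (hn4 s a ha h)).ge
    · change ∑ a ∈ G.act₁ s, x n s a * ext C 1 0 (G.δ s a b) ≤
        ∑ a ∈ G.act₁ s, x n s a * ext C 1 0 (G.δ s a b₀)
      have e : ∑ a ∈ G.act₁ s, x n s a * ext C 1 0 (G.δ s a b₀) =
          ∑ a ∈ G.act₁ s, x n s a * ext C 1 0 (G.δ s a (b0 s)) :=
        Finset.sum_congr rfl fun a ha => by rw [stay2 s hs b₀ hb₀ (hJ s hs b₀ hb₀ h) a ha]
      rw [e]
      by_cases hJb : G.δ s (a0 s) b ∈ C
      · exact (Finset.sum_congr rfl fun a ha => by rw [stay2 s hs b hb hJb a ha]).le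
      · have h3 := hn3 s hs
        have h4 : ∑ a ∈ G.act₁ s, x n s a * ext C 1 0 (G.δ s a b) +
            ∑ a ∈ G.act₁ s, x n s a * ext C 1 0 (G.δ s a (b0 s)) ≤ 1 := by
          rw [← Finset.sum_add_distrib, ← (hx n s).2]
          refine Finset.sum_le_sum fun a ha => ?_
          rw [← mul_add]
          have := mul_le_mul_of_nonneg_left (stay2' s hs b hb hJb a ha) ((hx n s).1 a ha)
          rwa [mul_one] at this
        linarith
  -- nobody ever leaves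
  have noy : ∀ᶠ n in (hyperfilter ℕ : Filter ℕ), ∀ s, ∀ b ∈ G.act₂ s, s ∈ C →
      0 < y n s b → G.δ s (a0 s) b ∈ C := by
    rw [eventually_all]
    intro s
    rw [eventually_all_finset]
    intro b hb
    by_cases h : s ∈ C ∧ G.δ s (a0 s) b ∉ C
    · rcases dec fun n => 0 < y n s b with h' | h'
      · exact absurd ⟨s, h.1, b, hb, h.2, h'⟩ hB1
      · exact h'.mono fun n hn _ h'' => absurd h'' hn
    · exact Eventually.of_forall fun n h1 _ => by_contra fun h2 => h ⟨h1, h2⟩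
  have nox : ∀ᶠ n in (hyperfilter ℕ : Filter ℕ), ∀ s, ∀ a ∈ G.act₁ s, s ∈ C →
      0 < x n s a → G.δ s a (b0 s) ∈ C := by
    rw [eventually_all]
    intro s
    rw [eventually_all_finset]
    intro a ha
    by_cases h : s ∈ C ∧ G.δ s a (b0 s) ∉ C
    · rcases dec fun n => 0 < x n s a with h' | h'
      · exact absurd ⟨s, h.1, a, ha, h.2, h'⟩ hB2
      · exact h'.mono fun n hn _ h'' => absurd h'' hn
    · exact Eventually.of_forall fun n h1 _ => by_contra fun h2 => h ⟨h1, h2⟩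
  obtain ⟨n, hny, hnx'⟩ := (noy.and nox).exists
  have hstay : ∀ s ∈ C, ∀ a ∈ G.act₁ s, ∀ b ∈ G.act₂ s, 0 < x n s a → 0 < y n s b →
      G.δ s a b ∈ C := fun s hs a ha b hb h1 h2 =>
    hIJ s hs a ha b hb (hnx' s a ha hs h1) (hny s b hb hs h2)
  have zf : ∀ s ∈ C, f n s = 0 := by
    obtain ⟨s₁, hs₁, hmax⟩ := Set.exists_max_image C (fun s => f n s) (Set.toFinite C) ⟨s₀, hs₀⟩
    have h1 : f n s₁ ≤ κ n * f n s₁ := by
      rw [ef n s₁]
      nth_rewrite 2 [← ef n s₁]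
      refine mix_le_pos (hx n s₁) fun a ha hxa => mix_le_pos (hy n s₁) fun b hb hyb => ?_
      have hd := hstay s₁ hs₁ a ha b hb hxa hyb
      rw [ext_in hd]
      exact mul_le_mul_of_nonneg_left (hmax _ hd) (hκ n).1
    have h2 : f n s₁ ≤ 0 := by
      have := (hκ n).2
      by_contra h
      push Not at h
      have := mul_lt_mul_of_pos_right this h
      linarith
    exact fun s hs => le_antisymm ((hmax s hs).trans h2) (hf n s).1
  have zg : ∀ s ∈ C, g n s = 0 := by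
    obtain ⟨s₁, hs₁, hmax⟩ := Set.exists_max_image C (fun s => g n s) (Set.toFinite C) ⟨s₀, hs₀⟩
    have h1 : g n s₁ ≤ κ n * g n s₁ := by
      rw [eg n s₁]
      nth_rewrite 2 [← eg n s₁]
      refine mix_le_pos (hy n s₁) fun b hb hyb => mix_le_pos (hx n s₁) fun a ha hxa => ?_
      have hd := hstay s₁ hs₁ a ha b hb hxa hyb
      rw [ext_in hd]
      exact mul_le_mul_of_nonneg_left (hmax _ hd) (hκ n).1
    have h2 : g n s₁ ≤ 0 := by
      have := (hκ n).2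
      by_contra h
      push Not at h
      have := mul_lt_mul_of_pos_right this h
      linarith
    exact fun s hs => le_antisymm ((hmax s hs).trans h2) (hg n s).1
  set D := mk (x n) (y n) (hx n) (hy n) with hD
  have stepF : ∀ T, (∀ s ∈ C, s ∉ T) → ∀ s ∈ C, D.F T (nx s) = D.F T s := by
    intro T hT s hs
    rw [D.F_step hs (hT s hs), dsum]
    have key : ∀ a ∈ G.act₁ s, ∀ b ∈ G.act₂ s, 0 < D.x s a → 0 < D.y s b →
        D.F T (G.δ s a b) = D.F T (nx s) := fun a ha b hb h1 h2 => by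
      rw [hnx s hs a ha b hb (hstay s hs a ha b hb h1 h2)]
    refine le_antisymm ?_ ?_
    · exact mix_ge_pos (D.hx s) fun a ha h1 => mix_ge_pos (D.hy s) fun b hb h2 =>
        (key a ha b hb h1 h2).ge
    · exact mix_le_pos (D.hx s) fun a ha h1 => mix_le_pos (D.hy s) fun b hb h2 =>
        (key a ha b hb h1 h2).le
  refine D.verify (fun s hs a ha => ?_) (fun s hs b hb => ?_) hs₀
  · refine mix_le_pos (D.hy s) fun b hb hyb => ?_
    by_cases hd : G.δ s a b ∈ C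
    · rw [hnx s hs a ha b hb hd, stepF T₁ hC₁ s hs]
    · have h1 := if' n s a ha
      rw [zf s hs] at h1
      have h2 : ∀ b ∈ G.act₂ s, 0 ≤ y n s b * ext C (fun t => κ n * f n t) P (G.δ s a b) := by
        intro b hb
        refine mul_nonneg ((hy n s).1 b hb) ?_
        by_cases h : G.δ s a b ∈ C
        · rw [ext_in h]; exact mul_nonneg (hκ n).1 (hf n _).1
        · rw [ext_out h]; exact hP0 _
      have h3 := (Finset.single_le_sum h2 hb).trans h1
      rw [ext_out hd] at h3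
      have h4 : P (G.δ s a b) ≤ 0 := by
        by_contra h
        push Not at h
        have := mul_pos hyb h
        change 0 < y n s b * P (G.δ s a b) at this
        linarith
      rw [D.F_out hd]
      exact h4.trans (D.F_nonneg _ _)
  · refine mix_le_pos (D.hx s) fun a ha hxa => ?_
    by_cases hd : G.δ s a b ∈ C
    · rw [hnx s hs a ha b hb hd, stepF T₂ hC₂ s hs]
    · have h1 := ig n s b hb
      rw [zg s hs] at h1
      have h2 : ∀ a ∈ G.act₁ s, 0 ≤ x n s a * ext C (fun t => κ n * g n t) Q (G.δ s a b) := by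
        intro a ha
        refine mul_nonneg ((hx n s).1 a ha) ?_
        by_cases h : G.δ s a b ∈ C
        · rw [ext_in h]; exact mul_nonneg (hκ n).1 (hg n _).1
        · rw [ext_out h]; exact hQ0 _
      have h3 := (Finset.single_le_sum h2 ha).trans h1
      rw [ext_out hd] at h3
      have h4 : Q (G.δ s a b) ≤ 0 := by
        by_contra h
        push Not at h
        have := mul_pos hxa h
        change 0 < x n s a * Q (G.δ s a b) at this
        linarith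
      rw [D.F_out hd]
      exact h4.trans (D.F_nonneg _ _)

end Pool.Agent.H40.NE
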