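import Pool.Agent.H40.NE.Turn

/-! Sets of turn-based states all exits of which have an equilibrium. -/

set_option autoImplicit false
set_option linter.unusedSectionVars false

open Finset Relation Filter Topology

namespace Pool.Agent.H40.NE

open Pool.Agent.H95.NE Pool.Agent.H95.NE.Game

variable {S A B : Type*}

/-- At `s` the next state depends only on the action of one of the players. -/
def TurnBased (G : Game S A B) (s : S) : Prop :=
  (∀ a ∈ G.act₁ s, ∀ b ∈ G.act₂ s, ∀ b' ∈ G.act₂ s, G.δ s a b = G.δ s a b') ∨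
    ∀ a ∈ G.act₁ s, ∀ a' ∈ G.act₁ s, ∀ b ∈ G.act₂ s, G.δ s a b = G.δ s a' b

theorem traj [Finite S] (nx : S → S) (u : S → ℝ) (r : S → ℕ) (s : S) (hu : 0 ≤ u s)
    (h1 : ∀ n, u (nx^[n] s) ≤ u (nx^[n + 1] s))
    (h2 : ∀ n, 0 < u (nx^[n] s) → u (nx^[n + 1] s) = u (nx^[n] s) →
      r (nx^[n + 1] s) < r (nx^[n] s)) : u s = 0 := by
  by_contra hne
  have hpos : 0 < u s := lt_of_le_of_ne hu (Ne.symm hne)
  have hmono : Monotone fun n => u (nx^[n] s) := monotone_nat_of_le_succ h1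
  have hpos' : ∀ n, 0 < u (nx^[n] s) := fun n => lt_of_lt_of_le hpos (hmono (Nat.zero_le n))
  obtain ⟨n₀, hn₀⟩ : ∃ n₀, ∀ n, u (nx^[n] s) ≤ u (nx^[n₀] s) := by
    have : Nonempty {t : S // ∃ n, nx^[n] s = t} := ⟨⟨s, 0, rfl⟩⟩
    obtain ⟨⟨t, n₀, ht⟩, h⟩ := Finite.exists_max fun t : {t : S // ∃ n, nx^[n] s = t} => u t.1
    refine ⟨n₀, fun n => ?_⟩
    rw [ht]
    exact h ⟨_, n, rfl⟩
  have heq : ∀ k, u (nx^[n₀ + k] s) = u (nx^[n₀] s) := fun k =>
    le_antisymm (hn₀ _) (hmono (Nat.le_add_right n₀ k))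
  have hr : ∀ k, r (nx^[n₀ + k] s) + k ≤ r (nx^[n₀] s) := by
    intro k
    induction k with
    | zero => simp
    | succ k ih =>
      have := h2 (n₀ + k) (hpos' _) (by
        have e1 := heq k
        have e2 := heq (k + 1)
        rw [show n₀ + k + 1 = n₀ + (k + 1) by ring]
        rw [e1, e2])
      rw [show n₀ + k + 1 = n₀ + (k + 1) by ring] at this
      omega
  have := hr (r (nx^[n₀] s) + 1)
  omega

/-- If all exits of a set of turn-based states have an equilibrium, then there is an equilibrium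
from each of these states. -/
theorem turn [Finite S] {G : Game S A B} {T₁ T₂ C : Set S} (hC₁ : ∀ s ∈ C, s ∉ T₁)
    (hC₂ : ∀ s ∈ C, s ∉ T₂) (hturn : ∀ s ∈ C, TurnBased G s)
    (hout : ∀ s ∈ C, ∀ a ∈ G.act₁ s, ∀ b ∈ G.act₂ s, G.δ s a b ∉ C →
      HasNE G T₁ T₂ (G.δ s a b)) {s₀ : S} (hs₀ : s₀ ∈ C) : HasNE G T₁ T₂ s₀ := by
  classical
  choose σ τ hσ hτ hN using exists_default G T₁ T₂
  let f : S → ℝ := fun k => G.pay T₁ k (σ k) (τ k)
  let g : S → ℝ := fun k => G.pay T₂ k (σ k) (τ k)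
  have hf : ∀ k, 0 ≤ f k := fun k => pay_nonneg (hσ k) (hτ k)
  have hg : ∀ k, 0 ≤ g k := fun k => pay_nonneg (hσ k) (hτ k)
  let ctl : S → Prop := fun s => ∀ a ∈ G.act₁ s, ∀ b ∈ G.act₂ s, ∀ b' ∈ G.act₂ s,
    G.δ s a b = G.δ s a b'
  let N : S → Finset S := fun s => (G.act₁ s ×ˢ G.act₂ s).image fun p => G.δ s p.1 p.2
  have hNn : ∀ s, (N s).Nonempty := fun s => ((G.ne₁ s).product (G.ne₂ s)).image _
  have memN : ∀ s t, t ∈ N s ↔ ∃ a ∈ G.act₁ s, ∃ b ∈ G.act₂ s, G.δ s a b = t := by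
    intro s t
    simp only [N, Finset.mem_image, Finset.mem_product, Prod.exists]
    constructor
    · rintro ⟨a, b, ⟨ha, hb⟩, h⟩; exact ⟨a, ha, b, hb, h⟩
    · rintro ⟨a, ha, b, hb, h⟩; exact ⟨a, b, ⟨ha, hb⟩, h⟩
  obtain ⟨u, r, u0, uout, u1, u2, u3, u4, u5⟩ := exists_val C N hNn ctl f hf
  obtain ⟨w, q, w0, wout, w1, w2, w3, w4, w5⟩ := exists_val C N hNn (fun s => ¬ ctl s) g hg
  -- the path
  have hpos : ∀ s, ∃ a ∈ G.act₁ s, ∃ b ∈ G.act₂ s, s ∈ C →
      (u s ≤ u (G.δ s a b) ∧ (0 < u s → u (G.δ s a b) = u s → r (G.δ s a b) < r s)) ∧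
      (w s ≤ w (G.δ s a b) ∧ (0 < w s → w (G.δ s a b) = w s → q (G.δ s a b) < q s)) := by
    intro s
    by_cases hs : s ∈ C
    · by_cases hc : ctl s
      · obtain ⟨t, ht, h1, h2⟩ := u2 s hs hc
        obtain ⟨a, ha, b, hb, rfl⟩ := (memN _ _).1 ht
        exact ⟨a, ha, b, hb, fun _ => ⟨⟨h1.ge, fun h _ => h2 h⟩,
          w3 s hs (not_not.2 hc) _ ht, fun h => w5 s hs (not_not.2 hc) h _ ht⟩⟩
      · obtain ⟨t, ht, h1, h2⟩ := w2 s hs hc
        obtain ⟨a, ha, b, hb, rfl⟩ := (memN _ _).1 ht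
        exact ⟨a, ha, b, hb, fun _ => ⟨⟨u3 s hs hc _ ht, fun h => u5 s hs hc h _ ht⟩,
          h1.ge, fun h _ => h2 h⟩⟩
    · obtain ⟨a, ha⟩ := G.ne₁ s
      obtain ⟨b, hb⟩ := G.ne₂ s
      exact ⟨a, ha, b, hb, fun h => absurd h hs⟩
  choose α hα β hβ hαβ using hpos
  have hcap₁ : ∀ s, ∃ a ∈ G.act₁ s, s ∈ C → ctl s → ∀ b ∈ G.act₂ s, w (G.δ s a b) ≤ w s := by
    intro s
    by_cases hs : s ∈ C ∧ ctl s
    · obtain ⟨t, ht, h1⟩ := w4 s hs.1 (not_not.2 hs.2)
      obtain ⟨a, ha, b, hb, rfl⟩ := (memN _ _).1 ht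
      refine ⟨a, ha, fun _ hc b' hb' => ?_⟩
      rw [← hc a ha b hb b' hb', h1]
    · obtain ⟨a, ha⟩ := G.ne₁ s
      exact ⟨a, ha, fun h h' => absurd ⟨h, h'⟩ hs⟩
  choose a₁ ha₁ hcap₁ using hcap₁
  have hcap₂ : ∀ s, ∃ b ∈ G.act₂ s, s ∈ C → ¬ ctl s → ∀ a ∈ G.act₁ s, u (G.δ s a b) ≤ u s := by
    intro s
    by_cases hs : s ∈ C ∧ ¬ ctl s
    · obtain ⟨t, ht, h1⟩ := u4 s hs.1 hs.2
      obtain ⟨a, ha, b, hb, rfl⟩ := (memN _ _).1 ht
      refine ⟨b, hb, fun h hc a' ha' => ?_⟩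
      rw [((hturn s h).resolve_left hc) a' ha' a ha b hb, h1]
    · obtain ⟨b, hb⟩ := G.ne₂ s
      exact ⟨b, hb, fun h h' => absurd ⟨h, h'⟩ hs⟩
  choose b₂ hb₂ hcap₂ using hcap₂
  let nx : S → S := fun s => if s ∈ C then G.δ s (α s) (β s) else s
  have nx_in : ∀ s ∈ C, nx s = G.δ s (α s) (β s) := fun s hs => if_pos hs
  have nx_out : ∀ s ∉ C, nx s = s := fun s hs => if_neg hs
  have stab : ∀ s m k, nx^[m] s ∉ C → nx^[m + k] s = nx^[m] s := by
    intro s m k hm
    induction k with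
    | zero => rfl
    | succ k ih =>
      rw [← add_assoc, Function.iterate_succ_apply', ih, nx_out _ hm]
  have uniq : ∀ s m n, nx^[m] s ∉ C → nx^[n] s ∉ C → nx^[m] s = nx^[n] s := by
    intro s m n hm hn
    rcases le_total m n with h | h
    · obtain ⟨k, rfl⟩ := Nat.exists_eq_add_of_le h
      exact (stab s m k hm).symm
    · obtain ⟨k, rfl⟩ := Nat.exists_eq_add_of_le h
      exact stab s n k hn
  let Φ : (S → ℝ) → S → ℝ := fun φ s => if h : ∃ n, nx^[n] s ∉ C then φ (nx^[h.choose] s) else 0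
  have Φeq : ∀ φ s n, nx^[n] s ∉ C → Φ φ s = φ (nx^[n] s) := by
    intro φ s n hn
    have h : ∃ n, nx^[n] s ∉ C := ⟨n, hn⟩
    simp only [Φ, dif_pos h]
    rw [uniq s _ n h.choose_spec hn]
  have Φ0 : ∀ φ s, (∀ n, nx^[n] s ∈ C) → Φ φ s = 0 := by
    intro φ s h
    have : ¬ ∃ n, nx^[n] s ∉ C := by push Not; exact h
    simp only [Φ, dif_neg this]
  have Φout : ∀ φ, ∀ s ∉ C, Φ φ s = φ s := fun φ s hs => Φeq φ s 0 hs
  have Φstep : ∀ φ, ∀ s ∈ C, Φ φ (G.δ s (α s) (β s)) = Φ φ s := by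
    intro φ s hs
    rw [← nx_in s hs]
    by_cases h : ∃ n, nx^[n] s ∉ C
    · obtain ⟨n, hn⟩ := h
      cases n with
      | zero => exact absurd hs hn
      | succ m =>
        rw [Φeq φ s (m + 1) hn, Φeq φ (nx s) m hn]
        rfl
    · push Not at h
      rw [Φ0 φ s h, Φ0 φ (nx s) fun n => h (n + 1)]
  have mono1 : ∀ s n, u (nx^[n] s) ≤ u (nx^[n + 1] s) := by
    intro s n
    rw [Function.iterate_succ_apply']
    by_cases h : nx^[n] s ∈ C
    · rw [nx_in _ h]; exact (hαβ _ h).1.1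
    · rw [nx_out _ h]
  have mono2 : ∀ s n, w (nx^[n] s) ≤ w (nx^[n + 1] s) := by
    intro s n
    rw [Function.iterate_succ_apply']
    by_cases h : nx^[n] s ∈ C
    · rw [nx_in _ h]; exact (hαβ _ h).2.1
    · rw [nx_out _ h]
  let D : TB G T₁ T₂ C :=
    { σ := σ, τ := τ, hσ := hσ, hτ := hτ, α := α, a₁ := a₁, β := β, b₂ := b₂, hα := hα,
      ha₁ := ha₁, hβ := hβ, hb₂ := hb₂, ctl := ctl
      hctl := fun s _ h => h
      hctl' := fun s hs h => (hturn s hs).resolve_left h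
      hC₁ := hC₁
      hC₂ := hC₂
      hout := fun s hs a ha b hb h => hN _ (hout s hs a ha b hb h)
      u := u, w := w, F := Φ f, H := Φ g
      u0 := u0, w0 := w0, u_out := uout, w_out := wout
      F_out := fun k hk => Φout f k hk
      H_out := fun k hk => Φout g k hk
      u1 := fun s hs hc a ha b hb => u1 s hs hc _ ((memN _ _).2 ⟨a, ha, b, hb, rfl⟩)
      u2 := fun s hs hc a ha => hcap₂ s hs hc a ha
      w1 := fun s hs hc a ha b hb => w1 s hs hc _ ((memN _ _).2 ⟨a, ha, b, hb, rfl⟩)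
      w2 := fun s hs hc b hb => hcap₁ s hs hc b hb
      uF := fun s hs => by
        by_cases h : ∃ n, nx^[n] s ∉ C
        · obtain ⟨n, hn⟩ := h
          rw [Φeq f s n hn, ← uout _ hn]
          exact (monotone_nat_of_le_succ (f := fun n => u (nx^[n] s)) (mono1 s)) (Nat.zero_le n)
        · push Not at h
          rw [Φ0 f s h]
          refine (traj nx u r s (u0 s) (mono1 s) fun n h1 h2 => ?_).le
          rw [Function.iterate_succ_apply', nx_in _ (h n)] at h2 ⊢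
          exact (hαβ _ (h n)).1.2 h1 h2
      wH := fun s hs => by
        by_cases h : ∃ n, nx^[n] s ∉ C
        · obtain ⟨n, hn⟩ := h
          rw [Φeq g s n hn, ← wout _ hn]
          exact (monotone_nat_of_le_succ (f := fun n => w (nx^[n] s)) (mono2 s)) (Nat.zero_le n)
        · push Not at h
          rw [Φ0 g s h]
          refine (traj nx w q s (w0 s) (mono2 s) fun n h1 h2 => ?_).le
          rw [Function.iterate_succ_apply', nx_in _ (h n)] at h2 ⊢
          exact (hαβ _ (h n)).2.2 h1 h2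
      F_step := Φstep f
      H_step := Φstep g
      path := fun s hs => by
        by_cases h : ∃ n, nx^[n] s ∉ C
        · right
          have hfind := Nat.find_spec h
          have hmin := fun m => Nat.find_min h (m := m)
          set M := Nat.find h with hM
          cases hMM : M with
          | zero => rw [hMM] at hfind; exact absurd hs hfind
          | succ n =>
            rw [hMM] at hfind hmin
            refine ⟨nx^[n + 1] s, hfind, ⟨n, fun i => nx^[i] s, rfl, rfl, fun i hi => ?_⟩,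
              Φeq f s _ hfind, Φeq g s _ hfind⟩
            have hin : nx^[i] s ∈ C := not_not.1 (hmin i (by omega))
            refine ⟨hin, ?_⟩
            change nx^[i + 1] s = _
            rw [Function.iterate_succ_apply', nx_in _ hin]
        · push Not at h
          exact Or.inl ⟨Φ0 f s h, Φ0 g s h⟩ }
  exact D.hasNE hs₀

/-- A move between two states without equilibrium. -/
def BStep (G : Game S A B) (T₁ T₂ : Set S) (s t : S) : Prop :=
  ¬ HasNE G T₁ T₂ s ∧ ¬ HasNE G T₁ T₂ t ∧ G.Step s t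

theorem hasNE_of_mem₁ [Finite S] {G : Game S A B} {T₁ T₂ : Set S} {s : S} (hs : s ∈ T₁) :
    HasNE G T₁ T₂ s :=
  main G T₁ T₂ s (Or.inl (Or.inl (by rw [val₁_eq]; exact L_mem hs)))

theorem hasNE_of_mem₂ [Finite S] {G : Game S A B} {T₁ T₂ : Set S} {s : S} (hs : s ∈ T₂) :
    HasNE G T₁ T₂ s :=
  main G T₁ T₂ s (Or.inl (Or.inr (by rw [val₂_eq, val₁_eq]; exact L_mem hs)))

theorem exists_bottom [Finite S] (R : S → S → Prop) (s₀ : S) : ∃ m, ReflTransGen R s₀ m ∧
    ∀ t, ReflTransGen R m t → ReflTransGen R t m := by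
  classical
  let W : Set S := {m | ReflTransGen R s₀ m}
  obtain ⟨m, hm, hmin⟩ := Set.exists_min_image W (fun m => {t | ReflTransGen R m t}.ncard)
    (Set.toFinite W) ⟨s₀, ReflTransGen.refl⟩
  refine ⟨m, hm, fun t ht => ?_⟩
  have hsub : {x | ReflTransGen R t x} ⊆ {x | ReflTransGen R m x} := fun x hx => ht.trans hx
  have hle := hmin t (ReflTransGen.trans hm ht)
  have heq := Set.eq_of_subset_of_ncard_le hsub hle (Set.toFinite _)
  have : m ∈ {x | ReflTransGen R t x} := by rw [heq]; exact ReflTransGen.refl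
  exact this

/-- If there is no equilibrium from `s₀`, then some cycle of states without equilibrium, which can
be reached from `s₀` through states without equilibrium, contains a state that is not
turn-based. -/
theorem exists_cycle [Finite S] {G : Game S A B} {T₁ T₂ : Set S} {s₀ : S}
    (h : ¬ HasNE G T₁ T₂ s₀) : ∃ c, ReflTransGen (BStep G T₁ T₂) s₀ c ∧
      TransGen (BStep G T₁ T₂) c c ∧ ¬ TurnBased G c := by
  by_contra hno
  push Not at hno
  obtain ⟨m, hm, hbot⟩ := exists_bottom (BStep G T₁ T₂) s₀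
  have hbad : ∀ t, ReflTransGen (BStep G T₁ T₂) s₀ t → ¬ HasNE G T₁ T₂ t := by
    intro t ht
    induction ht with
    | refl => exact h
    | tail _ hst _ => exact hst.2.1
  have hmem : ∀ t, ReflTransGen (BStep G T₁ T₂) m t → ¬ HasNE G T₁ T₂ t :=
    fun t ht => hbad t (hm.trans ht)
  have hn1 : ∀ t, ReflTransGen (BStep G T₁ T₂) m t → t ∉ T₁ :=
    fun t ht h1 => hmem t ht (hasNE_of_mem₁ h1)
  have hn2 : ∀ t, ReflTransGen (BStep G T₁ T₂) m t → t ∉ T₂ :=
    fun t ht h2 => hmem t ht (hasNE_of_mem₂ h2)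
  refine hmem m ReflTransGen.refl (turn (C := {t | ReflTransGen (BStep G T₁ T₂) m t}) hn1 hn2
    (fun t ht => ?_) (fun t ht a ha b hb hnot => ?_) ReflTransGen.refl)
  · have hex : ∃ a ∈ G.act₁ t, ∃ b ∈ G.act₂ t, ¬ HasNE G T₁ T₂ (G.δ t a b) := by
      by_contra hall
      push Not at hall
      exact hmem t ht (glue (hn1 t ht) (hn2 t ht) hall)
    obtain ⟨a, ha, b, hb, hne⟩ := hex
    have hstep : BStep G T₁ T₂ t (G.δ t a b) := ⟨hmem t ht, hne, a, ha, b, hb, rfl⟩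
    have hback := hbot _ (ht.tail hstep)
    exact hno t (hm.trans ht) (TransGen.head' hstep (hback.trans ht))
  · by_contra hne
    exact hnot (ht.tail ⟨hmem t ht, hne, a, ha, b, hb, rfl⟩)

end Pool.Agent.H40.NE
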