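import Pool.Agent.H40.NE.TwoPhase
import Pool.Agent.H40.NE.Turn2
import Pool.Agent.H40.NE.Cyc
import Pool.Agent.H40.NE.ObstDefs

/-! Controlled sets of states all exits of which have an equilibrium. -/

set_option autoImplicit false
set_option linter.unusedSectionVars false

open Finset Relation Filter Topology

namespace Pool.Agent.H40.NE

open Pool.Agent.H95.NE Pool.Agent.H95.NE.Game

variable {S A B : Type*}

theorem exists_path_val {Z : Type*} [Finite Z] (C : Set Z) (nx : Z → Z)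
    (nx_out : ∀ z ∉ C, nx z = z) (u w f g : Z → ℝ) (r q : Z → ℕ) (u0 : ∀ z, 0 ≤ u z)
    (w0 : ∀ z, 0 ≤ w z) (uout : ∀ z ∉ C, u z = f z) (wout : ∀ z ∉ C, w z = g z)
    (h1 : ∀ z ∈ C, u z ≤ u (nx z) ∧ (0 < u z → u (nx z) = u z → r (nx z) < r z))
    (h2 : ∀ z ∈ C, w z ≤ w (nx z) ∧ (0 < w z → w (nx z) = w z → q (nx z) < q z)) :
    ∃ F H : Z → ℝ, (∀ z ∉ C, F z = f z) ∧ (∀ z ∉ C, H z = g z) ∧
      (∀ z ∈ C, F (nx z) = F z) ∧ (∀ z ∈ C, H (nx z) = H z) ∧ (∀ z ∈ C, u z ≤ F z) ∧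
      (∀ z ∈ C, w z ≤ H z) ∧ ∀ z ∈ C, (F z = 0 ∧ H z = 0) ∨ ∃ n, nx^[n] z ∉ C := by
  classical
  have stab : ∀ s m k, nx^[m] s ∉ C → nx^[m + k] s = nx^[m] s := by
    intro s m k hm
    induction k with
    | zero => rfl
    | succ k ih =>
      rw [← add_assoc, Function.iterate_succ_apply', ih, nx_out _ hm]
  have uniq : ∀ s m n, nx^[m] s ∉ C → nx^[n] s ∉ C → nx^[m] s = nx^[n] s := by
    intro s m n hm hn
    rcases le_total m n with h | h
    · obtain ⟨k, rfl⟩ := Nat.exists_eq_add_of_le h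
      exact (stab s m k hm).symm
    · obtain ⟨k, rfl⟩ := Nat.exists_eq_add_of_le h
      exact stab s n k hn
  let Φ : (Z → ℝ) → Z → ℝ := fun φ s => if h : ∃ n, nx^[n] s ∉ C then φ (nx^[h.choose] s) else 0
  have Φeq : ∀ φ s n, nx^[n] s ∉ C → Φ φ s = φ (nx^[n] s) := by
    intro φ s n hn
    have h : ∃ n, nx^[n] s ∉ C := ⟨n, hn⟩
    simp only [Φ, dif_pos h]
    rw [uniq s _ n h.choose_spec hn]
  have Φ0 : ∀ φ s, (∀ n, nx^[n] s ∈ C) → Φ φ s = 0 := by
    intro φ s h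
    have : ¬ ∃ n, nx^[n] s ∉ C := by push Not; exact h
    simp only [Φ, dif_neg this]
  have Φout : ∀ φ, ∀ s ∉ C, Φ φ s = φ s := fun φ s hs => Φeq φ s 0 hs
  have Φstep : ∀ φ, ∀ s ∈ C, Φ φ (nx s) = Φ φ s := by
    intro φ s hs
    by_cases h : ∃ n, nx^[n] s ∉ C
    · obtain ⟨n, hn⟩ := h
      cases n with
      | zero => exact absurd hs hn
      | succ m =>
        rw [Φeq φ s (m + 1) hn, Φeq φ (nx s) m hn]
        rfl
    · push Not at h
      rw [Φ0 φ s h, Φ0 φ (nx s) fun n => h (n + 1)]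
  have mono1 : ∀ s n, u (nx^[n] s) ≤ u (nx^[n + 1] s) := by
    intro s n
    rw [Function.iterate_succ_apply']
    by_cases h : nx^[n] s ∈ C
    · exact (h1 _ h).1
    · rw [nx_out _ h]
  have mono2 : ∀ s n, w (nx^[n] s) ≤ w (nx^[n + 1] s) := by
    intro s n
    rw [Function.iterate_succ_apply']
    by_cases h : nx^[n] s ∈ C
    · exact (h2 _ h).1
    · rw [nx_out _ h]
  refine ⟨Φ f, Φ g, Φout f, Φout g, Φstep f, Φstep g, fun s hs => ?_, fun s hs => ?_,
    fun s hs => ?_⟩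
  · by_cases h : ∃ n, nx^[n] s ∉ C
    · obtain ⟨n, hn⟩ := h
      rw [Φeq f s n hn, ← uout _ hn]
      exact (monotone_nat_of_le_succ (f := fun n => u (nx^[n] s)) (mono1 s)) (Nat.zero_le n)
    · push Not at h
      rw [Φ0 f s h]
      refine (traj nx u r s (u0 s) (mono1 s) fun n h3 h4 => ?_).le
      rw [Function.iterate_succ_apply'] at h4 ⊢
      exact (h1 _ (h n)).2 h3 h4
  · by_cases h : ∃ n, nx^[n] s ∉ C
    · obtain ⟨n, hn⟩ := h
      rw [Φeq g s n hn, ← wout _ hn]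
      exact (monotone_nat_of_le_succ (f := fun n => w (nx^[n] s)) (mono2 s)) (Nat.zero_le n)
    · push Not at h
      rw [Φ0 g s h]
      refine (traj nx w q s (w0 s) (mono2 s) fun n h3 h4 => ?_).le
      rw [Function.iterate_succ_apply'] at h4 ⊢
      exact (h2 _ (h n)).2 h3 h4
  · by_cases h : ∃ n, nx^[n] s ∉ C
    · exact Or.inr h
    · push Not at h
      exact Or.inl ⟨Φ0 f s h, Φ0 g s h⟩

/-- Equilibrium of a bimatrix game in which player 1 must use the rows of `F'`. -/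
theorem exitPair {F F' : Finset A} {E : Finset B} (hF : F' ⊆ F) (hF' : F'.Nonempty)
    (hE : E.Nonempty) (M N : A → B → ℝ) : ∃ (x : A → ℝ) (y : B → ℝ), Mix F x ∧ Mix E y ∧
      (∀ a ∈ F, 0 < x a → a ∈ F') ∧
      (∀ a ∈ F', ∑ b ∈ E, y b * M a b ≤ ∑ a ∈ F, x a * ∑ b ∈ E, y b * M a b) ∧
      ∀ b ∈ E, ∑ a ∈ F, x a * N a b ≤ ∑ a ∈ F, x a * ∑ b ∈ E, y b * N a b := by
  classical
  obtain ⟨x, y, hx, hy, h1, h2⟩ := bimatrix hF' hE M N
  let X : A → ℝ := fun a => if a ∈ F' then x a else 0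
  have hX : ∀ g : A → ℝ, ∑ a ∈ F, X a * g a = ∑ a ∈ F', x a * g a := by
    intro g
    rw [← Finset.sum_subset hF fun a _ ha => by simp only [X, if_neg ha, zero_mul]]
    exact Finset.sum_congr rfl fun a ha => by simp only [X, if_pos ha]
  refine ⟨X, y, ⟨fun a _ => ?_, ?_⟩, hy, fun a _ h => ?_, fun a ha => ?_, fun b hb => ?_⟩
  · by_cases ha : a ∈ F'
    · simp only [X, if_pos ha]; exact hx.1 a ha
    · simp only [X, if_neg ha]; exact le_rfl
  · have := hX fun _ => 1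
    simp only [mul_one] at this
    rw [this]; exact hx.2
  · by_contra ha
    simp only [X, if_neg ha] at h
    exact lt_irrefl _ h
  · rw [hX, ← dsum]; exact h1 a ha
  · rw [hX, hX, ← dsum]; exact h2 b hb

theorem controlled [Finite S] {G : Game S A B} {T₁ T₂ C : Set S} (hC₁ : ∀ s ∈ C, s ∉ T₁)
    (hC₂ : ∀ s ∈ C, s ∉ T₂) (hctl : Controlled G C)
    (hout : ∀ s ∈ C, ∀ a ∈ G.act₁ s, ∀ b ∈ G.act₂ s, G.δ s a b ∉ C →
      HasNE G T₁ T₂ (G.δ s a b)) {s₀ : S} (hs₀ : s₀ ∈ C) : HasNE G T₁ T₂ s₀ := by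
  classical
  choose σ τ hσ hτ hN using exists_default G T₁ T₂
  let P : S → ℝ := fun k => G.pay T₁ k (σ k) (τ k)
  let Q : S → ℝ := fun k => G.pay T₂ k (σ k) (τ k)
  have hP0 : ∀ k, 0 ≤ P k := fun k => pay_nonneg (hσ k) (hτ k)
  have hQ0 : ∀ k, 0 ≤ Q k := fun k => pay_nonneg (hσ k) (hτ k)
  let ctl : S → Prop := fun s => ∀ a ∈ G.act₁ s, ∀ b ∈ G.act₂ s, ∀ b' ∈ G.act₂ s,
    G.δ s a b ∈ C → G.δ s a b' = G.δ s a b
  have hctl' : ∀ s ∈ C, ¬ ctl s → ∀ a ∈ G.act₁ s, ∀ a' ∈ G.act₁ s, ∀ b ∈ G.act₂ s,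
    G.δ s a b ∈ C → G.δ s a' b = G.δ s a b := fun s hs h => (hctl s hs).resolve_left h
  let E₁ : S → Finset A := fun s => (G.act₁ s).filter fun a => ∀ b ∈ G.act₂ s, G.δ s a b ∉ C
  let E₂ : S → Finset B := fun s => (G.act₂ s).filter fun b => ∀ a ∈ G.act₁ s, G.δ s a b ∉ C
  have mE₁ : ∀ s a, a ∈ E₁ s ↔ a ∈ G.act₁ s ∧ ∀ b ∈ G.act₂ s, G.δ s a b ∉ C := fun s a => by
    simp only [E₁, Finset.mem_filter]
  have mE₂ : ∀ s b, b ∈ E₂ s ↔ b ∈ G.act₂ s ∧ ∀ a ∈ G.act₁ s, G.δ s a b ∉ C := fun s b => by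
    simp only [E₂, Finset.mem_filter]
  let hasE : S → Prop := fun s => if ctl s then (E₁ s).Nonempty else (E₂ s).Nonempty
  -- the equilibria of the exit games
  have hex : ∀ s, ∃ (x : A → ℝ) (y : B → ℝ) (e1 e2 : ℝ), Mix (G.act₁ s) x ∧ Mix (G.act₂ s) y ∧
      0 ≤ e1 ∧ 0 ≤ e2 ∧ (hasE s → ∑ a ∈ G.act₁ s, x a * ∑ b ∈ G.act₂ s, y b * P (G.δ s a b) = e1 ∧
        ∑ a ∈ G.act₁ s, x a * ∑ b ∈ G.act₂ s, y b * Q (G.δ s a b) = e2 ∧
        (∀ a ∈ G.act₁ s, (ctl s → a ∈ E₁ s) → ∑ b ∈ G.act₂ s, y b * P (G.δ s a b) ≤ e1) ∧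
        (∀ b ∈ G.act₂ s, (¬ ctl s → b ∈ E₂ s) → ∑ a ∈ G.act₁ s, x a * Q (G.δ s a b) ≤ e2) ∧
        (ctl s → ∀ a ∈ G.act₁ s, 0 < x a → a ∈ E₁ s) ∧
        (¬ ctl s → ∀ b ∈ G.act₂ s, 0 < y b → b ∈ E₂ s)) := by
    intro s
    by_cases hc : ctl s
    · by_cases hE : (E₁ s).Nonempty
      · obtain ⟨x, y, hx, hy, h1, h2, h3⟩ := exitPair (F := G.act₁ s) (F' := E₁ s)
          (Finset.filter_subset _ _) hE (G.ne₂ s) (fun a b => P (G.δ s a b))
          (fun a b => Q (G.δ s a b))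
        refine ⟨x, y, _, _, hx, hy, ?_, ?_, fun _ => ⟨rfl, rfl, fun a _ h => h2 a (h hc),
          fun b hb _ => h3 b hb, fun _ => h1, fun h => absurd hc h⟩⟩
        · exact Finset.sum_nonneg fun a ha => mul_nonneg (hx.1 a ha)
            (Finset.sum_nonneg fun b hb => mul_nonneg (hy.1 b hb) (hP0 _))
        · exact Finset.sum_nonneg fun a ha => mul_nonneg (hx.1 a ha)
            (Finset.sum_nonneg fun b hb => mul_nonneg (hy.1 b hb) (hQ0 _))
      · refine ⟨_, _, 0, 0, mix_unif (G.ne₁ s), mix_unif (G.ne₂ s), le_rfl, le_rfl, fun h => ?_⟩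
        simp only [hasE, if_pos hc] at h
        exact absurd h hE
    · by_cases hE : (E₂ s).Nonempty
      · obtain ⟨y, x, hy, hx, h1, h2, h3⟩ := exitPair (F := G.act₂ s) (F' := E₂ s)
          (Finset.filter_subset _ _) hE (G.ne₁ s) (fun b a => Q (G.δ s a b))
          (fun b a => P (G.δ s a b))
        have sw : ∀ R : S → ℝ, ∑ b ∈ G.act₂ s, y b * ∑ a ∈ G.act₁ s, x a * R (G.δ s a b) =
            ∑ a ∈ G.act₁ s, x a * ∑ b ∈ G.act₂ s, y b * R (G.δ s a b) := by
          intro R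
          simp only [Finset.mul_sum]
          rw [Finset.sum_comm]
          refine Finset.sum_congr rfl fun a _ => Finset.sum_congr rfl fun b _ => by ring
        simp only [sw] at h2 h3
        refine ⟨x, y, _, _, hx, hy, ?_, ?_, fun _ => ⟨rfl, rfl, fun a ha _ => h3 a ha,
          fun b _ h => h2 b (h hc), fun h => absurd h hc, fun _ => h1⟩⟩
        · exact Finset.sum_nonneg fun a ha => mul_nonneg (hx.1 a ha)
            (Finset.sum_nonneg fun b hb => mul_nonneg (hy.1 b hb) (hP0 _))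
        · exact Finset.sum_nonneg fun a ha => mul_nonneg (hx.1 a ha)
            (Finset.sum_nonneg fun b hb => mul_nonneg (hy.1 b hb) (hQ0 _))
      · refine ⟨_, _, 0, 0, mix_unif (G.ne₁ s), mix_unif (G.ne₂ s), le_rfl, le_rfl, fun h => ?_⟩
        simp only [hasE, if_neg hc] at h
        exact absurd h hE
  choose xs ys e1 e2 hxs hys e10 e20 hexs using hex
  -- the extended turn-based game
  let N0 : S ⊕ S → Finset (S ⊕ S) := Sum.elim
    (fun s => (((G.act₁ s ×ˢ G.act₂ s).filter fun p => G.δ s p.1 p.2 ∈ C).image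
      fun p => Sum.inl (G.δ s p.1 p.2)) ∪ if hasE s then {Sum.inr s} else ∅) (fun _ => ∅)
  let N : S ⊕ S → Finset (S ⊕ S) := fun z => if (N0 z).Nonempty then N0 z else {z}
  have hNn : ∀ z, (N z).Nonempty := by
    intro z
    by_cases h : (N0 z).Nonempty
    · simp only [N, if_pos h]; exact h
    · simp only [N, if_neg h]; exact Finset.singleton_nonempty z
  have mem0 : ∀ s z, z ∈ N0 (Sum.inl s) ↔ (∃ a ∈ G.act₁ s, ∃ b ∈ G.act₂ s, G.δ s a b ∈ C ∧
      z = Sum.inl (G.δ s a b)) ∨ (hasE s ∧ z = Sum.inr s) := by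
    intro s z
    simp only [N0, Sum.elim_inl, Finset.mem_union, Finset.mem_image, Finset.mem_filter,
      Finset.mem_product, Prod.exists]
    constructor
    · rintro (⟨a, b, ⟨⟨ha, hb⟩, hC⟩, h⟩ | h)
      · exact Or.inl ⟨a, ha, b, hb, hC, h.symm⟩
      · by_cases hE : hasE s
        · rw [if_pos hE, Finset.mem_singleton] at h; exact Or.inr ⟨hE, h⟩
        · rw [if_neg hE] at h; exact absurd h (Finset.notMem_empty _)
    · rintro (⟨a, ha, b, hb, hC, h⟩ | ⟨hE, h⟩)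
      · exact Or.inl ⟨a, b, ⟨⟨ha, hb⟩, hC⟩, h.symm⟩
      · right; rw [if_pos hE, Finset.mem_singleton]; exact h
  have ne0 : ∀ s, (N0 (Sum.inl s)).Nonempty := by
    intro s
    by_cases h : ∃ a ∈ G.act₁ s, ∃ b ∈ G.act₂ s, G.δ s a b ∈ C
    · obtain ⟨a, ha, b, hb, hC⟩ := h
      exact ⟨_, (mem0 s _).2 (Or.inl ⟨a, ha, b, hb, hC, rfl⟩)⟩
    · push Not at h
      refine ⟨Sum.inr s, (mem0 s _).2 (Or.inr ⟨?_, rfl⟩)⟩
      by_cases hc : ctl s
      · simp only [hasE, if_pos hc]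
        obtain ⟨a, ha⟩ := G.ne₁ s
        exact ⟨a, (mE₁ s a).2 ⟨ha, fun b hb => h a ha b hb⟩⟩
      · simp only [hasE, if_neg hc]
        obtain ⟨b, hb⟩ := G.ne₂ s
        exact ⟨b, (mE₂ s b).2 ⟨hb, fun a ha => h a ha b hb⟩⟩
  have memN : ∀ s z, z ∈ N (Sum.inl s) ↔ (∃ a ∈ G.act₁ s, ∃ b ∈ G.act₂ s, G.δ s a b ∈ C ∧
      z = Sum.inl (G.δ s a b)) ∨ (hasE s ∧ z = Sum.inr s) := by
    intro s z
    simp only [N, if_pos (ne0 s)]
    exact mem0 s z
  let C' : Set (S ⊕ S) := {z | ∃ s ∈ C, z = Sum.inl s}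
  have inC' : ∀ s ∈ C, (Sum.inl s : S ⊕ S) ∈ C' := fun s hs => ⟨s, hs, rfl⟩
  have inr_C' : ∀ s, (Sum.inr s : S ⊕ S) ∉ C' := by
    rintro s ⟨t, _, h⟩
    exact Sum.inr_ne_inl h
  let own : S ⊕ S → Prop := Sum.elim ctl fun _ => True
  let f' : S ⊕ S → ℝ := Sum.elim (fun _ => 0) e1
  let g' : S ⊕ S → ℝ := Sum.elim (fun _ => 0) e2
  have f'0 : ∀ z, 0 ≤ f' z := by rintro (s | s); exacts [le_rfl, e10 s]
  have g'0 : ∀ z, 0 ≤ g' z := by rintro (s | s); exacts [le_rfl, e20 s]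
  obtain ⟨u, r, u0, uout, u1, u2, u3, u4, u5⟩ := exists_val C' N hNn own f' f'0
  obtain ⟨w, q, w0, wout, w1, w2, w3, w4, w5⟩ := exists_val C' N hNn (fun z => ¬ own z) g' g'0
  -- targets
  have hpos : ∀ s, ∃ z ∈ N (Sum.inl s), s ∈ C →
      (u (Sum.inl s) ≤ u z ∧ (0 < u (Sum.inl s) → u z = u (Sum.inl s) → r z < r (Sum.inl s))) ∧
      (w (Sum.inl s) ≤ w z ∧ (0 < w (Sum.inl s) → w z = w (Sum.inl s) → q z < q (Sum.inl s))) := by
    intro s
    by_cases hs : s ∈ C
    · by_cases hc : ctl s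
      · obtain ⟨t, ht, h1, h2⟩ := u2 _ (inC' s hs) hc
        exact ⟨t, ht, fun _ => ⟨⟨h1.ge, fun h _ => h2 h⟩,
          w3 _ (inC' s hs) (not_not.2 hc) _ ht, fun h => w5 _ (inC' s hs) (not_not.2 hc) h _ ht⟩⟩
      · obtain ⟨t, ht, h1, h2⟩ := w2 _ (inC' s hs) hc
        exact ⟨t, ht, fun _ => ⟨⟨u3 _ (inC' s hs) hc _ ht, fun h => u5 _ (inC' s hs) hc h _ ht⟩,
          h1.ge, fun h _ => h2 h⟩⟩
    · obtain ⟨z, hz⟩ := hNn (Sum.inl s)
      exact ⟨z, hz, fun h => absurd h hs⟩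
  choose tt htt http using hpos
  have hcap : ∀ s, ∃ z ∈ N (Sum.inl s), s ∈ C → (ctl s → w z = w (Sum.inl s)) ∧
      (¬ ctl s → u z = u (Sum.inl s)) := by
    intro s
    by_cases hs : s ∈ C
    · by_cases hc : ctl s
      · obtain ⟨t, ht, h1⟩ := w4 _ (inC' s hs) (not_not.2 hc)
        exact ⟨t, ht, fun _ => ⟨fun _ => h1, fun h => absurd hc h⟩⟩
      · obtain ⟨t, ht, h1⟩ := u4 _ (inC' s hs) hc
        exact ⟨t, ht, fun _ => ⟨fun h => absurd h hc, fun _ => h1⟩⟩
    · obtain ⟨z, hz⟩ := hNn (Sum.inl s)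
      exact ⟨z, hz, fun h => absurd h hs⟩
  choose tf htf htfp using hcap
  let tg : Bool → S → S ⊕ S := fun b s => if b = true then tt s else tf s
  have tg_true : ∀ s, tg true s = tt s := fun s => by simp only [tg, if_true]
  have tg_false : ∀ s, tg false s = tf s := fun s => by simp [tg]
  have htg : ∀ b s, tg b s ∈ N (Sum.inl s) := by
    intro b s
    cases b
    · rw [tg_false]; exact htf s
    · rw [tg_true]; exact htt s
  -- path values
  let nx : S ⊕ S → S ⊕ S := fun z => if z ∈ C' then Sum.elim tt (fun s => Sum.inr s) z else z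
  have nx_in : ∀ s ∈ C, nx (Sum.inl s) = tt s := fun s hs => by
    simp only [nx, if_pos (inC' s hs), Sum.elim_inl]
  have nx_out : ∀ z ∉ C', nx z = z := fun z hz => if_neg hz
  obtain ⟨F, H, Fout, Hout, Fst, Hst, uF, wH, hpath⟩ := exists_path_val C' nx nx_out u w f' g' r q
    u0 w0 uout wout (by
      rintro z ⟨s, hs, rfl⟩
      rw [nx_in s hs]; exact (http s hs).1) (by
      rintro z ⟨s, hs, rfl⟩
      rw [nx_in s hs]; exact (http s hs).2)
  -- rows and columns which lead to the targets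
  have hrow : ∀ b s, ∃ a ∈ G.act₁ s, s ∈ C → ctl s → tg b s ≠ Sum.inr s →
      ∃ t ∈ C, tg b s = Sum.inl t ∧ ∀ j ∈ G.act₂ s, G.δ s a j = t := by
    intro b s
    by_cases h : s ∈ C ∧ ctl s ∧ tg b s ≠ Sum.inr s
    · rcases (memN s _).1 (htg b s) with ⟨a, ha, j, hj, hC, e⟩ | ⟨_, e⟩
      · exact ⟨a, ha, fun _ _ _ => ⟨_, hC, e, fun j' hj' => h.2.1 a ha j hj j' hj' hC⟩⟩
      · exact absurd e h.2.2
    · obtain ⟨a, ha⟩ := G.ne₁ s
      exact ⟨a, ha, fun h1 h2 h3 => absurd ⟨h1, h2, h3⟩ h⟩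
  choose row hrow1 hrow2 using hrow
  have hcol : ∀ b s, ∃ j ∈ G.act₂ s, s ∈ C → ¬ ctl s → tg b s ≠ Sum.inr s →
      ∃ t ∈ C, tg b s = Sum.inl t ∧ ∀ a ∈ G.act₁ s, G.δ s a j = t := by
    intro b s
    by_cases h : s ∈ C ∧ ¬ ctl s ∧ tg b s ≠ Sum.inr s
    · rcases (memN s _).1 (htg b s) with ⟨a, ha, j, hj, hC, e⟩ | ⟨_, e⟩
      · exact ⟨j, hj, fun h1 h2 _ => ⟨_, hC, e, fun a' ha' => hctl' s h1 h2 a ha a' ha' j hj hC⟩⟩
      · exact absurd e h.2.2
    · obtain ⟨j, hj⟩ := G.ne₂ s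
      exact ⟨j, hj, fun h1 h2 h3 => absurd ⟨h1, h2, h3⟩ h⟩
  choose col hcol1 hcol2 using hcol
  let X : Bool → S → A → ℝ := fun b s => if ctl s ∧ tg b s ≠ Sum.inr s then dir (row b s) else xs s
  let Y : Bool → S → B → ℝ := fun b s => if ¬ ctl s ∧ tg b s ≠ Sum.inr s then dir (col b s)
    else ys s
  have hX : ∀ b s, Mix (G.act₁ s) (X b s) := fun b s => by
    by_cases h : ctl s ∧ tg b s ≠ Sum.inr s
    · simp only [X, if_pos h]; exact mix_dir (hrow1 b s)
    · simp only [X, if_neg h]; exact hxs s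
  have hY : ∀ b s, Mix (G.act₂ s) (Y b s) := fun b s => by
    by_cases h : ¬ ctl s ∧ tg b s ≠ Sum.inr s
    · simp only [Y, if_pos h]; exact mix_dir (hcol1 b s)
    · simp only [Y, if_neg h]; exact hys s
  let D : TP G T₁ T₂ C :=
    { σ := σ, τ := τ, hσ := hσ, hτ := hτ, go := fun s t => tt s = Sum.inl t, x := X, y := Y,
      hx := hX, hy := hY, hC₁ := hC₁, hC₂ := hC₂,
      hout := fun s hs a ha b hb h => hN _ (hout s hs a ha b hb h) }
  have ph_true : ∀ s t, tt s = Sum.inl t → D.ph true s t = true := fun s t h => by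
    simp only [TP.ph, Bool.true_and, decide_eq_true_eq]; exact h
  have ph_cases : ∀ b s t, (b = true ∧ tt s = Sum.inl t ∧ D.ph b s t = true) ∨
      D.ph b s t = false := by
    intro b s t
    by_cases h : b = true ∧ tt s = Sum.inl t
    · left; exact ⟨h.1, h.2, by rw [h.1]; exact ph_true s t h.2⟩
    · right
      unfold TP.ph
      rw [Bool.and_eq_false_iff]
      by_cases hb : b = true
      · right
        rw [decide_eq_false_iff_not]
        exact fun h' => h ⟨hb, h'⟩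
      · left; exact Bool.eq_false_iff.2 hb
  let W₁ : Bool → S → ℝ := fun b s => if s ∈ C then (if b = true then F (Sum.inl s) else
    u (Sum.inl s)) else P s
  let W₂ : Bool → S → ℝ := fun b s => if s ∈ C then (if b = true then H (Sum.inl s) else
    w (Sum.inl s)) else Q s
  have W₁t : ∀ s ∈ C, W₁ true s = F (Sum.inl s) := fun s hs => by simp only [W₁, if_pos hs, if_true]
  have W₁f : ∀ s ∈ C, W₁ false s = u (Sum.inl s) := fun s hs => by simp [W₁, hs]
  have W₁o : ∀ b, ∀ s ∉ C, W₁ b s = P s := fun b s hs => by simp only [W₁, if_neg hs]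
  have W₂t : ∀ s ∈ C, W₂ true s = H (Sum.inl s) := fun s hs => by simp only [W₂, if_pos hs, if_true]
  have W₂f : ∀ s ∈ C, W₂ false s = w (Sum.inl s) := fun s hs => by simp [W₂, hs]
  have W₂o : ∀ b, ∀ s ∉ C, W₂ b s = Q s := fun b s hs => by simp only [W₂, if_neg hs]
  have W₁ge : ∀ b, ∀ s ∈ C, u (Sum.inl s) ≤ W₁ b s := by
    intro b s hs
    cases b
    · rw [W₁f s hs]
    · rw [W₁t s hs]; exact uF _ (inC' s hs)
  have W₂ge : ∀ b, ∀ s ∈ C, w (Sum.inl s) ≤ W₂ b s := by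
    intro b s hs
    cases b
    · rw [W₂f s hs]
    · rw [W₂t s hs]; exact wH _ (inC' s hs)
  -- values along the path
  have Fin : ∀ s ∈ C, ∀ t, tt s = Sum.inl t → F (Sum.inl t) = F (Sum.inl s) := by
    intro s hs t h
    rw [← h, ← nx_in s hs]; exact Fst _ (inC' s hs)
  have Hin : ∀ s ∈ C, ∀ t, tt s = Sum.inl t → H (Sum.inl t) = H (Sum.inl s) := by
    intro s hs t h
    rw [← h, ← nx_in s hs]; exact Hst _ (inC' s hs)
  have Fex : ∀ s ∈ C, tt s = Sum.inr s → F (Sum.inl s) = e1 s := by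
    intro s hs h
    rw [← Fst _ (inC' s hs), nx_in s hs, h, Fout _ (inr_C' s)]; rfl
  have Hex : ∀ s ∈ C, tt s = Sum.inr s → H (Sum.inl s) = e2 s := by
    intro s hs h
    rw [← Hst _ (inC' s hs), nx_in s hs, h, Hout _ (inr_C' s)]; rfl
  have uex : ∀ s, u (Sum.inr s) = e1 s := fun s => by rw [uout _ (inr_C' s)]; rfl
  have wex : ∀ s, w (Sum.inr s) = e2 s := fun s => by rw [wout _ (inr_C' s)]; rfl
  have hasE_of : ∀ b s, tg b s = Sum.inr s → hasE s := by
    intro b s h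
    rcases (memN s _).1 (htg b s) with ⟨a, ha, j, hj, hC, e⟩ | ⟨hE, _⟩
    · rw [h] at e; exact absurd e Sum.inr_ne_inl
    · exact hE
  -- an action of player 1 in a state controlled by player 2, and conversely
  have e1W : ∀ b, ∀ s ∈ C, ¬ ctl s → tg b s = Sum.inr s → e1 s ≤ W₁ b s := by
    intro b s hs hc h
    cases b
    · rw [W₁f s hs, ← uex s]
      rw [tg_false] at h
      have := (htfp s hs).2 hc
      rw [h] at this
      exact this.le
    · rw [W₁t s hs]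
      rw [tg_true] at h
      exact (Fex s hs h).ge
  have e2W : ∀ b, ∀ s ∈ C, ctl s → tg b s = Sum.inr s → e2 s ≤ W₂ b s := by
    intro b s hs hc h
    cases b
    · rw [W₂f s hs, ← wex s]
      rw [tg_false] at h
      have := (htfp s hs).1 hc
      rw [h] at this
      exact this.le
    · rw [W₂t s hs]
      rw [tg_true] at h
      exact (Hex s hs h).ge
  have V₁ : ∀ b, ∀ s ∈ C, ∀ a ∈ G.act₁ s,
      ∑ j ∈ G.act₂ s, D.y b s j * W₁ (D.ph b s (G.δ s a j)) (G.δ s a j) ≤ W₁ b s := by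
    intro b s hs a ha
    by_cases hc : ctl s
    · have hy : D.y b s = ys s := by
        change Y b s = ys s
        simp only [Y, if_neg fun h : ¬ ctl s ∧ tg b s ≠ Sum.inr s => h.1 hc]
      rw [hy]
      by_cases hE : a ∈ E₁ s
      · have hh : hasE s := by simp only [hasE, if_pos hc]; exact ⟨a, hE⟩
        have h1 := ((hexs s hh).2.2.1 a ha fun _ => hE)
        have h2 : ∑ j ∈ G.act₂ s, ys s j * W₁ (D.ph b s (G.δ s a j)) (G.δ s a j) =
            ∑ j ∈ G.act₂ s, ys s j * P (G.δ s a j) :=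
          Finset.sum_congr rfl fun j hj => by rw [W₁o _ _ (((mE₁ s a).1 hE).2 j hj)]
        rw [h2]
        have h3 := u1 _ (inC' s hs) hc (Sum.inr s) ((memN s _).2 (Or.inr ⟨hh, rfl⟩))
        rw [uex] at h3
        exact (h1.trans h3).trans (W₁ge b s hs)
      · have h1 : ∃ j ∈ G.act₂ s, G.δ s a j ∈ C := by
          by_contra hno
          push Not at hno
          exact hE ((mE₁ s a).2 ⟨ha, hno⟩)
        obtain ⟨j0, hj0, hj0C⟩ := h1
        refine mix_le (hys s) fun j hj => ?_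
        rw [hc a ha j0 hj0 j hj hj0C]
        rcases ph_cases b s (G.δ s a j0) with ⟨hb, ht, hp⟩ | hp
        · rw [hp, hb, W₁t _ hj0C, W₁t s hs, Fin s hs _ ht]
        · rw [hp, W₁f _ hj0C]
          exact (u1 _ (inC' s hs) hc _ ((memN s _).2 (Or.inl ⟨a, ha, j0, hj0, hj0C, rfl⟩))).trans
            (W₁ge b s hs)
    · by_cases ht : tg b s = Sum.inr s
      · have hy : D.y b s = ys s := by
          change Y b s = ys s
          simp only [Y, if_neg fun h : ¬ ctl s ∧ tg b s ≠ Sum.inr s => h.2 ht]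
        rw [hy]
        have hh := hasE_of b s ht
        have h1 := ((hexs s hh).2.2.1 a ha fun h => absurd h hc)
        have h2 : ∑ j ∈ G.act₂ s, ys s j * W₁ (D.ph b s (G.δ s a j)) (G.δ s a j) =
            ∑ j ∈ G.act₂ s, ys s j * P (G.δ s a j) := by
          refine Finset.sum_congr rfl fun j hj => ?_
          rcases ((hys s).1 j hj).lt_or_eq with h | h
          · rw [W₁o _ _ (((mE₂ s j).1 ((hexs s hh).2.2.2.2.2 hc j hj h)).2 a ha)]
          · rw [← h, zero_mul, zero_mul]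
        rw [h2]
        exact h1.trans (e1W b s hs hc ht)
      · have hy : D.y b s = dir (col b s) := by
          change Y b s = _
          simp only [Y, if_pos (show ¬ ctl s ∧ tg b s ≠ Sum.inr s from ⟨hc, ht⟩)]
        rw [hy, sum_dir (hcol1 b s)]
        obtain ⟨t, htC, he, hδ⟩ := hcol2 b s hs hc ht
        rw [hδ a ha]
        cases b
        · have hp : D.ph false s t = false := by simp [TP.ph]
          rw [hp, W₁f _ htC, W₁f s hs]
          rw [tg_false] at he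
          have := (htfp s hs).2 hc
          rw [he] at this
          exact this.le
        · rw [tg_true] at he
          rw [ph_true s t he, W₁t _ htC, W₁t s hs, Fin s hs t he]
  have V₂ : ∀ b, ∀ s ∈ C, ∀ j ∈ G.act₂ s,
      ∑ a ∈ G.act₁ s, D.x b s a * W₂ (D.ph b s (G.δ s a j)) (G.δ s a j) ≤ W₂ b s := by
    intro b s hs j hj
    by_cases hc : ctl s
    · by_cases ht : tg b s = Sum.inr s
      · have hx : D.x b s = xs s := by
          change X b s = xs s
          simp only [X, if_neg fun h : ctl s ∧ tg b s ≠ Sum.inr s => h.2 ht]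
        rw [hx]
        have hh := hasE_of b s ht
        have h1 := ((hexs s hh).2.2.2.1 j hj fun h => absurd hc h)
        have h2 : ∑ a ∈ G.act₁ s, xs s a * W₂ (D.ph b s (G.δ s a j)) (G.δ s a j) =
            ∑ a ∈ G.act₁ s, xs s a * Q (G.δ s a j) := by
          refine Finset.sum_congr rfl fun a ha => ?_
          rcases ((hxs s).1 a ha).lt_or_eq with h | h
          · rw [W₂o _ _ (((mE₁ s a).1 ((hexs s hh).2.2.2.2.1 hc a ha h)).2 j hj)]
          · rw [← h, zero_mul, zero_mul]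
        rw [h2]
        exact h1.trans (e2W b s hs hc ht)
      · have hx : D.x b s = dir (row b s) := by
          change X b s = _
          simp only [X, if_pos (show ctl s ∧ tg b s ≠ Sum.inr s from ⟨hc, ht⟩)]
        rw [hx, sum_dir (hrow1 b s)]
        obtain ⟨t, htC, he, hδ⟩ := hrow2 b s hs hc ht
        rw [hδ j hj]
        cases b
        · have hp : D.ph false s t = false := by simp [TP.ph]
          rw [hp, W₂f _ htC, W₂f s hs]
          rw [tg_false] at he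
          have := (htfp s hs).1 hc
          rw [he] at this
          exact this.le
        · rw [tg_true] at he
          rw [ph_true s t he, W₂t _ htC, W₂t s hs, Hin s hs t he]
    · have hx : D.x b s = xs s := by
        change X b s = xs s
        simp only [X, if_neg fun h : ctl s ∧ tg b s ≠ Sum.inr s => hc h.1]
      rw [hx]
      by_cases hE : j ∈ E₂ s
      · have hh : hasE s := by simp only [hasE, if_neg hc]; exact ⟨j, hE⟩
        have h1 := ((hexs s hh).2.2.2.1 j hj fun _ => hE)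
        have h2 : ∑ a ∈ G.act₁ s, xs s a * W₂ (D.ph b s (G.δ s a j)) (G.δ s a j) =
            ∑ a ∈ G.act₁ s, xs s a * Q (G.δ s a j) :=
          Finset.sum_congr rfl fun a ha => by rw [W₂o _ _ (((mE₂ s j).1 hE).2 a ha)]
        rw [h2]
        have h3 := w1 _ (inC' s hs) hc (Sum.inr s) ((memN s _).2 (Or.inr ⟨hh, rfl⟩))
        rw [wex] at h3
        exact (h1.trans h3).trans (W₂ge b s hs)
      · have h1 : ∃ a ∈ G.act₁ s, G.δ s a j ∈ C := by
          by_contra hno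
          push Not at hno
          exact hE ((mE₂ s j).2 ⟨hj, hno⟩)
        obtain ⟨a0, ha0, ha0C⟩ := h1
        refine mix_le (hxs s) fun a ha => ?_
        rw [hctl' s hs hc a0 ha0 a ha j hj ha0C]
        rcases ph_cases b s (G.δ s a0 j) with ⟨hb, ht, hp⟩ | hp
        · rw [hp, hb, W₂t _ ha0C, W₂t s hs, Hin s hs _ ht]
        · rw [hp, W₂f _ ha0C]
          exact (w1 _ (inC' s hs) hc _ ((memN s _).2 (Or.inl ⟨a0, ha0, j, hj, ha0C, rfl⟩))).trans
            (W₂ge b s hs)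
  -- one step of the play on the path
  have stay : ∀ T, (∀ s ∈ C, s ∉ T) → ∀ s ∈ C, ∀ t ∈ C, tt s = Sum.inl t →
      D.F T true s = D.F T true t := by
    intro T hT s hs t htC ht
    rw [D.F_step hs (hT s hs) true, dsum]
    have hne : tg true s ≠ Sum.inr s := by rw [tg_true, ht]; exact Sum.inl_ne_inr
    by_cases hc : ctl s
    · have hx : D.x true s = dir (row true s) := by
        change X true s = _
        simp only [X, if_pos (show ctl s ∧ tg true s ≠ Sum.inr s from ⟨hc, hne⟩)]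
      obtain ⟨t', _, he, hδ⟩ := hrow2 true s hs hc hne
      have : t' = t := by
        rw [tg_true, ht] at he; exact (Sum.inl.inj he).symm
      subst this
      rw [hx, sum_dir (hrow1 true s)]
      have : ∑ j ∈ G.act₂ s, D.y true s j * D.F T (D.ph true s (G.δ s (row true s) j))
          (G.δ s (row true s) j) = ∑ j ∈ G.act₂ s, D.y true s j * D.F T true t' :=
        Finset.sum_congr rfl fun j hj => by rw [hδ j hj, ph_true s t' ht]
      rw [this, ← Finset.sum_mul, (D.hy true s).2, one_mul]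
    · have hy : D.y true s = dir (col true s) := by
        change Y true s = _
        simp only [Y, if_pos (show ¬ ctl s ∧ tg true s ≠ Sum.inr s from ⟨hc, hne⟩)]
      obtain ⟨t', _, he, hδ⟩ := hcol2 true s hs hc hne
      have : t' = t := by
        rw [tg_true, ht] at he; exact (Sum.inl.inj he).symm
      subst this
      have : ∀ a ∈ G.act₁ s, ∑ j ∈ G.act₂ s, D.y true s j * D.F T (D.ph true s (G.δ s a j))
          (G.δ s a j) = D.F T true t' := fun a ha => by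
        rw [hy, sum_dir (hcol1 true s), hδ a ha, ph_true s t' ht]
      rw [Finset.sum_congr rfl fun a ha => by rw [this a ha], ← Finset.sum_mul, (D.hx true s).2,
        one_mul]
  have exits : ∀ s ∈ C, tt s = Sum.inr s → D.F T₁ true s = e1 s ∧ D.F T₂ true s = e2 s := by
    intro s hs ht
    have htg' : tg true s = Sum.inr s := by rw [tg_true]; exact ht
    have hh := hasE_of true s htg'
    have hx : D.x true s = xs s := by
      change X true s = xs s
      simp only [X, if_neg fun h : ctl s ∧ tg true s ≠ Sum.inr s => h.2 htg']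
    have hy : D.y true s = ys s := by
      change Y true s = ys s
      simp only [Y, if_neg fun h : ¬ ctl s ∧ tg true s ≠ Sum.inr s => h.2 htg']
    have hexit : ∀ a ∈ G.act₁ s, ∀ j ∈ G.act₂ s, 0 < xs s a → 0 < ys s j → G.δ s a j ∉ C := by
      intro a ha j hj hxa hyj
      by_cases hc : ctl s
      · exact ((mE₁ s a).1 ((hexs s hh).2.2.2.2.1 hc a ha hxa)).2 j hj
      · exact ((mE₂ s j).1 ((hexs s hh).2.2.2.2.2 hc j hj hyj)).2 a ha
    have key : ∀ (T : Set S) (R : S → ℝ), (∀ k ∉ C, ∀ b, D.F T b k = R k) → s ∉ T →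
        D.F T true s = ∑ a ∈ G.act₁ s, xs s a * ∑ j ∈ G.act₂ s, ys s j * R (G.δ s a j) := by
      intro T R hR hT
      rw [D.F_step hs hT true, hx, hy, dsum]
      refine Finset.sum_congr rfl fun a ha => ?_
      rcases ((hxs s).1 a ha).lt_or_eq with h | h
      · congr 1
        refine Finset.sum_congr rfl fun j hj => ?_
        rcases ((hys s).1 j hj).lt_or_eq with h' | h'
        · rw [hR _ (hexit a ha j hj h h')]
        · rw [← h', zero_mul, zero_mul]
      · rw [← h, zero_mul, zero_mul]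
    constructor
    · rw [key T₁ P (fun k hk b => D.F_out hk b) (hC₁ s hs), (hexs s hh).1]
    · rw [key T₂ Q (fun k hk b => D.F_out hk b) (hC₂ s hs), (hexs s hh).2.1]
  have attain : ∀ n, ∀ s ∈ C, nx^[n] (Sum.inl s) ∉ C' →
      F (Sum.inl s) ≤ D.F T₁ true s ∧ H (Sum.inl s) ≤ D.F T₂ true s := by
    intro n
    induction n with
    | zero => intro s hs h; exact absurd (inC' s hs) h
    | succ n ih =>
      intro s hs h
      rcases (memN s _).1 (htt s) with ⟨a, ha, j, hj, hC, e⟩ | ⟨_, e⟩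
      · have h' : nx^[n] (Sum.inl (G.δ s a j)) ∉ C' := by
          rw [Function.iterate_succ_apply, nx_in s hs, e] at h; exact h
        have := ih _ hC h'
        rw [← Fin s hs _ e, ← Hin s hs _ e, stay T₁ hC₁ s hs _ hC e, stay T₂ hC₂ s hs _ hC e]
        exact this
      · rw [Fex s hs e, Hex s hs e, (exits s hs e).1, (exits s hs e).2]
        exact ⟨le_rfl, le_rfl⟩
  have fin : F (Sum.inl s₀) ≤ D.F T₁ true s₀ ∧ H (Sum.inl s₀) ≤ D.F T₂ true s₀ := by
    rcases hpath _ (inC' s₀ hs₀) with ⟨h1, h2⟩ | ⟨n, hn⟩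
    · rw [h1, h2]; exact ⟨D.F_nonneg _ _ _, D.F_nonneg _ _ _⟩
    · exact attain n s₀ hs₀ hn
  refine D.verify W₁ W₂ (fun b s hs => (u0 _).trans (W₁ge b s hs))
    (fun b s hs => (w0 _).trans (W₂ge b s hs)) (fun b s hs => W₁o b s hs)
    (fun b s hs => W₂o b s hs) V₁ V₂ hs₀ ?_ ?_
  · rw [W₁t s₀ hs₀]; exact fin.1
  · rw [W₂t s₀ hs₀]; exact fin.2

end Pool.Agent.H40.NE
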