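import Pool.Agent.H95.NE.Fin
import Pool.Agent.H40.NE.Bimatrix

/-! One-step composition of Nash equilibria. -/

set_option autoImplicit false

open Finset Relation Filter Topology

namespace Pool.Agent.H40.NE

open Pool.Agent.H95.NE Pool.Agent.H95.NE.Game

variable {S A B : Type*} {G : Game S A B} {T T₁ T₂ : Set S}

theorem st_append (s : S) (h h1 : List (A × B)) : G.st s (h ++ h1) = G.st (G.st s h1) h := by
  induction h with
  | nil => rfl
  | cons p h ih => simp only [List.cons_append, st, ih]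

theorem prob_append (s : S) (σ : List (A × B) → A → ℝ) (τ : List (A × B) → B → ℝ)
    (h1 : List (A × B)) (n : ℕ) : ∀ h, G.prob T s σ τ n (h ++ h1) =
      G.prob T (G.st s h1) (fun h => σ (h ++ h1)) (fun h => τ (h ++ h1)) n h := by
  induction n with
  | zero =>
    intro h
    rw [prob_zero, prob_zero, st_append]
  | succ n ih =>
    intro h
    by_cases hh : G.st s (h ++ h1) ∈ T
    · rw [prob_mem hh, prob_mem (by rwa [← st_append])]
    · rw [prob_succ hh, prob_succ (by rwa [← st_append]), ← st_append]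
      refine Finset.sum_congr rfl fun a _ => Finset.sum_congr rfl fun b _ => ?_
      rw [← ih, List.cons_append]

theorem strat₁_append {s : S} {σ : List (A × B) → A → ℝ} (hσ : G.Strat₁ s σ) (h1 : List (A × B)) :
    G.Strat₁ (G.st s h1) fun h => σ (h ++ h1) := by
  intro h
  have := hσ (h ++ h1)
  rwa [st_append] at this

theorem strat₂_append {s : S} {τ : List (A × B) → B → ℝ} (hτ : G.Strat₂ s τ) (h1 : List (A × B)) :
    G.Strat₂ (G.st s h1) fun h => τ (h ++ h1) := by
  intro h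
  have := hτ (h ++ h1)
  rwa [st_append] at this

theorem pay_tendsto {s : S} {σ : List (A × B) → A → ℝ} {τ : List (A × B) → B → ℝ}
    (hσ : G.Strat₁ s σ) (hτ : G.Strat₂ s τ) :
    Tendsto (fun n => G.prob T s σ τ n []) atTop (𝓝 (G.pay T s σ τ)) :=
  tendsto_atTop_ciSup (monotone_nat_of_le_succ fun n => prob_mono_succ hσ hτ n []) (bdd hσ hτ)

theorem pay_step {s : S} {σ : List (A × B) → A → ℝ} {τ : List (A × B) → B → ℝ} (hs : s ∉ T)
    (hσ : G.Strat₁ s σ) (hτ : G.Strat₂ s τ) : G.pay T s σ τ =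
      ∑ a ∈ G.act₁ s, ∑ b ∈ G.act₂ s, σ [] a * τ [] b *
        G.pay T (G.δ s a b) (fun h => σ (h ++ [(a, b)])) (fun h => τ (h ++ [(a, b)])) := by
  have h1 : Tendsto (fun n => G.prob T s σ τ (n + 1) []) atTop (𝓝 (G.pay T s σ τ)) :=
    (pay_tendsto hσ hτ).comp (tendsto_add_atTop_nat 1)
  refine tendsto_nhds_unique h1 ?_
  have h2 : ∀ n, G.prob T s σ τ (n + 1) [] = ∑ a ∈ G.act₁ s, ∑ b ∈ G.act₂ s, σ [] a * τ [] b *
      G.prob T (G.δ s a b) (fun h => σ (h ++ [(a, b)])) (fun h => τ (h ++ [(a, b)])) n [] := by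
    intro n
    rw [prob_succ (h := []) hs]
    refine Finset.sum_congr rfl fun a _ => Finset.sum_congr rfl fun b _ => ?_
    have := prob_append (G := G) (T := T) s σ τ [(a, b)] n []
    rw [List.nil_append] at this
    rw [this]
    rfl
  simp only [h2]
  refine tendsto_finsetSum _ fun a _ => tendsto_finsetSum _ fun b _ => Tendsto.const_mul _ ?_
  exact pay_tendsto (strat₁_append hσ [(a, b)]) (strat₂_append hτ [(a, b)])

/-- There is a Nash equilibrium from `s`. -/
def HasNE (G : Game S A B) (T₁ T₂ : Set S) (s : S) : Prop := ∃ σ τ, G.IsNash T₁ T₂ s σ τ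

theorem exists_default (G : Game S A B) (T₁ T₂ : Set S) (s : S) : ∃ σ τ, G.Strat₁ s σ ∧
    G.Strat₂ s τ ∧ (HasNE G T₁ T₂ s → G.IsNash T₁ T₂ s σ τ) := by
  by_cases h : HasNE G T₁ T₂ s
  · obtain ⟨σ, τ, h1⟩ := h
    exact ⟨σ, τ, h1.1, h1.2.1, fun _ => h1⟩
  · exact ⟨_, _, fun h => mix_unif (G.ne₁ _), fun h => mix_unif (G.ne₂ _), fun h' => absurd h' h⟩

/-- If there is an equilibrium from every successor of `s`, there is one from `s`. -/
theorem glue {s : S} (hs1 : s ∉ T₁) (hs2 : s ∉ T₂)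
    (h : ∀ a ∈ G.act₁ s, ∀ b ∈ G.act₂ s, HasNE G T₁ T₂ (G.δ s a b)) : HasNE G T₁ T₂ s := by
  choose σ τ hσ hτ hN using exists_default G T₁ T₂
  obtain ⟨x, y, hx, hy, h1, h2⟩ := bimatrix (G.ne₁ s) (G.ne₂ s)
    (fun a b => G.pay T₁ (G.δ s a b) (σ (G.δ s a b)) (τ (G.δ s a b)))
    (fun a b => G.pay T₂ (G.δ s a b) (σ (G.δ s a b)) (τ (G.δ s a b)))
  let σ' : List (A × B) → A → ℝ := fun h => match h.getLast? with
    | none => x
    | some p => σ (G.δ s p.1 p.2) h.dropLast
  let τ' : List (A × B) → B → ℝ := fun h => match h.getLast? with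
    | none => y
    | some p => τ (G.δ s p.1 p.2) h.dropLast
  have eσ : ∀ h p, σ' (h ++ [p]) = σ (G.δ s p.1 p.2) h := by
    intro h p
    simp [σ']
  have eτ : ∀ h p, τ' (h ++ [p]) = τ (G.δ s p.1 p.2) h := by
    intro h p
    simp [τ']
  have S1 : G.Strat₁ s σ' := by
    intro h
    rcases List.eq_nil_or_concat h with rfl | ⟨h', p, rfl⟩
    · exact hx
    · rw [List.concat_eq_append, eσ, st_append]; exact hσ _ h'
  have S2 : G.Strat₂ s τ' := by
    intro h
    rcases List.eq_nil_or_concat h with rfl | ⟨h', p, rfl⟩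
    · exact hy
    · rw [List.concat_eq_append, eτ, st_append]; exact hτ _ h'
  have e1 : ∀ T, s ∉ T → G.pay T s σ' τ' = ∑ a ∈ G.act₁ s, ∑ b ∈ G.act₂ s, x a * y b *
      G.pay T (G.δ s a b) (σ (G.δ s a b)) (τ (G.δ s a b)) := by
    intro T hT
    rw [pay_step hT S1 S2]
    refine Finset.sum_congr rfl fun a _ => Finset.sum_congr rfl fun b _ => ?_
    simp only [eσ, eτ]
    rfl
  refine ⟨σ', τ', S1, S2, fun ρ hρ => ?_, fun ρ hρ => ?_⟩
  · rw [e1 _ hs1, pay_step hs1 hρ S2, dsum]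
    refine mix_le (hρ []) fun a ha => ?_
    refine le_trans ?_ (h1 a ha)
    refine Finset.sum_le_sum fun b hb => mul_le_mul_of_nonneg_left ?_ (hy.1 b hb)
    simp only [eτ]
    exact (hN _ (h a ha b hb)).2.2.1 _ (strat₁_append hρ [(a, b)])
  · rw [e1 _ hs2, pay_step hs2 S1 hρ, dsum']
    refine mix_le (hρ []) fun b hb => ?_
    refine le_trans ?_ (h2 b hb)
    refine Finset.sum_le_sum fun a ha => mul_le_mul_of_nonneg_left ?_ (hx.1 a ha)
    simp only [eσ]
    exact (hN _ (h a ha b hb)).2.2.2 _ (strat₂_append hρ [(a, b)])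

end Pool.Agent.H40.NE
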