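import Pool.Agent.H40.NE.Cyc
import Pool.Agent.H40.NE.Disc3
import Pool.Agent.H40.NE.Block

/-! A single state with a loop. -/

set_option autoImplicit false
set_option linter.unusedSectionVars false

open Finset Relation Filter Topology

namespace Pool.Agent.H40.NE

open Pool.Agent.H95.NE Pool.Agent.H95.NE.Game

section
variable {A B : Type*}

open Classical in
/-- Player 1 discounts by `κ`, player 2 does not discount. -/
theorem one_disc {F : Finset A} {E : Finset B} (L : A → B → Prop) (P Q : A → B → ℝ)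
    (hP0 : ∀ a b, 0 < P a b) (hP1 : ∀ a b, P a b ≤ 1) (hQ0 : ∀ a b, 0 ≤ Q a b)
    (hQ1 : ∀ a b, Q a b ≤ 1) (hex : ∃ a ∈ F, ∃ b ∈ E, ¬ L a b) {κ : ℝ} (hκ0 : 0 ≤ κ)
    (hκ1 : κ ≤ 1) : ∃ (x : A → ℝ) (y : B → ℝ) (f g : ℝ), Mix F x ∧ Mix E y ∧ (0 ≤ f ∧ f ≤ 1) ∧
      (0 ≤ g ∧ g ≤ 1) ∧ (∀ b ∈ E, 0 < y b → ∃ a ∈ F, ¬ L a b) ∧
      (∀ a ∈ F, ∑ b ∈ E, y b * (if L a b then κ * f else P a b) ≤ f) ∧
      (∀ a ∈ F, 0 < x a → ∑ b ∈ E, y b * (if L a b then κ * f else P a b) = f) ∧
      (∀ b ∈ E, ∑ a ∈ F, x a * (if L a b then g else Q a b) ≤ g) ∧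
      ∀ b ∈ E, 0 < y b → ∑ a ∈ F, x a * (if L a b then g else Q a b) = g := by
  obtain ⟨a₀, ha₀, b₀, hb₀, hab⟩ := hex
  have hB' : (E.filter fun b => ∃ a ∈ F, ¬ L a b).Nonempty :=
    ⟨b₀, Finset.mem_filter.2 ⟨hb₀, a₀, ha₀, hab⟩⟩
  have hsub : (E.filter fun b => ∃ a ∈ F, ¬ L a b) ⊆ E := Finset.filter_subset _ _
  let U : Game Unit A B := ⟨fun _ => F, fun _ => E.filter fun b => ∃ a ∈ F, ¬ L a b,
    fun _ => ⟨a₀, ha₀⟩, fun _ => hB', fun _ _ _ => ()⟩
  obtain ⟨x, y, f, g, hx, hy, hf, hg, ef, if', eg, ig⟩ := disc3 U 1 zero_le_one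
    (fun _ a b => if L a b then κ else 0) (fun _ a b => if L a b then 1 else 0)
    (fun _ a b => if L a b then 0 else P a b) (fun _ a b => if L a b then 0 else Q a b)
    (fun _ a b => by split_ifs; exacts [hκ0, le_rfl])
    (fun _ a b => by split_ifs; exacts [zero_le_one, le_rfl])
    (fun _ a b => by split_ifs; exacts [le_rfl, (hP0 a b).le])
    (fun _ a b => by split_ifs; exacts [le_rfl, hQ0 a b])
    (fun _ a b => by split_ifs <;> linarith [hP1 a b])
    (fun _ a b => by split_ifs <;> linarith [hQ1 a b])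
  have e1 : ∀ a b, (if L a b then κ else 0) * f () + (if L a b then 0 else P a b) =
      if L a b then κ * f () else P a b := by
    intro a b
    split_ifs <;> ring
  have e2 : ∀ a b, (if L a b then 1 else 0) * g () + (if L a b then 0 else Q a b) =
      if L a b then g () else Q a b := by
    intro a b
    split_ifs <;> ring
  have ef0 := ef ()
  have if0 := if' ()
  have eg0 := eg ()
  have ig0 := ig ()
  simp only [U, e1] at ef0 if0
  simp only [U, e2] at eg0 ig0
  have hy0 : Mix (E.filter fun b => ∃ a ∈ F, ¬ L a b) (y ()) := hy ()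
  have hx0 : Mix F (x ()) := hx ()
  have r1 : ∀ a ∈ F, 0 < x () a → ∑ b ∈ E.filter fun b => ∃ a ∈ F, ¬ L a b,
      y () b * (if L a b then κ * f () else P a b) = f () := fun a ha h =>
    sum_eq_of hx0 if0 ef0.le ha h
  have r2 : ∀ b ∈ E.filter fun b => ∃ a ∈ F, ¬ L a b, 0 < y () b →
      ∑ a ∈ F, x () a * (if L a b then g () else Q a b) = g () := fun b hb h =>
    sum_eq_of hy0 ig0 eg0.le hb h
  have hmem : ∀ b, 0 < (if b ∈ E.filter (fun b => ∃ a ∈ F, ¬ L a b) then y () b else 0) →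
      b ∈ E.filter (fun b => ∃ a ∈ F, ¬ L a b) ∧ 0 < y () b := by
    intro b h
    by_cases hb : b ∈ E.filter fun b => ∃ a ∈ F, ¬ L a b
    · rw [if_pos hb] at h; exact ⟨hb, h⟩
    · rw [if_neg hb] at h; exact absurd h (lt_irrefl _)
  refine ⟨x (), fun b => if b ∈ E.filter (fun b => ∃ a ∈ F, ¬ L a b) then y () b else 0, f (), g (),
    hx0, mix_ext hsub hy0, hf (), hg (), fun b _ h => (Finset.mem_filter.1 (hmem b h).1).2,
    fun a ha => ?_, fun a ha h => ?_, fun b hb => ?_, fun b hb h => ?_⟩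
  · rw [sum_ext hsub]; exact if0 a ha
  · rw [sum_ext hsub]; exact r1 a ha h
  · by_cases hb' : b ∈ E.filter fun b => ∃ a ∈ F, ¬ L a b
    · exact ig0 b hb'
    · have hfull : ∀ a ∈ F, L a b := by
        intro a ha
        by_contra hn
        exact hb' (Finset.mem_filter.2 ⟨hb, a, ha, hn⟩)
      refine le_of_eq ?_
      rw [Finset.sum_congr rfl fun a ha => by rw [if_pos (hfull a ha)], ← Finset.sum_mul, hx0.2,
        one_mul]
  · exact r2 b (hmem b h).1 (hmem b h).2

open Classical in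
theorem one_matrix {F : Finset A} {E : Finset B} (L : A → B → Prop) (P Q : A → B → ℝ)
    (hP0 : ∀ a b, 0 < P a b) (hP1 : ∀ a b, P a b ≤ 1) (hQ0 : ∀ a b, 0 ≤ Q a b)
    (hQ1 : ∀ a b, Q a b ≤ 1) (hrow : ∀ a ∈ F, ∀ a' ∈ F, ∀ b ∈ E, L a b → L a' b →
      (∀ b' ∈ E, L a b' ↔ L a' b') ∨ (∀ b' ∈ E, L a b') ∨ ∀ b' ∈ E, L a' b')
    (hex : ∃ a ∈ F, ∃ b ∈ E, ¬ L a b) :
    ∃ (x : A → ℝ) (y : B → ℝ) (v w : ℝ), Mix F x ∧ Mix E y ∧
      (∀ a ∈ F, ∑ b ∈ E, y b * (if L a b then v else P a b) ≤ v) ∧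
      (∀ a ∈ F, 0 < x a → v ≤ ∑ b ∈ E, y b * (if L a b then v else P a b)) ∧
      (∀ b ∈ E, ∑ a ∈ F, x a * (if L a b then w else Q a b) ≤ w) ∧
      (∀ b ∈ E, 0 < y b → w ≤ ∑ a ∈ F, x a * (if L a b then w else Q a b)) ∧
      ∃ a ∈ F, ∃ b ∈ E, 0 < x a ∧ 0 < y b ∧ ¬ L a b := by
  let κ : ℕ → ℝ := fun n => 1 - 1 / ((n : ℝ) + 2)
  have hκ : ∀ n, 0 ≤ κ n ∧ κ n < 1 := fun n => by
    have h2 : (0 : ℝ) < (n : ℝ) + 2 := by positivity
    have h3 : 1 / ((n : ℝ) + 2) ≤ 1 := by
      rw [div_le_one h2]; linarith [Nat.cast_nonneg (α := ℝ) n]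
    have h4 : 0 < 1 / ((n : ℝ) + 2) := by positivity
    exact ⟨by simp only [κ]; linarith, by simp only [κ]; linarith⟩
  have hκlim : Tendsto κ (hyperfilter ℕ) (𝓝 1) := by
    have : Tendsto κ atTop (𝓝 (1 - 0)) := by
      refine Tendsto.sub tendsto_const_nhds ?_
      have h := tendsto_one_div_add_atTop_nhds_zero_nat (𝕜 := ℝ)
      have h2 := h.comp (tendsto_add_atTop_nat 1)
      refine h2.congr fun n => ?_
      simp only [Function.comp, Nat.cast_add, Nat.cast_one]
      congr 1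
      ring
    rw [sub_zero] at this
    exact this.mono_left Nat.hyperfilter_le_atTop
  choose x y f g hx hy hf hg hB r1 r1' r2 r2' using fun n =>
    one_disc L P Q hP0 hP1 hQ0 hQ1 hex (hκ n).1 (hκ n).2.le
  have hXex : ∀ a, ∃ l, a ∈ F → Tendsto (fun n => x n a) (hyperfilter ℕ) (𝓝 l) := by
    intro a
    by_cases ha : a ∈ F
    · obtain ⟨l, _, _, hl⟩ := exists_ulim (fun n => x n a)
        fun n => ⟨(hx n).1 a ha, mix_le_one (hx n) ha⟩
      exact ⟨l, fun _ => hl⟩
    · exact ⟨0, fun h => absurd h ha⟩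
  have hYex : ∀ b, ∃ l, b ∈ E → Tendsto (fun n => y n b) (hyperfilter ℕ) (𝓝 l) := by
    intro b
    by_cases hb : b ∈ E
    · obtain ⟨l, _, _, hl⟩ := exists_ulim (fun n => y n b)
        fun n => ⟨(hy n).1 b hb, mix_le_one (hy n) hb⟩
      exact ⟨l, fun _ => hl⟩
    · exact ⟨0, fun h => absurd h hb⟩
  choose X hX using hXex
  choose Y hY using hYex
  obtain ⟨V, _, _, hV⟩ := exists_ulim f hf
  obtain ⟨H, _, _, hH⟩ := exists_ulim g hg
  have hXm : Mix F X := by
    refine ⟨fun a ha => ge_of_tendsto' (hX a ha) fun n => (hx n).1 a ha, ?_⟩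
    have := tendsto_finsetSum F fun a ha => hX a ha
    exact tendsto_nhds_unique this (by simp only [fun n => (hx n).2]; exact tendsto_const_nhds)
  have hYm : Mix E Y := by
    refine ⟨fun b hb => ge_of_tendsto' (hY b hb) fun n => (hy n).1 b hb, ?_⟩
    have := tendsto_finsetSum E fun b hb => hY b hb
    exact tendsto_nhds_unique this (by simp only [fun n => (hy n).2]; exact tendsto_const_nhds)
  have tf : ∀ a b, Tendsto (fun n => if L a b then κ n * f n else P a b) (hyperfilter ℕ)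
      (𝓝 (if L a b then V else P a b)) := fun a b => by
    by_cases h : L a b
    · simp only [if_pos h]
      have := hκlim.mul hV
      rwa [one_mul] at this
    · simp only [if_neg h]; exact tendsto_const_nhds
  have tg : ∀ a b, Tendsto (fun n => if L a b then g n else Q a b) (hyperfilter ℕ)
      (𝓝 (if L a b then H else Q a b)) := fun a b => by
    by_cases h : L a b
    · simp only [if_pos h]; exact hH
    · simp only [if_neg h]; exact tendsto_const_nhds
  have t1 : ∀ a, Tendsto (fun n => ∑ b ∈ E, y n b * (if L a b then κ n * f n else P a b))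
      (hyperfilter ℕ) (𝓝 (∑ b ∈ E, Y b * (if L a b then V else P a b))) := fun a =>
    tendsto_finsetSum _ fun b hb => (hY b hb).mul (tf a b)
  have t2 : ∀ b, Tendsto (fun n => ∑ a ∈ F, x n a * (if L a b then g n else Q a b))
      (hyperfilter ℕ) (𝓝 (∑ a ∈ F, X a * (if L a b then H else Q a b))) := fun b =>
    tendsto_finsetSum _ fun a ha => (hX a ha).mul (tg a b)
  have l1 : ∀ a ∈ F, ∑ b ∈ E, Y b * (if L a b then V else P a b) ≤ V :=
    fun a ha => le_of_tendsto_of_tendsto' (t1 a) hV fun n => r1 n a ha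
  have l2 : ∀ b ∈ E, ∑ a ∈ F, X a * (if L a b then H else Q a b) ≤ H :=
    fun b hb => le_of_tendsto_of_tendsto' (t2 b) hH fun n => r2 n b hb
  have l1' : ∀ a ∈ F, (∀ᶠ n in (hyperfilter ℕ : Filter ℕ), 0 < x n a) →
      ∑ b ∈ E, Y b * (if L a b then V else P a b) = V := fun a ha h =>
    tendsto_nhds_unique_of_eventuallyEq (t1 a) hV (h.mono fun n hn => r1' n a ha hn)
  have l2' : ∀ b ∈ E, (∀ᶠ n in (hyperfilter ℕ : Filter ℕ), 0 < y n b) →
      ∑ a ∈ F, X a * (if L a b then H else Q a b) = H := fun b hb h =>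
    tendsto_nhds_unique_of_eventuallyEq (t2 b) hH (h.mono fun n hn => r2' n b hb hn)
  have pX : ∀ a ∈ F, 0 < X a → ∀ᶠ n in (hyperfilter ℕ : Filter ℕ), 0 < x n a :=
    fun a ha h => (hX a ha).eventually (lt_mem_nhds h)
  have pY : ∀ b ∈ E, 0 < Y b → ∀ᶠ n in (hyperfilter ℕ : Filter ℕ), 0 < y n b :=
    fun b hb h => (hY b hb).eventually (lt_mem_nhds h)
  have dec : ∀ p : ℕ → Prop, (∀ᶠ n in (hyperfilter ℕ : Filter ℕ), p n) ∨
      ∀ᶠ n in (hyperfilter ℕ : Filter ℕ), ¬ p n := fun p => by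
    by_cases h : ∀ᶠ n in (hyperfilter ℕ : Filter ℕ), p n
    · exact Or.inl h
    · exact Or.inr (Ultrafilter.eventually_not.2 h)
  have supx : ∀ᶠ n in (hyperfilter ℕ : Filter ℕ), ∀ a ∈ F, 0 < x n a →
      ∀ᶠ m in (hyperfilter ℕ : Filter ℕ), 0 < x m a := by
    rw [eventually_all_finset]
    intro a _
    rcases dec fun n => 0 < x n a with h | h
    · exact Eventually.of_forall fun n _ => h
    · exact h.mono fun n hn h' => absurd h' hn
  have supy : ∀ᶠ n in (hyperfilter ℕ : Filter ℕ), ∀ b ∈ E, 0 < y n b →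
      ∀ᶠ m in (hyperfilter ℕ : Filter ℕ), 0 < y m b := by
    rw [eventually_all_finset]
    intro b _
    rcases dec fun n => 0 < y n b with h | h
    · exact Eventually.of_forall fun n _ => h
    · exact h.mono fun n hn h' => absurd h' hn
  have ally : ∀ᶠ n in (hyperfilter ℕ : Filter ℕ), ∀ b ∈ E, 0 < Y b → 0 < y n b := by
    rw [eventually_all_finset]
    intro b hb
    by_cases h : 0 < Y b
    · exact (pY b hb h).mono fun n hn _ => hn
    · exact Eventually.of_forall fun n h' => absurd h' h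
  have allx : ∀ᶠ n in (hyperfilter ℕ : Filter ℕ), ∀ a ∈ F, 0 < X a → 0 < x n a := by
    rw [eventually_all_finset]
    intro a ha
    by_cases h : 0 < X a
    · exact (pX a ha h).mono fun n hn _ => hn
    · exact Eventually.of_forall fun n h' => absurd h' h
  by_cases hA : ∃ a ∈ F, ∃ b ∈ E, 0 < X a ∧ 0 < Y b ∧ ¬ L a b
  · exact ⟨X, Y, V, H, hXm, hYm, l1, fun a ha h => (l1' a ha (pX a ha h)).ge, l2,
      fun b hb h => (l2' b hb (pY b hb h)).ge, hA⟩
  by_cases hBc : ∃ a ∈ F, (∀ᶠ n in (hyperfilter ℕ : Filter ℕ), 0 < x n a) ∧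
      ∃ b ∈ E, 0 < Y b ∧ ¬ L a b
  · obtain ⟨a, ha, hxa, b, hb, hYb, hL⟩ := hBc
    obtain ⟨n, hn1, hn2, hn3⟩ := (hxa.and (supx.and ally)).exists
    exact ⟨x n, Y, V, g n, hx n, hYm, l1, fun a' ha' h => (l1' a' ha' (hn2 a' ha' h)).ge,
      fun b' hb' => r2 n b' hb', fun b' hb' h => (r2' n b' hb' (hn3 b' hb' h)).ge,
      a, ha, b, hb, hn1, hYb, hL⟩
  -- the row player never leaves against `Y`
  push Not at hBc
  obtain ⟨a1, ha1, hXa1⟩ := hXm.exists_pos
  obtain ⟨b0, hb0, hYb0⟩ := hYm.exists_pos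
  have hL1 : ∀ b ∈ E, 0 < Y b → L a1 b := hBc a1 ha1 (pX a1 ha1 hXa1)
  let ex : ℕ → A → ℝ := fun n a => ∑ b ∈ E, y n b * (if L a b then 0 else 1)
  have ex0 : ∀ n a, 0 ≤ ex n a := fun n a => Finset.sum_nonneg fun b hb =>
    mul_nonneg ((hy n).1 b hb) (by split_ifs; exacts [le_rfl, zero_le_one])
  have hsmall : ∀ᶠ n in (hyperfilter ℕ : Filter ℕ), ex n a1 < y n b0 := by
    have h1 : Tendsto (fun n => ex n a1) (hyperfilter ℕ)
        (𝓝 (∑ b ∈ E, Y b * (if L a1 b then 0 else 1))) :=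
      tendsto_finsetSum _ fun b hb => (hY b hb).mul tendsto_const_nhds
    have h2 : ∑ b ∈ E, Y b * (if L a1 b then (0 : ℝ) else 1) = 0 := by
      refine Finset.sum_eq_zero fun b hb => ?_
      rcases (hYm.1 b hb).lt_or_eq with h | h
      · rw [if_pos (hL1 b hb h), mul_zero]
      · rw [← h, zero_mul]
    rw [h2] at h1
    exact h1.eventually_lt (hY b0 hb0) hYb0
  obtain ⟨n, hn1, hn2, hn3⟩ := (hsmall.and (supy.and allx)).exists
  have hn4 : κ n < 1 := (hκ n).2
  have hfpos : 0 < f n := by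
    obtain ⟨b, hb, hyb⟩ := (hy n).exists_pos
    obtain ⟨a, ha, hL⟩ := hB n b hb hyb
    have h1 := r1 n a ha
    have h2 : y n b * (if L a b then κ n * f n else P a b) ≤
        ∑ b ∈ E, y n b * (if L a b then κ n * f n else P a b) :=
      Finset.single_le_sum (f := fun b => y n b * (if L a b then κ n * f n else P a b))
        (fun b' hb' => mul_nonneg ((hy n).1 b' hb')
          (by split_ifs; exacts [mul_nonneg (hκ n).1 (hf n).1, (hP0 a b').le])) hb
    rw [if_neg hL] at h2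
    have h3 := mul_pos hyb (hP0 a b)
    linarith
  -- split the sums
  have split : ∀ a v, ∑ b ∈ E, y n b * (if L a b then v else P a b) =
      v * (1 - ex n a) + ∑ b ∈ E, y n b * (if L a b then 0 else P a b) := by
    intro a v
    have h0 : ∑ b ∈ E, y n b * (if L a b then (1 : ℝ) else 0) + ex n a = 1 := by
      simp only [ex]
      rw [← Finset.sum_add_distrib]
      refine (Finset.sum_congr rfl fun b _ => ?_).trans (hy n).2
      split_ifs <;> ring
    have h1 : (1 : ℝ) - ex n a = ∑ b ∈ E, y n b * (if L a b then 1 else 0) := by linarith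
    rw [h1, Finset.mul_sum, ← Finset.sum_add_distrib]
    refine Finset.sum_congr rfl fun b _ => ?_
    split_ifs <;> ring
  have exz : ∀ a, ex n a = 0 → ∑ b ∈ E, y n b * (if L a b then 0 else P a b) = 0 := by
    intro a h
    have h1 := (Finset.sum_eq_zero_iff_of_nonneg fun b hb => mul_nonneg ((hy n).1 b hb)
      (by split_ifs; exacts [le_rfl, zero_le_one])).1 h
    refine Finset.sum_eq_zero fun b hb => ?_
    have h2 := h1 b hb
    by_cases hL : L a b
    · rw [if_pos hL, mul_zero]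
    · rw [if_neg hL, mul_one] at h2
      rw [h2, zero_mul]
  have used : ∀ a ∈ F, (∀ᶠ m in (hyperfilter ℕ : Filter ℕ), 0 < x m a) → L a b0 :=
    fun a ha h => hBc a ha h b0 hb0 hYb0
  set e := ex n a1 with he
  have hk1 := r1' n a1 ha1 (hn3 a1 ha1 hXa1)
  rw [split] at hk1
  have hepos : 0 < e := by
    rcases (ex0 n a1).lt_or_eq with h | h
    · exact h
    · exfalso
      rw [exz a1 h.symm, ← h, sub_zero, mul_one, add_zero] at hk1
      have := mul_lt_mul_of_pos_right hn4 hfpos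
      linarith
  have hge : ∀ a ∈ F, ex n a = 0 ∨ e ≤ ex n a := by
    intro a ha
    by_cases hLa : L a b0
    · rcases hrow a1 ha1 a ha b0 hb0 (hL1 b0 hb0 hYb0) hLa with h | h | h
      · right
        refine le_of_eq (Finset.sum_congr rfl fun b hb => ?_)
        by_cases hb' : L a1 b
        · rw [if_pos hb', if_pos ((h b hb).1 hb')]
        · rw [if_neg hb', if_neg fun h' => hb' ((h b hb).2 h')]
      · exfalso
        have : e = 0 := Finset.sum_eq_zero fun b hb => by rw [if_pos (h b hb), mul_zero]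
        linarith
      · left
        exact Finset.sum_eq_zero fun b hb => by rw [if_pos (h b hb), mul_zero]
    · right
      refine hn1.le.trans ?_
      have := Finset.single_le_sum (f := fun b => y n b * (if L a b then (0 : ℝ) else 1))
        (fun b hb => mul_nonneg ((hy n).1 b hb) (by split_ifs; exacts [le_rfl, zero_le_one])) hb0
      simpa only [if_neg hLa, mul_one] using this
  have heq : ∀ a ∈ F, 0 < X a → ex n a = e := by
    intro a ha hXa
    have hu := used a ha (pX a ha hXa)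
    rcases hrow a1 ha1 a ha b0 hb0 (hL1 b0 hb0 hYb0) hu with h | h | h
    · refine (Finset.sum_congr rfl fun b hb => ?_).symm
      by_cases hb' : L a1 b
      · rw [if_pos hb', if_pos ((h b hb).1 hb')]
      · rw [if_neg hb', if_neg fun h' => hb' ((h b hb).2 h')]
    · exfalso
      have : e = 0 := Finset.sum_eq_zero fun b hb => by rw [if_pos (h b hb), mul_zero]
      linarith
    · exfalso
      have h0 : ex n a = 0 := Finset.sum_eq_zero fun b hb => by rw [if_pos (h b hb), mul_zero]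
      have hk := r1' n a ha (hn3 a ha hXa)
      rw [split, exz a h0, h0, sub_zero, mul_one, add_zero] at hk
      have := mul_lt_mul_of_pos_right hn4 hfpos
      linarith
  have hW : (κ n * f n + (1 - κ n) * f n / e) * e = κ n * f n * e + (1 - κ n) * f n := by
    field_simp
  have hk0 : 0 ≤ (1 - κ n) * f n := mul_nonneg (by linarith) hfpos.le
  refine ⟨X, y n, κ n * f n + (1 - κ n) * f n / e, H, hXm, hy n, fun a ha => ?_, fun a ha h => ?_,
    l2, fun b hb h => (l2' b hb (hn2 b hb h)).ge, ?_⟩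
  · rw [split]
    have hr := r1 n a ha
    rw [split] at hr
    rcases hge a ha with h0 | h1
    · rw [exz a h0, h0]
      simp
    · have h2 : (1 - κ n) * f n ≤ (1 - κ n) * f n / e * ex n a := by
        rw [div_mul_eq_mul_div, le_div_iff₀ hepos]
        exact mul_le_mul_of_nonneg_left h1 hk0
      nlinarith [h2, hr]
  · rw [split]
    have hr := r1' n a ha (hn3 a ha h)
    rw [split] at hr
    rw [heq a ha h] at hr ⊢
    nlinarith [hW, hr]
  · by_contra hno
    push Not at hno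
    have : e = 0 := Finset.sum_eq_zero fun b hb => by
      rcases ((hy n).1 b hb).lt_or_eq with h | h
      · rw [if_pos (hno a1 ha1 b hb hXa1 h), mul_zero]
      · rw [← h, zero_mul]
    linarith

end

variable {S A B : Type*} {G : Game S A B} {T₁ T₂ : Set S}

theorem one_state [Finite S] {s : S} (hs1 : s ∉ T₁) (hs2 : s ∉ T₂) (hreg : Regular G s)
    (hex : ∃ a ∈ G.act₁ s, ∃ b ∈ G.act₂ s, G.δ s a b ≠ s)
    (hout : ∀ a ∈ G.act₁ s, ∀ b ∈ G.act₂ s, G.δ s a b ≠ s → HasNE G T₁ T₂ (G.δ s a b)) :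
    HasNE G T₁ T₂ s := by
  classical
  choose σ τ hσ hτ hN using exists_default G T₁ T₂
  let P : S → ℝ := fun k => G.pay T₁ k (σ k) (τ k)
  let Q : S → ℝ := fun k => G.pay T₂ k (σ k) (τ k)
  have hP0 : ∀ k, 0 ≤ P k := fun k => pay_nonneg (hσ k) (hτ k)
  have hQ0 : ∀ k, 0 ≤ Q k := fun k => pay_nonneg (hσ k) (hτ k)
  have hP1 : ∀ k, P k ≤ 1 := fun k => pay_le_one (hσ k) (hτ k)
  have hQ1 : ∀ k, Q k ≤ 1 := fun k => pay_le_one (hσ k) (hτ k)
  obtain ⟨x, y, v, w, hx, hy, h1, h1', h2, h2', p, hp, q, hq, hxp, hyq, hL⟩ :=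
    one_matrix (F := G.act₁ s) (E := G.act₂ s) (fun a b => G.δ s a b = s)
      (fun a b => (P (G.δ s a b) + 1) / 2) (fun a b => Q (G.δ s a b))
      (fun a b => by linarith [hP0 (G.δ s a b)]) (fun a b => by linarith [hP1 (G.δ s a b)])
      (fun a b => hQ0 _) (fun a b => hQ1 _) hreg hex
  let D : ST G T₁ T₂ {s} :=
    { σ := σ, τ := τ, hσ := hσ, hτ := hτ
      x := fun t => if t = s then x else fun _ => 1 / ((G.act₁ t).card : ℝ)
      y := fun t => if t = s then y else fun _ => 1 / ((G.act₂ t).card : ℝ)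
      hx := fun t => by
        by_cases h : t = s
        · subst h; simp only [if_true]; exact hx
        · simp only [if_neg h]; exact mix_unif (G.ne₁ t)
      hy := fun t => by
        by_cases h : t = s
        · subst h; simp only [if_true]; exact hy
        · simp only [if_neg h]; exact mix_unif (G.ne₂ t)
      hC₁ := fun t ht => by rw [Set.mem_singleton_iff.1 ht]; exact hs1
      hC₂ := fun t ht => by rw [Set.mem_singleton_iff.1 ht]; exact hs2
      hout := fun t ht c hc d hd h => by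
        obtain rfl := Set.mem_singleton_iff.1 ht
        exact hN _ (hout c hc d hd fun h' => h (Set.mem_singleton_iff.2 h')) }
  have Dx : D.x s = x := if_pos rfl
  have Dy : D.y s = y := if_pos rfl
  have e1 : ∀ a b, ext {s} (fun _ => 2 * v - 1) (D.F T₁) (G.δ s a b) =
      2 * (if G.δ s a b = s then v else (P (G.δ s a b) + 1) / 2) - 1 := by
    intro a b
    by_cases h : G.δ s a b = s
    · rw [ext_in (Set.mem_singleton_iff.2 h), if_pos h]
    · rw [ext_out fun h' => h (Set.mem_singleton_iff.1 h'),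
        D.F_out fun h' => h (Set.mem_singleton_iff.1 h'), if_neg h]
      change P _ = _
      ring
  have e2 : ∀ a b, ext {s} (fun _ => w) (D.F T₂) (G.δ s a b) =
      if G.δ s a b = s then w else Q (G.δ s a b) := by
    intro a b
    by_cases h : G.δ s a b = s
    · rw [ext_in (Set.mem_singleton_iff.2 h), if_pos h]
    · rw [ext_out fun h' => h (Set.mem_singleton_iff.1 h'),
        D.F_out fun h' => h (Set.mem_singleton_iff.1 h'), if_neg h]
  have e3 : ∀ a, ∑ b ∈ G.act₂ s, y b * ext {s} (fun _ => 2 * v - 1) (D.F T₁) (G.δ s a b) =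
      2 * ∑ b ∈ G.act₂ s, y b * (if G.δ s a b = s then v else (P (G.δ s a b) + 1) / 2) - 1 := by
    intro a
    have : ∑ b ∈ G.act₂ s, y b * ext {s} (fun _ => 2 * v - 1) (D.F T₁) (G.δ s a b) =
        ∑ b ∈ G.act₂ s, (2 * (y b * (if G.δ s a b = s then v else (P (G.δ s a b) + 1) / 2)) -
          y b) := Finset.sum_congr rfl fun b _ => by rw [e1]; ring
    rw [this, Finset.sum_sub_distrib, ← Finset.mul_sum, hy.2]
  refine D.core₀ (fun t ht => ?_) (fun _ => 2 * v - 1) (fun _ => w) (fun t ht a ha => ?_)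
    (fun t ht a ha h => ?_) (fun t ht b hb => ?_) (fun t ht b hb h => ?_) s
    (Set.mem_singleton s)
  · obtain rfl := Set.mem_singleton_iff.1 ht
    exact ⟨_, ReflTransGen.single ⟨ht, p, hp, q, hq, by rw [Dx]; exact hxp, by rw [Dy]; exact hyq,
      rfl⟩, fun h => hL (Set.mem_singleton_iff.1 h)⟩
  · obtain rfl := Set.mem_singleton_iff.1 ht
    rw [Dy, e3]
    linarith [h1 a ha]
  · obtain rfl := Set.mem_singleton_iff.1 ht
    rw [Dx] at h
    rw [Dy, e3]
    linarith [h1' a ha h]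
  · obtain rfl := Set.mem_singleton_iff.1 ht
    rw [Dx]
    simp only [e2]
    exact h2 b hb
  · obtain rfl := Set.mem_singleton_iff.1 ht
    rw [Dy] at h
    rw [Dx]
    simp only [e2]
    exact h2' b hb h

theorem hasNE_swap {s : S} (h : HasNE G.swap T₂ T₁ s) : HasNE G T₁ T₂ s := by
  obtain ⟨σ, τ, h⟩ := h
  exact ⟨_, _, swap_nash h⟩

theorem hasNE_swap' {s : S} (h : HasNE G T₁ T₂ s) : HasNE G.swap T₂ T₁ s :=
  hasNE_swap (G := G.swap) h

/-- A regular state all exits of which have an equilibrium has one. -/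
theorem regular [Finite S] {s : S} (hs1 : s ∉ T₁) (hs2 : s ∉ T₂)
    (hreg : Regular G s ∨ Regular G.swap s)
    (hex : ∃ a ∈ G.act₁ s, ∃ b ∈ G.act₂ s, G.δ s a b ≠ s)
    (hout : ∀ a ∈ G.act₁ s, ∀ b ∈ G.act₂ s, G.δ s a b ≠ s → HasNE G T₁ T₂ (G.δ s a b)) :
    HasNE G T₁ T₂ s := by
  rcases hreg with h | h
  · exact one_state hs1 hs2 h hex hout
  · obtain ⟨a, ha, b, hb, hab⟩ := hex
    exact hasNE_swap (one_state (G := G.swap) hs2 hs1 h ⟨b, hb, a, ha, hab⟩
      fun b hb a ha h' => hasNE_swap' (hout a ha b hb h'))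

end Pool.Agent.H40.NE
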