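import Pool.Agent.H95.NE.Full
import Pool.Agent.H40.NE.Turn2
import Pool.Agent.H40.NE.Cyc
import Pool.Agent.H40.NE.Ctl
import Pool.Agent.H40.NE.One

/-! Obstructions to the existence of a Nash equilibrium. -/

set_option autoImplicit false
set_option linter.unusedSectionVars false

open Finset Relation

namespace Pool.Agent.H40.NE

open Pool.Agent.H95.NE Pool.Agent.H95.NE.Game

variable {S A B : Type*} {G : Game S A B} {T₁ T₂ : Set S} {s₀ : S}

theorem open_of_not_full [Finite S] {s : S} (h : ¬ G.Full T₁ T₂ s)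
    (h' : ¬ (G.Stuck T₁ T₂ s ∧ G.swap.Stuck T₂ T₁ s)) : Open G T₁ T₂ s :=
  ⟨fun h1 => h (full_of_settled h1), fun h1 => h (full_of_settled' h1), h'⟩

theorem sum_of_not_full [Finite S] {s : S} (h : ¬ G.Full T₁ T₂ s) :
    G.val₁ T₁ s + G.val₂ T₂ s < 1 := not_le.1 fun h1 => h (full_of_sum' h1)

theorem open_of_bad [Finite S] {s : S} (h : ¬ HasNE G T₁ T₂ s) : Open G T₁ T₂ s :=
  open_of_not_full (fun h' => h (nash_of_full h')) fun h' => h (main_star G T₁ T₂ s (Or.inl h'))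

theorem sum_of_bad [Finite S] {s : S} (h : ¬ HasNE G T₁ T₂ s) :
    G.val₁ T₁ s + G.val₂ T₂ s < 1 := sum_of_not_full fun h' => h (nash_of_full h')

theorem stuck_of_bad [Finite S] {s : S} (h : ¬ HasNE G T₁ T₂ s) :
    ∃ d, ReflTransGen (LStep G T₁ T₂) s d ∧ G.Stuck T₁ T₂ d ∧ G.swap.Stuck T₂ T₁ d := by
  obtain ⟨d, hd, hd1, hd2, _⟩ := exists_dstuck (G := G) (T₁ := T₁) (T₂ := T₂) (s₀ := s)
    fun h' => h (nash_of_full h')
  have key : ∀ t, ReflTransGen (G.FStep T₁ T₂) t d → ∃ d', ReflTransGen (LStep G T₁ T₂) t d' ∧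
      G.Stuck T₁ T₂ d' ∧ G.swap.Stuck T₂ T₁ d' := by
    intro t ht
    induction ht using ReflTransGen.head_induction_on with
    | refl => exact ⟨d, ReflTransGen.refl, hd1, hd2⟩
    | @head t t' hstep _ ih =>
      by_cases hst : G.Stuck T₁ T₂ t ∧ G.swap.Stuck T₂ T₁ t
      · exact ⟨t, ReflTransGen.refl, hst.1, hst.2⟩
      · obtain ⟨d', h1, h2⟩ := ih
        exact ⟨d', ReflTransGen.head
          ⟨open_of_not_full hstep.1 hst, sum_of_not_full hstep.1, hstep.2⟩ h1, h2⟩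
  exact key s hd

/-- If there is no equilibrium from `s₀`, then there is an obstruction. -/
theorem exists_obstruction [Finite S] (h : ¬ HasNE G T₁ T₂ s₀) :
    ∃ C, Obstruction G T₁ T₂ s₀ C := by
  classical
  obtain ⟨m, hm, hbot⟩ := exists_bottom (BStep G T₁ T₂) s₀
  have hbad : ∀ t, ReflTransGen (BStep G T₁ T₂) s₀ t → ¬ HasNE G T₁ T₂ t := by
    intro t ht
    induction ht with
    | refl => exact h
    | tail _ hst _ => exact hst.2.1
  set C : Set S := {t | ReflTransGen (BStep G T₁ T₂) m t} with hC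
  have hmem : ∀ t ∈ C, ¬ HasNE G T₁ T₂ t := fun t ht => hbad t (hm.trans ht)
  have hn1 : ∀ t ∈ C, t ∉ T₁ := fun t ht h1 => hmem t ht (hasNE_of_mem₁ h1)
  have hn2 : ∀ t ∈ C, t ∉ T₂ := fun t ht h2 => hmem t ht (hasNE_of_mem₂ h2)
  have hout : ∀ s ∈ C, ∀ a ∈ G.act₁ s, ∀ b ∈ G.act₂ s, G.δ s a b ∉ C →
      HasNE G T₁ T₂ (G.δ s a b) := by
    intro s hs a ha b hb hnot
    by_contra hne
    exact hnot (ReflTransGen.tail hs ⟨hmem s hs, hne, a, ha, b, hb, rfl⟩)
  have hmC : m ∈ C := ReflTransGen.refl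
  have hB : ∀ s t, ReflTransGen (BStep G T₁ T₂) s t → s ∈ C → ReflTransGen (CStep G C) s t := by
    intro s t hst hs
    induction hst with
    | refl => exact ReflTransGen.refl
    | @tail b c h1 h2 ih =>
      have hb : b ∈ C := ReflTransGen.trans hs h1
      exact ih.tail ⟨hb, hb.tail h2, h2.2.2⟩
  have hsucc : ∀ s ∈ C, ∃ t ∈ C, CStep G C s t := by
    intro s hs
    by_contra hall
    push Not at hall
    refine hmem s hs (glue (hn1 s hs) (hn2 s hs) fun a ha b hb => hout s hs a ha b hb ?_)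
    intro hd
    exact hall _ hd ⟨hs, hd, a, ha, b, hb, rfl⟩
  have hconn : ∀ s ∈ C, ∀ t ∈ C, TransGen (CStep G C) s t := by
    intro s hs t ht
    obtain ⟨s', hs', hstep⟩ := hsucc s hs
    exact TransGen.head' hstep (hB s' t ((hbot s' hs').trans ht) hs')
  have hsing : ∀ s, C = {s} → (Regular G s ∨ Regular G.swap s) → False := by
    intro s hCs hreg
    have hiff : ∀ t, t ∈ C ↔ t = s := fun t => by rw [hCs]; exact Set.mem_singleton_iff
    have hsC : s ∈ C := (hiff s).2 rfl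
    by_cases hex : ∃ a ∈ G.act₁ s, ∃ b ∈ G.act₂ s, G.δ s a b ≠ s
    · exact hmem s hsC (regular (hn1 s hsC) (hn2 s hsC) hreg hex fun a ha b hb h =>
        hout s hsC a ha b hb fun h' => h ((hiff _).1 h'))
    · push Not at hex
      refine hmem s hsC (controlled hn1 hn2 (fun t ht => ?_) hout hsC)
      have hts : t = s := (hiff t).1 ht
      refine Or.inl fun a ha b hb b' hb' _ => ?_
      rw [hts] at ha hb hb' ⊢
      rw [hex a ha b' hb', hex a ha b hb]
  refine ⟨C, ⟨m, hmC⟩, fun s hs => open_of_bad (hmem s hs), fun s hs => sum_of_bad (hmem s hs),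
    fun s hs => ?_, hconn, fun s hs => stuck_of_bad (hmem s hs), fun s hs A' B' hbl => ?_, ?_,
    fun hrep => ?_, fun s hs => ⟨fun h => hsing s hs (Or.inl h), fun h => hsing s hs (Or.inr h)⟩⟩
  · refine ReflTransGen.mono (fun a b hab => ?_) _ _ (hm.trans hs)
    exact ⟨open_of_bad hab.1, hab.2.2⟩
  · by_contra hno
    push Not at hno
    exact hmem s hs (block (hn1 s hs) (hn2 s hs) hbl fun a ha b hb =>
      hout s hs a (hbl.sub₁ ha) b (hbl.sub₂ hb) (hno a ha b hb))
  · exact fun hctl => hmem m hmC (controlled hn1 hn2 hctl hout hmC)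
  · have hnx : ∀ s, ∃ t, s ∈ C → CStep G C s t := by
      intro s
      by_cases hs : s ∈ C
      · obtain ⟨t, _, ht⟩ := hsucc s hs
        exact ⟨t, fun _ => ht⟩
      · exact ⟨s, fun h => absurd h hs⟩
    choose nx hnx using hnx
    have huniq : ∀ s ∈ C, ∀ t, CStep G C s t → t = nx s := by
      intro s hs t ht
      obtain ⟨_, htC, a, ha, b, hb, rfl⟩ := ht
      obtain ⟨_, hnC, a', ha', b', hb', e⟩ := hnx s hs
      rw [← e] at hnC ⊢
      exact (hrep s hs).1 a ha b hb a' ha' b' hb' htC hnC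
    refine hmem m hmC (replay hn1 hn2 nx (fun s hs => (hnx s hs).2.1)
      (fun s hs a ha b hb hd => huniq s hs _ ⟨hs, hd, a, ha, b, hb, rfl⟩) (fun s hs t ht => ?_)
      (fun s hs a ha a' ha' b hb b' hb' h1 h2 h3 => (hrep s hs).2 a ha a' ha' b hb b' hb' h1 h2 h3)
      hout hmC)
    have key : ∀ t, TransGen (CStep G C) s t → ∃ n, nx^[n] s = t := by
      intro t ht
      induction ht with
      | single h1 => exact ⟨1, (huniq s hs _ h1).symm⟩
      | tail _ h2 ih =>
        obtain ⟨n, hn⟩ := ih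
        refine ⟨n + 1, ?_⟩
        rw [Function.iterate_succ_apply', hn]
        exact (huniq _ h2.1 _ h2).symm
    exact key t (hconn s hs t ht)

theorem nash_of_no_obstruction [Finite S] (G : Game S A B) (T₁ T₂ : Set S) (s₀ : S)
    (h : ∃ G' : Game S A B, ReflTransGen (Game.Prunes T₁ T₂) G G' ∧
      ∀ C, ¬ Obstruction G' T₁ T₂ s₀ C) : ∃ σ τ, G.IsNash T₁ T₂ s₀ σ τ := by
  obtain ⟨G', h1, h2⟩ := h
  refine prunes_nash h1 ?_
  by_contra hne
  obtain ⟨C, hC⟩ := exists_obstruction hne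
  exact h2 C hC

end Pool.Agent.H40.NE
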