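import Pool.Agent.H40.NE.Glue

/-! Stationary strategies inside a set `C`, followed by given equilibria after the exit from `C`. -/

set_option autoImplicit false
set_option linter.unusedSectionVars false

open Finset Relation Filter Topology

namespace Pool.Agent.H40.NE

open Pool.Agent.H95.NE Pool.Agent.H95.NE.Game

variable {S A B : Type*}

open Classical in
/-- `none` as long as the play stays in `C`; afterwards the exit state and the history since. -/
noncomputable def cmode (G : Game S A B) (C : Set S) (s : S) :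
    List (A × B) → Option (S × List (A × B))
  | [] => if s ∈ C then none else some (s, [])
  | p :: h => match cmode G C s h with
    | none => if G.st s (p :: h) ∈ C then none else some (G.st s (p :: h), [])
    | some q => some (q.1, p :: q.2)

section
variable {G : Game S A B} {C : Set S} {s : S}

theorem cmode_none_in {p : A × B} {h : List (A × B)} (hm : cmode G C s h = none)
    (hp : G.st s (p :: h) ∈ C) : cmode G C s (p :: h) = none := by
  simp only [cmode, hm, if_pos hp]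

theorem cmode_none_out {p : A × B} {h : List (A × B)} (hm : cmode G C s h = none)
    (hp : G.st s (p :: h) ∉ C) : cmode G C s (p :: h) = some (G.st s (p :: h), []) := by
  simp only [cmode, hm, if_neg hp]

theorem cmode_some {p : A × B} {h : List (A × B)} {q : S × List (A × B)}
    (hm : cmode G C s h = some q) : cmode G C s (p :: h) = some (q.1, p :: q.2) := by
  simp only [cmode, hm]

theorem cmode_append (hs : s ∈ C) (p : A × B) : ∀ h, cmode G C s (h ++ [p]) =
    cmode G C (G.δ s p.1 p.2) h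
  | [] => by
    have h0 : cmode G C s [] = none := by simp only [cmode, if_pos hs]
    change cmode G C s [p] = _
    simp only [cmode, if_pos hs]
    rfl
  | q :: h => by
    have ih := cmode_append hs p h
    have e : G.st s (q :: (h ++ [p])) = G.st (G.δ s p.1 p.2) (q :: h) :=
      st_append s (q :: h) [p]
    rw [List.cons_append]
    rcases hm : cmode G C (G.δ s p.1 p.2) h with _ | q'
    · rw [hm] at ih
      by_cases hp : G.st (G.δ s p.1 p.2) (q :: h) ∈ C
      · rw [cmode_none_in hm hp, cmode_none_in ih (by rw [e]; exact hp)]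
      · rw [cmode_none_out hm hp, cmode_none_out ih (by rw [e]; exact hp), e]
    · rw [hm] at ih
      rw [cmode_some hm, cmode_some ih]

theorem cmode_out (hs : s ∉ C) : ∀ h, cmode G C s h = some (s, h)
  | [] => by simp only [cmode, if_neg hs]
  | p :: h => by
    have ih := cmode_out hs h
    simp only [cmode, ih]

theorem cmode_st : ∀ h, ∀ q, cmode G C s h = some q → G.st s h = G.st q.1 q.2
  | [], q, hq => by
    by_cases hs : s ∈ C
    · simp only [cmode, if_pos hs] at hq; exact absurd hq (by simp)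
    · simp only [cmode, if_neg hs, Option.some.injEq] at hq
      rw [← hq]
  | p :: h, q, hq => by
    rcases hm : cmode G C s h with _ | q'
    · by_cases hp : G.st s (p :: h) ∈ C
      · simp only [cmode, hm, if_pos hp] at hq; exact absurd hq (by simp)
      · simp only [cmode, hm, if_neg hp, Option.some.injEq] at hq
        rw [← hq]; rfl
    · simp only [cmode, hm, Option.some.injEq] at hq
      rw [← hq]
      have := cmode_st h q' hm
      change G.δ (G.st s h) p.1 p.2 = G.δ (G.st q'.1 q'.2) p.1 p.2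
      rw [this]

end

structure ST (G : Game S A B) (T₁ T₂ C : Set S) where
  σ : S → List (A × B) → A → ℝ
  τ : S → List (A × B) → B → ℝ
  hσ : ∀ k, G.Strat₁ k (σ k)
  hτ : ∀ k, G.Strat₂ k (τ k)
  x : S → A → ℝ
  y : S → B → ℝ
  hx : ∀ s, Mix (G.act₁ s) (x s)
  hy : ∀ s, Mix (G.act₂ s) (y s)
  hC₁ : ∀ s ∈ C, s ∉ T₁
  hC₂ : ∀ s ∈ C, s ∉ T₂
  hout : ∀ s ∈ C, ∀ a ∈ G.act₁ s, ∀ b ∈ G.act₂ s, G.δ s a b ∉ C →
    G.IsNash T₁ T₂ (G.δ s a b) (σ (G.δ s a b)) (τ (G.δ s a b))

namespace ST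

variable {G : Game S A B} {T₁ T₂ C : Set S} (D : ST G T₁ T₂ C)

noncomputable def c₁ (s : S) (h : List (A × B)) : A → ℝ := match cmode G C s h with
  | none => D.x (G.st s h)
  | some q => D.σ q.1 q.2

noncomputable def c₂ (s : S) (h : List (A × B)) : B → ℝ := match cmode G C s h with
  | none => D.y (G.st s h)
  | some q => D.τ q.1 q.2

theorem c₁_append {s : S} (hs : s ∈ C) (h : List (A × B)) (p : A × B) :
    D.c₁ s (h ++ [p]) = D.c₁ (G.δ s p.1 p.2) h := by
  have e : G.st s (h ++ [p]) = G.st (G.δ s p.1 p.2) h := st_append s h [p]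
  simp only [c₁, cmode_append hs p h, e]

theorem c₂_append {s : S} (hs : s ∈ C) (h : List (A × B)) (p : A × B) :
    D.c₂ s (h ++ [p]) = D.c₂ (G.δ s p.1 p.2) h := by
  have e : G.st s (h ++ [p]) = G.st (G.δ s p.1 p.2) h := st_append s h [p]
  simp only [c₂, cmode_append hs p h, e]

theorem c₁_out {s : S} (hs : s ∉ C) : D.c₁ s = D.σ s := by
  funext h
  simp only [c₁, cmode_out hs h]

theorem c₂_out {s : S} (hs : s ∉ C) : D.c₂ s = D.τ s := by
  funext h
  simp only [c₂, cmode_out hs h]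

theorem c₁_nil {s : S} (hs : s ∈ C) : D.c₁ s [] = D.x s := by
  simp only [c₁, cmode, if_pos hs]
  rfl

theorem c₂_nil {s : S} (hs : s ∈ C) : D.c₂ s [] = D.y s := by
  simp only [c₂, cmode, if_pos hs]
  rfl

theorem s₁ (s : S) : G.Strat₁ s (D.c₁ s) := by
  intro h
  rcases hm : cmode G C s h with _ | q
  · simp only [c₁, hm]; exact D.hx _
  · simp only [c₁, hm]
    rw [cmode_st h q hm]
    exact D.hσ _ _

theorem s₂ (s : S) : G.Strat₂ s (D.c₂ s) := by
  intro h
  rcases hm : cmode G C s h with _ | q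
  · simp only [c₂, hm]; exact D.hy _
  · simp only [c₂, hm]
    rw [cmode_st h q hm]
    exact D.hτ _ _

/-- the payoffs of these strategies -/
noncomputable def F (T : Set S) (s : S) : ℝ := G.pay T s (D.c₁ s) (D.c₂ s)

theorem F_nonneg (T : Set S) (s : S) : 0 ≤ D.F T s := pay_nonneg (D.s₁ s) (D.s₂ s)

theorem F_out {T : Set S} {s : S} (hs : s ∉ C) : D.F T s = G.pay T s (D.σ s) (D.τ s) := by
  unfold F
  rw [D.c₁_out hs, D.c₂_out hs]

theorem F_step {T : Set S} {s : S} (hs : s ∈ C) (hT : s ∉ T) : D.F T s =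
    ∑ a ∈ G.act₁ s, ∑ b ∈ G.act₂ s, D.x s a * D.y s b * D.F T (G.δ s a b) := by
  unfold F
  rw [pay_step hT (D.s₁ s) (D.s₂ s), D.c₁_nil hs, D.c₂_nil hs]
  refine Finset.sum_congr rfl fun a _ => Finset.sum_congr rfl fun b _ => ?_
  simp only [D.c₁_append hs, D.c₂_append hs]

theorem prob_front {s : S} {T : Set S} (hT : s ∉ T) (σ : List (A × B) → A → ℝ)
    (τ : List (A × B) → B → ℝ) (n : ℕ) : G.prob T s σ τ (n + 1) [] =
      ∑ a ∈ G.act₁ s, ∑ b ∈ G.act₂ s, σ [] a * τ [] b *
        G.prob T (G.δ s a b) (fun h => σ (h ++ [(a, b)])) (fun h => τ (h ++ [(a, b)])) n [] := by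
  rw [prob_succ (h := []) hT]
  refine Finset.sum_congr rfl fun a _ => Finset.sum_congr rfl fun b _ => ?_
  have := prob_append (G := G) (T := T) s σ τ [(a, b)] n []
  rw [List.nil_append] at this
  rw [this]
  rfl

theorem verify
    (V₁ : ∀ s ∈ C, ∀ a ∈ G.act₁ s, ∑ b ∈ G.act₂ s, D.y s b * D.F T₁ (G.δ s a b) ≤ D.F T₁ s)
    (V₂ : ∀ s ∈ C, ∀ b ∈ G.act₂ s, ∑ a ∈ G.act₁ s, D.x s a * D.F T₂ (G.δ s a b) ≤ D.F T₂ s)
    {s : S} (hs : s ∈ C) : HasNE G T₁ T₂ s := by
  have d₁ : ∀ n, ∀ s ∈ C, ∀ ρ, G.Strat₁ s ρ → G.prob T₁ s ρ (D.c₂ s) n [] ≤ D.F T₁ s := by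
    intro n
    induction n with
    | zero =>
      intro s hs ρ _
      rw [prob_zero' (h := []) (D.hC₁ s hs)]
      exact D.F_nonneg _ _
    | succ n ih =>
      intro s hs ρ hρ
      rw [prob_front (D.hC₁ s hs), dsum]
      refine mix_le (hρ []) fun a ha => le_trans ?_ (V₁ s hs a ha)
      rw [D.c₂_nil hs]
      refine Finset.sum_le_sum fun b hb => mul_le_mul_of_nonneg_left ?_ ((D.hy s).1 b hb)
      simp only [D.c₂_append hs]
      have hρ' := strat₁_append hρ [(a, b)]
      by_cases hd : G.δ s a b ∈ C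
      · exact ih _ hd _ hρ'
      · rw [D.c₂_out hd, D.F_out hd]
        exact (prob_le_pay hρ' (D.hτ _) n).trans ((D.hout s hs a ha b hb hd).2.2.1 _ hρ')
  have d₂ : ∀ n, ∀ s ∈ C, ∀ ρ, G.Strat₂ s ρ → G.prob T₂ s (D.c₁ s) ρ n [] ≤ D.F T₂ s := by
    intro n
    induction n with
    | zero =>
      intro s hs ρ _
      rw [prob_zero' (h := []) (D.hC₂ s hs)]
      exact D.F_nonneg _ _
    | succ n ih =>
      intro s hs ρ hρ
      rw [prob_front (D.hC₂ s hs), dsum']
      refine mix_le (hρ []) fun b hb => le_trans ?_ (V₂ s hs b hb)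
      rw [D.c₁_nil hs]
      refine Finset.sum_le_sum fun a ha => mul_le_mul_of_nonneg_left ?_ ((D.hx s).1 a ha)
      simp only [D.c₁_append hs]
      have hρ' := strat₂_append hρ [(a, b)]
      by_cases hd : G.δ s a b ∈ C
      · exact ih _ hd _ hρ'
      · rw [D.c₁_out hd, D.F_out hd]
        exact (prob_le_pay (D.hσ _) hρ' n).trans ((D.hout s hs a ha b hb hd).2.2.2 _ hρ')
  exact ⟨D.c₁ s, D.c₂ s, D.s₁ s, D.s₂ s, fun ρ hρ => pay_le fun n => d₁ n s hs ρ hρ,
    fun ρ hρ => pay_le fun n => d₂ n s hs ρ hρ⟩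

end ST

/-- a move of positive probability that starts in `C` -/
def PS (G : Game S A B) (C : Set S) (x : S → A → ℝ) (y : S → B → ℝ) (s t : S) : Prop :=
  s ∈ C ∧ ∃ a ∈ G.act₁ s, ∃ b ∈ G.act₂ s, 0 < x s a ∧ 0 < y s b ∧ G.δ s a b = t

theorem max_principle [Finite S] {G : Game S A B} {C : Set S} {x : S → A → ℝ} {y : S → B → ℝ}
    (hx : ∀ s, Mix (G.act₁ s) (x s)) (hy : ∀ s, Mix (G.act₂ s) (y s)) {F φ : S → ℝ}
    (hF : ∀ s ∈ C, ∑ a ∈ G.act₁ s, ∑ b ∈ G.act₂ s, x s a * y s b * F (G.δ s a b) ≤ F s)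
    (hφ : ∀ s ∈ C, φ s ≤ ∑ a ∈ G.act₁ s, ∑ b ∈ G.act₂ s, x s a * y s b * φ (G.δ s a b))
    (hout : ∀ s, s ∉ C → φ s ≤ F s)
    (habs : ∀ s ∈ C, ∃ t, ReflTransGen (PS G C x y) s t ∧ t ∉ C) :
    ∀ s ∈ C, φ s ≤ F s := by
  intro s₀ hs₀
  by_contra hlt
  push Not at hlt
  obtain ⟨s₁, hs₁, hmax⟩ := Set.exists_max_image C (fun s => φ s - F s) (Set.toFinite C)
    ⟨s₀, hs₀⟩
  set m := φ s₁ - F s₁ with hm
  have hmpos : 0 < m := by
    have := hmax s₀ hs₀
    linarith
  have hle : ∀ s, φ s - F s ≤ m := by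
    intro s
    by_cases hs : s ∈ C
    · exact hmax s hs
    · have := hout s hs; linarith
  have hstep : ∀ s t, s ∈ C → φ s - F s = m → PS G C x y s t → t ∈ C ∧ φ t - F t = m := by
    rintro s t hs hsm ⟨_, a, ha, b, hb, hxa, hyb, rfl⟩
    have h1 : m ≤ ∑ a ∈ G.act₁ s, ∑ b ∈ G.act₂ s, x s a * y s b *
        (φ (G.δ s a b) - F (G.δ s a b)) := by
      simp only [mul_sub, Finset.sum_sub_distrib]
      have := hφ s hs
      have := hF s hs
      linarith
    have h2 := dsum_eq (hx s) (hy s) (f := fun a b => φ (G.δ s a b) - F (G.δ s a b)) (c := m)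
      (fun a _ b _ _ _ => hle _) h1 ha hb hxa hyb
    refine ⟨?_, h2⟩
    by_contra hn
    have := hout _ hn
    linarith
  obtain ⟨t, ht, htC⟩ := habs s₁ hs₁
  have key : ∀ t, ReflTransGen (PS G C x y) s₁ t → t ∈ C ∧ φ t - F t = m := by
    intro t ht
    induction ht with
    | refl => exact ⟨hs₁, rfl⟩
    | tail _ h ih => exact hstep _ _ ih.1 ih.2 h
  exact htC (key t ht).1

end Pool.Agent.H40.NE
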