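import Mathlib

/-! Values of turn-based games with arbitrary nonnegative final payoffs. -/

set_option autoImplicit false

open Finset

namespace Pool.Agent.H40.NE

section
variable {S : Type*} (C : Set S) (N : S → Finset S) (hN : ∀ s, (N s).Nonempty) (own : S → Prop)
  (f : S → ℝ)

open Classical in
/-- the value of the game with `n` stages -/
noncomputable def ub : ℕ → S → ℝ
  | 0, s => if s ∈ C then 0 else f s
  | n + 1, s => if s ∈ C then
      (if own s then (N s).sup' (hN s) (ub n) else (N s).inf' (hN s) (ub n)) else f s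

theorem ub_out {s : S} (hs : s ∉ C) (n : ℕ) : ub C N hN own f n s = f s := by
  cases n <;> simp [ub, hs]

theorem ub_zero {s : S} (hs : s ∈ C) : ub C N hN own f 0 s = 0 := by simp [ub, hs]

theorem ub_own {s : S} (hs : s ∈ C) (ho : own s) (n : ℕ) :
    ub C N hN own f (n + 1) s = (N s).sup' (hN s) (ub C N hN own f n) := by
  simp [ub, hs, ho]

theorem ub_opp {s : S} (hs : s ∈ C) (ho : ¬ own s) (n : ℕ) :
    ub C N hN own f (n + 1) s = (N s).inf' (hN s) (ub C N hN own f n) := by
  simp [ub, hs, ho]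

variable (hf : ∀ s, 0 ≤ f s)

include hf in
theorem ub_nonneg (n : ℕ) : ∀ s, 0 ≤ ub C N hN own f n s := by
  induction n with
  | zero =>
    intro s
    by_cases hs : s ∈ C
    · rw [ub_zero C N hN own f hs]
    · rw [ub_out C N hN own f hs]; exact hf s
  | succ n ih =>
    intro s
    by_cases hs : s ∈ C
    · by_cases ho : own s
      · rw [ub_own C N hN own f hs ho]
        obtain ⟨t, ht⟩ := hN s
        exact (ih t).trans (Finset.le_sup' _ ht)
      · rw [ub_opp C N hN own f hs ho]
        exact Finset.le_inf' _ _ fun t _ => ih t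
    · rw [ub_out C N hN own f hs]; exact hf s

include hf in
theorem ub_mono_succ (n : ℕ) : ∀ s, ub C N hN own f n s ≤ ub C N hN own f (n + 1) s := by
  induction n with
  | zero =>
    intro s
    by_cases hs : s ∈ C
    · rw [ub_zero C N hN own f hs]; exact ub_nonneg C N hN own f hf _ _
    · rw [ub_out C N hN own f hs, ub_out C N hN own f hs]
  | succ n ih =>
    intro s
    by_cases hs : s ∈ C
    · by_cases ho : own s
      · rw [ub_own C N hN own f hs ho, ub_own C N hN own f hs ho]
        exact Finset.sup'_mono_fun fun t _ => ih t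
      · rw [ub_opp C N hN own f hs ho, ub_opp C N hN own f hs ho]
        exact Finset.inf'_mono_fun fun t _ => ih t
    · rw [ub_out C N hN own f hs, ub_out C N hN own f hs]

include hf in
theorem ub_mono {m n : ℕ} (h : m ≤ n) (s : S) : ub C N hN own f m s ≤ ub C N hN own f n s :=
  monotone_nat_of_le_succ (fun n => ub_mono_succ C N hN own f hf n s) h

theorem ub_mem (n : ℕ) : ∀ s, ub C N hN own f n s ∈ insert 0 (Set.range f) := by
  induction n with
  | zero =>
    intro s
    by_cases hs : s ∈ C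
    · rw [ub_zero C N hN own f hs]; exact Set.mem_insert _ _
    · rw [ub_out C N hN own f hs]; exact Set.mem_insert_of_mem _ ⟨s, rfl⟩
  | succ n ih =>
    intro s
    by_cases hs : s ∈ C
    · by_cases ho : own s
      · rw [ub_own C N hN own f hs ho]
        obtain ⟨t, _, ht⟩ := Finset.exists_mem_eq_sup' (hN s) (ub C N hN own f n)
        rw [ht]; exact ih t
      · rw [ub_opp C N hN own f hs ho]
        obtain ⟨t, _, ht⟩ := Finset.exists_mem_eq_inf' (hN s) (ub C N hN own f n)
        rw [ht]; exact ih t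
    · rw [ub_out C N hN own f hs]; exact Set.mem_insert_of_mem _ ⟨s, rfl⟩

end

theorem exists_val {S : Type*} [Finite S] (C : Set S) (N : S → Finset S)
    (hN : ∀ s, (N s).Nonempty) (own : S → Prop) (f : S → ℝ) (hf : ∀ s, 0 ≤ f s) :
    ∃ (u : S → ℝ) (r : S → ℕ), (∀ s, 0 ≤ u s) ∧ (∀ s ∉ C, u s = f s) ∧
      (∀ s ∈ C, own s → ∀ t ∈ N s, u t ≤ u s) ∧
      (∀ s ∈ C, own s → ∃ t ∈ N s, u t = u s ∧ (0 < u s → r t < r s)) ∧
      (∀ s ∈ C, ¬ own s → ∀ t ∈ N s, u s ≤ u t) ∧
      (∀ s ∈ C, ¬ own s → ∃ t ∈ N s, u t = u s) ∧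
      (∀ s ∈ C, ¬ own s → 0 < u s → ∀ t ∈ N s, u t = u s → r t < r s) := by
  classical
  have hfin : (insert 0 (Set.range f)).Finite := (Set.finite_range f).insert 0
  let U := ub C N hN own f
  have hbdd : ∀ s, BddAbove (Set.range fun n => U n s) := fun s =>
    hfin.bddAbove.mono (by rintro _ ⟨n, rfl⟩; exact ub_mem C N hN own f n s)
  have hatt : ∀ s, ∃ n, U n s = ⨆ n, U n s := by
    intro s
    have hne : (Set.range fun n => U n s).Nonempty := Set.range_nonempty _
    have hfr : (Set.range fun n => U n s).Finite :=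
      hfin.subset (by rintro _ ⟨n, rfl⟩; exact ub_mem C N hN own f n s)
    obtain ⟨n, hn⟩ := hne.csSup_mem hfr
    exact ⟨n, hn⟩
  have hle : ∀ n s, U n s ≤ ⨆ n, U n s := fun n s => le_ciSup (hbdd s) n
  obtain ⟨n₀, hn₀⟩ : ∃ n₀, ∀ s, U n₀ s = ⨆ n, U n s := by
    choose k hk using hatt
    obtain ⟨K, hK⟩ := (Set.finite_range k).bddAbove
    refine ⟨K, fun s => le_antisymm (hle K s) ?_⟩
    rw [← hk s]
    exact ub_mono C N hN own f hf (hK ⟨s, rfl⟩) s
  have h1 : ∀ s ∈ C, own s → ∀ t ∈ N s, (⨆ n, U n t) ≤ ⨆ n, U n s := by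
    intro s hs ho t ht
    rw [← hn₀ t]
    refine le_trans ?_ (hle (n₀ + 1) s)
    change _ ≤ ub C N hN own f (n₀ + 1) s
    rw [ub_own C N hN own f hs ho]
    exact Finset.le_sup' _ ht
  have h2 : ∀ s ∈ C, ¬ own s → ∀ t ∈ N s, (⨆ n, U n s) ≤ ⨆ n, U n t := by
    intro s hs ho t ht
    obtain ⟨n, hn⟩ := hatt s
    rw [← hn]
    refine le_trans (ub_mono_succ C N hN own f hf n s) ?_
    rw [ub_opp C N hN own f hs ho]
    exact (Finset.inf'_le _ ht).trans (hle n t)
  refine ⟨fun s => ⨆ n, U n s, fun s => Nat.find (hatt s), fun s => ?_, fun s hs => ?_, h1,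
    fun s hs ho => ?_, h2, fun s hs ho => ?_, fun s hs ho hpos t ht htu => ?_⟩
  · exact (ub_nonneg C N hN own f hf 0 s).trans (hle 0 s)
  · have : ∀ n, U n s = f s := fun n => ub_out C N hN own f hs n
    simp only [this, ciSup_const]
  · by_cases hpos : 0 < ⨆ n, U n s
    · have hspec := Nat.find_spec (hatt s)
      set m := Nat.find (hatt s) with hm
      cases hmm : m with
      | zero =>
        exfalso
        rw [hmm] at hspec
        have : U 0 s = 0 := ub_zero C N hN own f hs
        rw [← hspec, this] at hpos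
        exact lt_irrefl _ hpos
      | succ k =>
        rw [hmm] at hspec
        have e : U (k + 1) s = (N s).sup' (hN s) (U k) := ub_own C N hN own f hs ho k
        obtain ⟨t, ht, e2⟩ := Finset.exists_mem_eq_sup' (hN s) (U k)
        have e3 : U k t = ⨆ n, U n s := by rw [← e2, ← e, hspec]
        have e4 : (⨆ n, U n t) = ⨆ n, U n s := le_antisymm (h1 s hs ho t ht) (e3 ▸ hle k t)
        refine ⟨t, ht, e4, fun _ => ?_⟩
        have : Nat.find (hatt t) ≤ k := Nat.find_min' (hatt t) (by rw [e3, e4])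
        change Nat.find (hatt t) < Nat.find (hatt s)
        omega
    · obtain ⟨t, ht⟩ := hN s
      have a1 := h1 s hs ho t ht
      have a2 : 0 ≤ ⨆ n, U n t := (ub_nonneg C N hN own f hf 0 t).trans (hle 0 t)
      exact ⟨t, ht, by linarith, fun h => absurd h hpos⟩
  · have e : U (n₀ + 1) s = (N s).inf' (hN s) (U n₀) := ub_opp C N hN own f hs ho n₀
    obtain ⟨t, ht, e2⟩ := Finset.exists_mem_eq_inf' (hN s) (U n₀)
    refine ⟨t, ht, le_antisymm ?_ (h2 s hs ho t ht)⟩
    change (⨆ n, U n t) ≤ ⨆ n, U n s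
    rw [← hn₀ t, ← e2, ← e]
    exact hle _ _
  · have hspec := Nat.find_spec (hatt s)
    set m := Nat.find (hatt s) with hm
    cases hmm : m with
    | zero =>
      exfalso
      rw [hmm] at hspec
      have : U 0 s = 0 := ub_zero C N hN own f hs
      change 0 < ⨆ n, U n s at hpos
      rw [← hspec, this] at hpos
      exact lt_irrefl _ hpos
    | succ k =>
      rw [hmm] at hspec
      have e : U (k + 1) s = (N s).inf' (hN s) (U k) := ub_opp C N hN own f hs ho k
      have e3 : (⨆ n, U n s) ≤ U k t := by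
        rw [← hspec, e]; exact Finset.inf'_le _ ht
      have : Nat.find (hatt t) ≤ k :=
        Nat.find_min' (hatt t) (le_antisymm (hle k t) (by
          change (⨆ n, U n t) = ⨆ n, U n s at htu
          rw [htu]; exact e3))
      change Nat.find (hatt t) < Nat.find (hatt s)
      omega

end Pool.Agent.H40.NE
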