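import Pool.Agent.H40.NE.Glue
import Pool.Agent.H40.NE.Val

/-! Sets of turn-based states all exits of which have an equilibrium. -/

set_option autoImplicit false
set_option linter.unusedSectionVars false

open Finset Relation Filter Topology

namespace Pool.Agent.H40.NE

open Pool.Agent.H95.NE Pool.Agent.H95.NE.Game

variable {S A B : Type*}

open Classical in
/-- the pure action `a₀` as a mixed action -/
noncomputable def dir {A : Type*} (a₀ : A) : A → ℝ := fun a => if a = a₀ then 1 else 0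

theorem mix_dir {A : Type*} {F : Finset A} {a₀ : A} (h : a₀ ∈ F) : Mix F (dir a₀) := by
  classical
  refine ⟨fun a _ => ?_, ?_⟩
  · unfold dir; split_ifs <;> norm_num
  · unfold dir; rw [Finset.sum_ite_eq' F a₀, if_pos h]

theorem sum_dir {A : Type*} {F : Finset A} {a₀ : A} (h : a₀ ∈ F) (g : A → ℝ) :
    ∑ a ∈ F, dir a₀ a * g a = g a₀ := by
  classical
  rw [Finset.sum_eq_single a₀]
  · simp [dir]
  · intro b _ hb
    simp [dir, hb]
  · exact fun h' => absurd h h'

/-- All the data which are used for a set `C` of turn-based states. -/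
structure TB (G : Game S A B) (T₁ T₂ C : Set S) where
  σ : S → List (A × B) → A → ℝ
  τ : S → List (A × B) → B → ℝ
  hσ : ∀ k, G.Strat₁ k (σ k)
  hτ : ∀ k, G.Strat₂ k (τ k)
  α : S → A
  a₁ : S → A
  β : S → B
  b₂ : S → B
  hα : ∀ s, α s ∈ G.act₁ s
  ha₁ : ∀ s, a₁ s ∈ G.act₁ s
  hβ : ∀ s, β s ∈ G.act₂ s
  hb₂ : ∀ s, b₂ s ∈ G.act₂ s
  ctl : S → Prop
  hctl : ∀ s ∈ C, ctl s → ∀ a ∈ G.act₁ s, ∀ b ∈ G.act₂ s, ∀ b' ∈ G.act₂ s, G.δ s a b = G.δ s a b'
  hctl' : ∀ s ∈ C, ¬ ctl s → ∀ a ∈ G.act₁ s, ∀ a' ∈ G.act₁ s, ∀ b ∈ G.act₂ s,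
    G.δ s a b = G.δ s a' b
  hC₁ : ∀ s ∈ C, s ∉ T₁
  hC₂ : ∀ s ∈ C, s ∉ T₂
  hout : ∀ s ∈ C, ∀ a ∈ G.act₁ s, ∀ b ∈ G.act₂ s, G.δ s a b ∉ C →
    G.IsNash T₁ T₂ (G.δ s a b) (σ (G.δ s a b)) (τ (G.δ s a b))
  u : S → ℝ
  w : S → ℝ
  F : S → ℝ
  H : S → ℝ
  u0 : ∀ s, 0 ≤ u s
  w0 : ∀ s, 0 ≤ w s
  u_out : ∀ k ∉ C, u k = G.pay T₁ k (σ k) (τ k)
  w_out : ∀ k ∉ C, w k = G.pay T₂ k (σ k) (τ k)
  F_out : ∀ k ∉ C, F k = G.pay T₁ k (σ k) (τ k)
  H_out : ∀ k ∉ C, H k = G.pay T₂ k (σ k) (τ k)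
  u1 : ∀ s ∈ C, ctl s → ∀ a ∈ G.act₁ s, ∀ b ∈ G.act₂ s, u (G.δ s a b) ≤ u s
  u2 : ∀ s ∈ C, ¬ ctl s → ∀ a ∈ G.act₁ s, u (G.δ s a (b₂ s)) ≤ u s
  w1 : ∀ s ∈ C, ¬ ctl s → ∀ a ∈ G.act₁ s, ∀ b ∈ G.act₂ s, w (G.δ s a b) ≤ w s
  w2 : ∀ s ∈ C, ctl s → ∀ b ∈ G.act₂ s, w (G.δ s (a₁ s) b) ≤ w s
  uF : ∀ s ∈ C, u s ≤ F s
  wH : ∀ s ∈ C, w s ≤ H s
  F_step : ∀ s ∈ C, F (G.δ s (α s) (β s)) = F s
  H_step : ∀ s ∈ C, H (G.δ s (α s) (β s)) = H s
  path : ∀ s ∈ C, (F s = 0 ∧ H s = 0) ∨ ∃ k ∉ C, (∃ n, ∃ p : ℕ → S, p 0 = s ∧ p (n + 1) = k ∧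
    ∀ i ≤ n, p i ∈ C ∧ p (i + 1) = G.δ (p i) (α (p i)) (β (p i))) ∧
    F s = G.pay T₁ k (σ k) (τ k) ∧ H s = G.pay T₂ k (σ k) (τ k)

/-- The phases of the play: on the path, off the path inside `C`, outside of `C` -/
inductive Mode (S A B : Type*) where
  | on : Mode S A B
  | off : Mode S A B
  | out : S → List (A × B) → Mode S A B

namespace TB

variable {G : Game S A B} {T₁ T₂ C : Set S} (D : TB G T₁ T₂ C) (s : S)

open Classical in
noncomputable def mode : List (A × B) → Mode S A B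
  | [] => Mode.on
  | p :: h => match mode h with
    | Mode.out k h' => Mode.out k (p :: h')
    | Mode.on => if G.st s (p :: h) ∉ C then Mode.out (G.st s (p :: h)) [] else
        if G.st s (p :: h) = G.δ (G.st s h) (D.α (G.st s h)) (D.β (G.st s h)) then Mode.on
        else Mode.off
    | Mode.off => if G.st s (p :: h) ∉ C then Mode.out (G.st s (p :: h)) [] else Mode.off

theorem mode_out_cons {h : List (A × B)} {k : S} {h' : List (A × B)}
    (hm : D.mode s h = Mode.out k h') (p : A × B) : D.mode s (p :: h) = Mode.out k (p :: h') := by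
  simp only [mode, hm]

theorem mode_out_append {h1 : List (A × B)} {k : S} (hm : D.mode s h1 = Mode.out k []) :
    ∀ h, D.mode s (h ++ h1) = Mode.out k h
  | [] => hm
  | p :: h => D.mode_out_cons s (mode_out_append hm h) p

theorem mode_on_out {h : List (A × B)} (hm : D.mode s h = Mode.on) {p : A × B}
    (hp : G.st s (p :: h) ∉ C) : D.mode s (p :: h) = Mode.out (G.st s (p :: h)) [] := by
  simp only [mode, hm]
  rw [if_pos hp]

theorem mode_off_out {h : List (A × B)} (hm : D.mode s h = Mode.off) {p : A × B}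
    (hp : G.st s (p :: h) ∉ C) : D.mode s (p :: h) = Mode.out (G.st s (p :: h)) [] := by
  simp only [mode, hm]
  rw [if_pos hp]

theorem mode_off_off {h : List (A × B)} (hm : D.mode s h = Mode.off) {p : A × B}
    (hp : G.st s (p :: h) ∈ C) : D.mode s (p :: h) = Mode.off := by
  simp only [mode, hm]
  rw [if_neg (not_not.2 hp)]

theorem mode_on_on {h : List (A × B)} (hm : D.mode s h = Mode.on) {p : A × B}
    (hp : G.st s (p :: h) ∈ C)
    (hn : G.st s (p :: h) = G.δ (G.st s h) (D.α (G.st s h)) (D.β (G.st s h))) :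
    D.mode s (p :: h) = Mode.on := by
  simp only [mode, hm]
  rw [if_neg (not_not.2 hp), if_pos hn]

theorem mode_on_off {h : List (A × B)} (hm : D.mode s h = Mode.on) {p : A × B}
    (hp : G.st s (p :: h) ∈ C)
    (hn : G.st s (p :: h) ≠ G.δ (G.st s h) (D.α (G.st s h)) (D.β (G.st s h))) :
    D.mode s (p :: h) = Mode.off := by
  simp only [mode, hm]
  rw [if_neg (not_not.2 hp), if_neg hn]

variable {s}

theorem mode_mem (hs : s ∈ C) : ∀ h, (D.mode s h = Mode.on ∨ D.mode s h = Mode.off →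
    G.st s h ∈ C) ∧ ∀ k h', D.mode s h = Mode.out k h' → G.st s h = G.st k h'
  | [] => ⟨fun _ => hs, fun k h' h => by simp [mode] at h⟩
  | p :: h => by
    have ih := mode_mem hs h
    rcases hm : D.mode s h with _ | _ | ⟨k, h'⟩
    · by_cases hp : G.st s (p :: h) ∈ C
      · refine ⟨fun _ => hp, fun k h' hk => ?_⟩
        by_cases hn : G.st s (p :: h) = G.δ (G.st s h) (D.α (G.st s h)) (D.β (G.st s h))
        · rw [D.mode_on_on s hm hp hn] at hk; simp at hk
        · rw [D.mode_on_off s hm hp hn] at hk; simp at hk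
      · rw [D.mode_on_out s hm hp]
        refine ⟨fun h => by simp at h, fun k h' hk => ?_⟩
        simp only [Mode.out.injEq] at hk
        rw [← hk.1, ← hk.2]; rfl
    · by_cases hp : G.st s (p :: h) ∈ C
      · refine ⟨fun _ => hp, fun k h' hk => ?_⟩
        rw [D.mode_off_off s hm hp] at hk; simp at hk
      · rw [D.mode_off_out s hm hp]
        refine ⟨fun h => by simp at h, fun k h' hk => ?_⟩
        simp only [Mode.out.injEq] at hk
        rw [← hk.1, ← hk.2]; rfl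
    · rw [D.mode_out_cons s hm]
      refine ⟨fun h => by simp at h, fun k' h'' hk => ?_⟩
      simp only [Mode.out.injEq] at hk
      rw [← hk.1, ← hk.2]
      have := ih.2 k h' hm
      change G.δ (G.st s h) p.1 p.2 = G.δ (G.st k h') p.1 p.2
      rw [this]

variable (s)

noncomputable def σs : List (A × B) → A → ℝ := fun h => match D.mode s h with
  | Mode.on => dir (D.α (G.st s h))
  | Mode.off => dir (D.a₁ (G.st s h))
  | Mode.out k h' => D.σ k h'

noncomputable def τs : List (A × B) → B → ℝ := fun h => match D.mode s h with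
  | Mode.on => dir (D.β (G.st s h))
  | Mode.off => dir (D.b₂ (G.st s h))
  | Mode.out k h' => D.τ k h'

variable {s}

theorem S1 (hs : s ∈ C) : G.Strat₁ s (D.σs s) := by
  intro h
  rcases hm : D.mode s h with _ | _ | ⟨k, h'⟩
  · simp only [σs, hm]; exact mix_dir (D.hα _)
  · simp only [σs, hm]; exact mix_dir (D.ha₁ _)
  · simp only [σs, hm]
    rw [(D.mode_mem hs h).2 k h' hm]
    exact D.hσ k h'

theorem S2 (hs : s ∈ C) : G.Strat₂ s (D.τs s) := by
  intro h
  rcases hm : D.mode s h with _ | _ | ⟨k, h'⟩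
  · simp only [τs, hm]; exact mix_dir (D.hβ _)
  · simp only [τs, hm]; exact mix_dir (D.hb₂ _)
  · simp only [τs, hm]
    rw [(D.mode_mem hs h).2 k h' hm]
    exact D.hτ k h'

theorem σs_out {h1 : List (A × B)} {k : S} (hm : D.mode s h1 = Mode.out k []) :
    (fun h => D.σs s (h ++ h1)) = D.σ k := by
  funext h
  simp only [σs, D.mode_out_append s hm h]

theorem τs_out {h1 : List (A × B)} {k : S} (hm : D.mode s h1 = Mode.out k []) :
    (fun h => D.τs s (h ++ h1)) = D.τ k := by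
  funext h
  simp only [τs, D.mode_out_append s hm h]

theorem out₁ (hs : s ∈ C) {h : List (A × B)} {k : S} (hm : D.mode s h = Mode.out k [])
    (hk : G.IsNash T₁ T₂ k (D.σ k) (D.τ k)) {ρ : List (A × B) → A → ℝ} (hρ : G.Strat₁ s ρ) (n : ℕ) :
    G.prob T₁ s ρ (D.τs s) n h ≤ G.pay T₁ k (D.σ k) (D.τ k) := by
  have e : G.st s h = k := (D.mode_mem hs h).2 k [] hm
  have h1 := prob_append (G := G) (T := T₁) s ρ (D.τs s) h n []
  rw [List.nil_append, D.τs_out hm, e] at h1
  rw [h1]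
  have h2 := strat₁_append hρ h
  rw [e] at h2
  exact (prob_le_pay h2 (D.hτ k) n).trans (hk.2.2.1 _ h2)

theorem out₂ (hs : s ∈ C) {h : List (A × B)} {k : S} (hm : D.mode s h = Mode.out k [])
    (hk : G.IsNash T₁ T₂ k (D.σ k) (D.τ k)) {ρ : List (A × B) → B → ℝ} (hρ : G.Strat₂ s ρ) (n : ℕ) :
    G.prob T₂ s (D.σs s) ρ n h ≤ G.pay T₂ k (D.σ k) (D.τ k) := by
  have e : G.st s h = k := (D.mode_mem hs h).2 k [] hm
  have h1 := prob_append (G := G) (T := T₂) s (D.σs s) ρ h n []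
  rw [List.nil_append, D.σs_out hm, e] at h1
  rw [h1]
  have h2 := strat₂_append hρ h
  rw [e] at h2
  exact (prob_le_pay (D.hσ k) h2 n).trans (hk.2.2.2 _ h2)

theorem dev₁ (hs : s ∈ C) {ρ : List (A × B) → A → ℝ} (hρ : G.Strat₁ s ρ) (n : ℕ) : ∀ h,
    (D.mode s h = Mode.off → G.prob T₁ s ρ (D.τs s) n h ≤ D.u (G.st s h)) ∧
    (D.mode s h = Mode.on → G.prob T₁ s ρ (D.τs s) n h ≤ D.F (G.st s h)) := by
  induction n with
  | zero =>
    intro h
    refine ⟨fun hm => ?_, fun hm => ?_⟩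
    · have hv := (D.mode_mem hs h).1 (Or.inr hm)
      rw [prob_zero' (D.hC₁ _ hv)]
      exact D.u0 _
    · have hv := (D.mode_mem hs h).1 (Or.inl hm)
      rw [prob_zero' (D.hC₁ _ hv)]
      exact (D.u0 _).trans (D.uF _ hv)
  | succ n ih =>
    intro h
    refine ⟨fun hm => ?_, fun hm => ?_⟩
    · have hv := (D.mode_mem hs h).1 (Or.inr hm)
      have key : ∀ a ∈ G.act₁ (G.st s h), ∀ b ∈ G.act₂ (G.st s h),
          G.prob T₁ s ρ (D.τs s) n ((a, b) :: h) ≤ D.u (G.δ (G.st s h) a b) := by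
        intro a ha b hb
        by_cases hp : G.st s ((a, b) :: h) ∈ C
        · exact (ih _).1 (D.mode_off_off s hm hp)
        · have := D.out₁ hs (D.mode_off_out s hm hp) (D.hout _ hv a ha b hb hp) hρ n
          exact this.trans_eq (D.u_out _ hp).symm
      rw [prob_succ (D.hC₁ _ hv), dsum]
      refine mix_le (hρ h) fun a ha => ?_
      by_cases hc : D.ctl (G.st s h)
      · exact mix_le (D.S2 hs h) fun b hb => (key a ha b hb).trans (D.u1 _ hv hc a ha b hb)
      · have e : D.τs s h = dir (D.b₂ (G.st s h)) := by simp only [τs, hm]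
        rw [e, sum_dir (D.hb₂ _)]
        exact (key a ha _ (D.hb₂ _)).trans (D.u2 _ hv hc a ha)
    · have hv := (D.mode_mem hs h).1 (Or.inl hm)
      have key : ∀ a ∈ G.act₁ (G.st s h), ∀ b ∈ G.act₂ (G.st s h),
          G.δ (G.st s h) a b = G.δ (G.st s h) (D.α (G.st s h)) (D.β (G.st s h)) →
          G.prob T₁ s ρ (D.τs s) n ((a, b) :: h) ≤ D.F (G.st s h) := by
        intro a ha b hb he
        rw [← D.F_step _ hv, ← he]
        by_cases hp : G.st s ((a, b) :: h) ∈ C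
        · exact (ih _).2 (D.mode_on_on s hm hp he)
        · have := D.out₁ hs (D.mode_on_out s hm hp) (D.hout _ hv a ha b hb hp) hρ n
          exact this.trans_eq (D.F_out _ hp).symm
      have key' : ∀ a ∈ G.act₁ (G.st s h), ∀ b ∈ G.act₂ (G.st s h),
          G.δ (G.st s h) a b ≠ G.δ (G.st s h) (D.α (G.st s h)) (D.β (G.st s h)) →
          G.prob T₁ s ρ (D.τs s) n ((a, b) :: h) ≤ D.u (G.δ (G.st s h) a b) := by
        intro a ha b hb he
        by_cases hp : G.st s ((a, b) :: h) ∈ C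
        · exact (ih _).1 (D.mode_on_off s hm hp he)
        · have := D.out₁ hs (D.mode_on_out s hm hp) (D.hout _ hv a ha b hb hp) hρ n
          exact this.trans_eq (D.u_out _ hp).symm
      rw [prob_succ (D.hC₁ _ hv), dsum]
      refine mix_le (hρ h) fun a ha => ?_
      by_cases hc : D.ctl (G.st s h)
      · refine mix_le (D.S2 hs h) fun b hb => ?_
        by_cases he : G.δ (G.st s h) a b = G.δ (G.st s h) (D.α (G.st s h)) (D.β (G.st s h))
        · exact key a ha b hb he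
        · exact ((key' a ha b hb he).trans (D.u1 _ hv hc a ha b hb)).trans (D.uF _ hv)
      · have e : D.τs s h = dir (D.β (G.st s h)) := by simp only [τs, hm]
        rw [e, sum_dir (D.hβ _)]
        exact key a ha _ (D.hβ _) (D.hctl' _ hv hc a ha _ (D.hα _) _ (D.hβ _))

theorem dev₂ (hs : s ∈ C) {ρ : List (A × B) → B → ℝ} (hρ : G.Strat₂ s ρ) (n : ℕ) : ∀ h,
    (D.mode s h = Mode.off → G.prob T₂ s (D.σs s) ρ n h ≤ D.w (G.st s h)) ∧
    (D.mode s h = Mode.on → G.prob T₂ s (D.σs s) ρ n h ≤ D.H (G.st s h)) := by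
  induction n with
  | zero =>
    intro h
    refine ⟨fun hm => ?_, fun hm => ?_⟩
    · have hv := (D.mode_mem hs h).1 (Or.inr hm)
      rw [prob_zero' (D.hC₂ _ hv)]
      exact D.w0 _
    · have hv := (D.mode_mem hs h).1 (Or.inl hm)
      rw [prob_zero' (D.hC₂ _ hv)]
      exact (D.w0 _).trans (D.wH _ hv)
  | succ n ih =>
    intro h
    refine ⟨fun hm => ?_, fun hm => ?_⟩
    · have hv := (D.mode_mem hs h).1 (Or.inr hm)
      have key : ∀ a ∈ G.act₁ (G.st s h), ∀ b ∈ G.act₂ (G.st s h),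
          G.prob T₂ s (D.σs s) ρ n ((a, b) :: h) ≤ D.w (G.δ (G.st s h) a b) := by
        intro a ha b hb
        by_cases hp : G.st s ((a, b) :: h) ∈ C
        · exact (ih _).1 (D.mode_off_off s hm hp)
        · have := D.out₂ hs (D.mode_off_out s hm hp) (D.hout _ hv a ha b hb hp) hρ n
          exact this.trans_eq (D.w_out _ hp).symm
      rw [prob_succ (D.hC₂ _ hv), dsum']
      refine mix_le (hρ h) fun b hb => ?_
      by_cases hc : D.ctl (G.st s h)
      · have e : D.σs s h = dir (D.a₁ (G.st s h)) := by simp only [σs, hm]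
        rw [e, sum_dir (D.ha₁ _)]
        exact (key _ (D.ha₁ _) b hb).trans (D.w2 _ hv hc b hb)
      · exact mix_le (D.S1 hs h) fun a ha => (key a ha b hb).trans (D.w1 _ hv hc a ha b hb)
    · have hv := (D.mode_mem hs h).1 (Or.inl hm)
      have key : ∀ a ∈ G.act₁ (G.st s h), ∀ b ∈ G.act₂ (G.st s h),
          G.δ (G.st s h) a b = G.δ (G.st s h) (D.α (G.st s h)) (D.β (G.st s h)) →
          G.prob T₂ s (D.σs s) ρ n ((a, b) :: h) ≤ D.H (G.st s h) := by
        intro a ha b hb he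
        rw [← D.H_step _ hv, ← he]
        by_cases hp : G.st s ((a, b) :: h) ∈ C
        · exact (ih _).2 (D.mode_on_on s hm hp he)
        · have := D.out₂ hs (D.mode_on_out s hm hp) (D.hout _ hv a ha b hb hp) hρ n
          exact this.trans_eq (D.H_out _ hp).symm
      have key' : ∀ a ∈ G.act₁ (G.st s h), ∀ b ∈ G.act₂ (G.st s h),
          G.δ (G.st s h) a b ≠ G.δ (G.st s h) (D.α (G.st s h)) (D.β (G.st s h)) →
          G.prob T₂ s (D.σs s) ρ n ((a, b) :: h) ≤ D.w (G.δ (G.st s h) a b) := by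
        intro a ha b hb he
        by_cases hp : G.st s ((a, b) :: h) ∈ C
        · exact (ih _).1 (D.mode_on_off s hm hp he)
        · have := D.out₂ hs (D.mode_on_out s hm hp) (D.hout _ hv a ha b hb hp) hρ n
          exact this.trans_eq (D.w_out _ hp).symm
      rw [prob_succ (D.hC₂ _ hv), dsum']
      refine mix_le (hρ h) fun b hb => ?_
      by_cases hc : D.ctl (G.st s h)
      · have e : D.σs s h = dir (D.α (G.st s h)) := by simp only [σs, hm]
        rw [e, sum_dir (D.hα _)]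
        exact key _ (D.hα _) b hb (D.hctl _ hv hc _ (D.hα _) b hb _ (D.hβ _))
      · refine mix_le (D.S1 hs h) fun a ha => ?_
        by_cases he : G.δ (G.st s h) a b = G.δ (G.st s h) (D.α (G.st s h)) (D.β (G.st s h))
        · exact key a ha b hb he
        · exact ((key' a ha b hb he).trans (D.w1 _ hv hc a ha b hb)).trans (D.wH _ hv)

/-- the payoff on the path -/
theorem follow (hs : s ∈ C) {T : Set S} (hT : ∀ s ∈ C, s ∉ T) {k : S} (hk : k ∉ C) (n : ℕ) :
    ∀ (p : ℕ → S) (h : List (A × B)), p 0 = G.st s h → p (n + 1) = k →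
      (∀ i ≤ n, p i ∈ C ∧ p (i + 1) = G.δ (p i) (D.α (p i)) (D.β (p i))) →
      D.mode s h = Mode.on → ∀ N, G.prob T s (D.σs s) (D.τs s) (n + 1 + N) h =
        G.prob T k (D.σ k) (D.τ k) N [] := by
  induction n with
  | zero =>
    intro p h h0 h1 hp hm N
    have e := (hp 0 le_rfl).2
    rw [h0] at e
    rw [zero_add] at h1
    rw [zero_add] at e
    have hst : G.st s ((D.α (G.st s h), D.β (G.st s h)) :: h) = k := by
      change G.δ (G.st s h) (D.α (G.st s h)) (D.β (G.st s h)) = k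
      rw [← e, h1]
    have hm' := D.mode_on_out s hm (p := (D.α (G.st s h), D.β (G.st s h))) (by rw [hst]; exact hk)
    rw [hst] at hm'
    rw [show 0 + 1 + N = N + 1 by ring,
      prob_succ (hT _ ((D.mode_mem hs h).1 (Or.inl hm))), dsum]
    have e1 : D.σs s h = dir (D.α (G.st s h)) := by simp only [σs, hm]
    have e2 : D.τs s h = dir (D.β (G.st s h)) := by simp only [τs, hm]
    rw [e1, e2, sum_dir (D.hα _), sum_dir (D.hβ _)]
    have h2 := prob_append (G := G) (T := T) s (D.σs s) (D.τs s)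
      ((D.α (G.st s h), D.β (G.st s h)) :: h) N []
    rw [List.nil_append, D.σs_out hm', D.τs_out hm', hst] at h2
    exact h2
  | succ n ih =>
    intro p h h0 h1 hp hm N
    have e := (hp 0 (Nat.zero_le _)).2
    rw [h0] at e
    have hst : G.st s ((D.α (G.st s h), D.β (G.st s h)) :: h) = p (0 + 1) := e.symm
    have hC := (hp (0 + 1) (by omega)).1
    have hm' := D.mode_on_on s hm (p := (D.α (G.st s h), D.β (G.st s h)))
      (by rw [hst]; exact hC) rfl
    rw [show n + 1 + 1 + N = (n + 1 + N) + 1 by ring,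
      prob_succ (hT _ ((D.mode_mem hs h).1 (Or.inl hm))), dsum]
    have e1 : D.σs s h = dir (D.α (G.st s h)) := by simp only [σs, hm]
    have e2 : D.τs s h = dir (D.β (G.st s h)) := by simp only [τs, hm]
    rw [e1, e2, sum_dir (D.hα _), sum_dir (D.hβ _)]
    exact ih (fun i => p (i + 1)) _ hst.symm h1
      (fun i hi => hp (i + 1) (by omega)) hm' N

theorem hasNE (D : TB G T₁ T₂ C) {s : S} (hs : s ∈ C) : HasNE G T₁ T₂ s := by
  have hm : D.mode s [] = Mode.on := rfl
  have hF : D.F s ≤ G.pay T₁ s (D.σs s) (D.τs s) ∧ D.H s ≤ G.pay T₂ s (D.σs s) (D.τs s) := by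
    rcases D.path s hs with ⟨h1, h2⟩ | ⟨k, hk, ⟨n, p, h0, h1, hp⟩, e1, e2⟩
    · rw [h1, h2]
      exact ⟨pay_nonneg (D.S1 hs) (D.S2 hs), pay_nonneg (D.S1 hs) (D.S2 hs)⟩
    · rw [e1, e2]
      constructor
      · refine pay_le fun N => ?_
        rw [← D.follow hs D.hC₁ hk n p [] h0 h1 hp hm N]
        exact prob_le_pay (D.S1 hs) (D.S2 hs) _
      · refine pay_le fun N => ?_
        rw [← D.follow hs D.hC₂ hk n p [] h0 h1 hp hm N]
        exact prob_le_pay (D.S1 hs) (D.S2 hs) _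
  refine ⟨D.σs s, D.τs s, D.S1 hs, D.S2 hs, fun ρ hρ => ?_, fun ρ hρ => ?_⟩
  · exact (pay_le fun n => (D.dev₁ hs hρ n []).2 hm).trans hF.1
  · exact (pay_le fun n => (D.dev₂ hs hρ n []).2 hm).trans hF.2

end TB

end Pool.Agent.H40.NE
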