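import Pool.Agent.H40.NE.Core1

/-! Strategies with two phases inside a set `C` of states, followed by given equilibria. -/

set_option autoImplicit false
set_option linter.unusedSectionVars false

open Finset Relation Filter Topology

namespace Pool.Agent.H40.NE

open Pool.Agent.H95.NE Pool.Agent.H95.NE.Game

variable {S A B : Type*}

/-- inside `C`, on or off the path; or outside -/
inductive M2 (S A B : Type*) where
  | ins : Bool → M2 S A B
  | out : S → List (A × B) → M2 S A B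

open Classical in
noncomputable def gm (G : Game S A B) (C : Set S) (go : S → S → Prop) (b : Bool) (s : S) :
    List (A × B) → M2 S A B
  | [] => if s ∈ C then M2.ins b else M2.out s []
  | p :: h => match gm G C go b s h with
    | M2.ins b' => if G.st s (p :: h) ∈ C then
        M2.ins (b' && decide (go (G.st s h) (G.st s (p :: h)))) else M2.out (G.st s (p :: h)) []
    | M2.out k h' => M2.out k (p :: h')

section
variable {G : Game S A B} {C : Set S} {go : S → S → Prop} {b : Bool} {s : S}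

open Classical in
theorem gm_in {p : A × B} {h : List (A × B)} {b' : Bool} (hm : gm G C go b s h = M2.ins b')
    (hp : G.st s (p :: h) ∈ C) : gm G C go b s (p :: h) =
      M2.ins (b' && decide (go (G.st s h) (G.st s (p :: h)))) := by
  simp only [gm, hm, if_pos hp]

theorem gm_ex {p : A × B} {h : List (A × B)} {b' : Bool} (hm : gm G C go b s h = M2.ins b')
    (hp : G.st s (p :: h) ∉ C) : gm G C go b s (p :: h) = M2.out (G.st s (p :: h)) [] := by
  simp only [gm, hm, if_neg hp]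

theorem gm_out {p : A × B} {h : List (A × B)} {k : S} {h' : List (A × B)}
    (hm : gm G C go b s h = M2.out k h') : gm G C go b s (p :: h) = M2.out k (p :: h') := by
  simp only [gm, hm]

open Classical in
theorem gm_append (hs : s ∈ C) (p : A × B) : ∀ h, gm G C go b s (h ++ [p]) =
    gm G C go (b && decide (go s (G.δ s p.1 p.2))) (G.δ s p.1 p.2) h
  | [] => by
    have h0 : gm G C go b s [] = M2.ins b := by simp only [gm, if_pos hs]
    change gm G C go b s [p] = _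
    by_cases hp : G.st s [p] ∈ C
    · rw [gm_in h0 hp]
      have hp' : G.δ s p.1 p.2 ∈ C := hp
      simp only [gm, if_pos hp']
      rfl
    · rw [gm_ex h0 hp]
      have hp' : G.δ s p.1 p.2 ∉ C := hp
      simp only [gm, if_neg hp']
      rfl
  | q :: h => by
    have ih := gm_append hs p h
    have e : G.st s (q :: (h ++ [p])) = G.st (G.δ s p.1 p.2) (q :: h) :=
      st_append s (q :: h) [p]
    have e' : G.st s (h ++ [p]) = G.st (G.δ s p.1 p.2) h := st_append s h [p]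
    rw [List.cons_append]
    rcases hm : gm G C go (b && decide (go s (G.δ s p.1 p.2))) (G.δ s p.1 p.2) h with b' | ⟨k, h'⟩
    · rw [hm] at ih
      by_cases hp : G.st (G.δ s p.1 p.2) (q :: h) ∈ C
      · rw [gm_in hm hp, gm_in ih (by rw [e]; exact hp), e, e']
      · rw [gm_ex hm hp, gm_ex ih (by rw [e]; exact hp), e]
    · rw [hm] at ih
      rw [gm_out hm, gm_out ih]

theorem gm_notMem (hs : s ∉ C) : ∀ h, gm G C go b s h = M2.out s h
  | [] => by simp only [gm, if_neg hs]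
  | p :: h => gm_out (gm_notMem hs h)

theorem gm_st : ∀ h, ∀ k h', gm G C go b s h = M2.out k h' → G.st s h = G.st k h'
  | [], k, h', hq => by
    by_cases hs : s ∈ C
    · simp only [gm, if_pos hs] at hq; exact absurd hq (by simp)
    · simp only [gm, if_neg hs, M2.out.injEq] at hq
      rw [← hq.1, ← hq.2]
  | p :: h, k, h', hq => by
    rcases hm : gm G C go b s h with b' | ⟨k', h''⟩
    · by_cases hp : G.st s (p :: h) ∈ C
      · rw [gm_in hm hp] at hq; exact absurd hq (by simp)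
      · rw [gm_ex hm hp] at hq
        simp only [M2.out.injEq] at hq
        rw [← hq.1, ← hq.2]; rfl
    · rw [gm_out hm] at hq
      simp only [M2.out.injEq] at hq
      rw [← hq.1, ← hq.2]
      have := gm_st h k' h'' hm
      change G.δ (G.st s h) p.1 p.2 = G.δ (G.st k' h'') p.1 p.2
      rw [this]

end

structure TP (G : Game S A B) (T₁ T₂ C : Set S) where
  σ : S → List (A × B) → A → ℝ
  τ : S → List (A × B) → B → ℝ
  hσ : ∀ k, G.Strat₁ k (σ k)
  hτ : ∀ k, G.Strat₂ k (τ k)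
  go : S → S → Prop
  x : Bool → S → A → ℝ
  y : Bool → S → B → ℝ
  hx : ∀ b s, Mix (G.act₁ s) (x b s)
  hy : ∀ b s, Mix (G.act₂ s) (y b s)
  hC₁ : ∀ s ∈ C, s ∉ T₁
  hC₂ : ∀ s ∈ C, s ∉ T₂
  hout : ∀ s ∈ C, ∀ a ∈ G.act₁ s, ∀ b ∈ G.act₂ s, G.δ s a b ∉ C →
    G.IsNash T₁ T₂ (G.δ s a b) (σ (G.δ s a b)) (τ (G.δ s a b))

namespace TP

variable {G : Game S A B} {T₁ T₂ C : Set S} (D : TP G T₁ T₂ C)

noncomputable def c₁ (b : Bool) (s : S) (h : List (A × B)) : A → ℝ :=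
  match gm G C D.go b s h with
  | M2.ins b' => D.x b' (G.st s h)
  | M2.out k h' => D.σ k h'

noncomputable def c₂ (b : Bool) (s : S) (h : List (A × B)) : B → ℝ :=
  match gm G C D.go b s h with
  | M2.ins b' => D.y b' (G.st s h)
  | M2.out k h' => D.τ k h'

open Classical in
/-- the phase after a move -/
noncomputable def ph (b : Bool) (s t : S) : Bool := b && decide (D.go s t)

theorem c₁_append {s : S} (hs : s ∈ C) (b : Bool) (h : List (A × B)) (p : A × B) :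
    D.c₁ b s (h ++ [p]) = D.c₁ (D.ph b s (G.δ s p.1 p.2)) (G.δ s p.1 p.2) h := by
  have e : G.st s (h ++ [p]) = G.st (G.δ s p.1 p.2) h := st_append s h [p]
  unfold c₁ ph
  rw [gm_append hs p h, e]

theorem c₂_append {s : S} (hs : s ∈ C) (b : Bool) (h : List (A × B)) (p : A × B) :
    D.c₂ b s (h ++ [p]) = D.c₂ (D.ph b s (G.δ s p.1 p.2)) (G.δ s p.1 p.2) h := by
  have e : G.st s (h ++ [p]) = G.st (G.δ s p.1 p.2) h := st_append s h [p]
  unfold c₂ ph
  rw [gm_append hs p h, e]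

theorem c₁_out {s : S} (hs : s ∉ C) (b : Bool) : D.c₁ b s = D.σ s := by
  funext h
  simp only [c₁, gm_notMem hs h]

theorem c₂_out {s : S} (hs : s ∉ C) (b : Bool) : D.c₂ b s = D.τ s := by
  funext h
  simp only [c₂, gm_notMem hs h]

theorem c₁_nil {s : S} (hs : s ∈ C) (b : Bool) : D.c₁ b s [] = D.x b s := by
  simp only [c₁, gm, if_pos hs]
  rfl

theorem c₂_nil {s : S} (hs : s ∈ C) (b : Bool) : D.c₂ b s [] = D.y b s := by
  simp only [c₂, gm, if_pos hs]
  rfl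

theorem s₁ (b : Bool) (s : S) : G.Strat₁ s (D.c₁ b s) := by
  intro h
  rcases hm : gm G C D.go b s h with b' | ⟨k, h'⟩
  · simp only [c₁, hm]; exact D.hx _ _
  · simp only [c₁, hm]
    rw [gm_st h k h' hm]
    exact D.hσ _ _

theorem s₂ (b : Bool) (s : S) : G.Strat₂ s (D.c₂ b s) := by
  intro h
  rcases hm : gm G C D.go b s h with b' | ⟨k, h'⟩
  · simp only [c₂, hm]; exact D.hy _ _
  · simp only [c₂, hm]
    rw [gm_st h k h' hm]
    exact D.hτ _ _

/-- the payoffs of these strategies -/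
noncomputable def F (T : Set S) (b : Bool) (s : S) : ℝ := G.pay T s (D.c₁ b s) (D.c₂ b s)

theorem F_nonneg (T : Set S) (b : Bool) (s : S) : 0 ≤ D.F T b s :=
  pay_nonneg (D.s₁ b s) (D.s₂ b s)

theorem F_out {T : Set S} {s : S} (hs : s ∉ C) (b : Bool) :
    D.F T b s = G.pay T s (D.σ s) (D.τ s) := by
  unfold F
  rw [D.c₁_out hs, D.c₂_out hs]

theorem F_step {T : Set S} {s : S} (hs : s ∈ C) (hT : s ∉ T) (b : Bool) : D.F T b s =
    ∑ a ∈ G.act₁ s, ∑ j ∈ G.act₂ s, D.x b s a * D.y b s j *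
      D.F T (D.ph b s (G.δ s a j)) (G.δ s a j) := by
  unfold F
  rw [pay_step hT (D.s₁ b s) (D.s₂ b s), D.c₁_nil hs, D.c₂_nil hs]
  refine Finset.sum_congr rfl fun a _ => Finset.sum_congr rfl fun j _ => ?_
  simp only [D.c₁_append hs, D.c₂_append hs]

theorem cap₁ (W : Bool → S → ℝ) (h0 : ∀ b, ∀ s ∈ C, 0 ≤ W b s)
    (hW : ∀ b, ∀ s ∉ C, W b s = G.pay T₁ s (D.σ s) (D.τ s))
    (V : ∀ b, ∀ s ∈ C, ∀ a ∈ G.act₁ s,
      ∑ j ∈ G.act₂ s, D.y b s j * W (D.ph b s (G.δ s a j)) (G.δ s a j) ≤ W b s) :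
    ∀ b, ∀ s ∈ C, ∀ ρ, G.Strat₁ s ρ → G.pay T₁ s ρ (D.c₂ b s) ≤ W b s := by
  have d : ∀ n b, ∀ s ∈ C, ∀ ρ, G.Strat₁ s ρ → G.prob T₁ s ρ (D.c₂ b s) n [] ≤ W b s := by
    intro n
    induction n with
    | zero =>
      intro b s hs ρ _
      rw [prob_zero' (h := []) (D.hC₁ s hs)]
      exact h0 b s hs
    | succ n ih =>
      intro b s hs ρ hρ
      rw [ST.prob_front (D.hC₁ s hs), dsum]
      refine mix_le (hρ []) fun a ha => le_trans ?_ (V b s hs a ha)
      rw [D.c₂_nil hs]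
      refine Finset.sum_le_sum fun j hj => mul_le_mul_of_nonneg_left ?_ ((D.hy b s).1 j hj)
      simp only [D.c₂_append hs]
      have hρ' := strat₁_append hρ [(a, j)]
      by_cases hd : G.δ s a j ∈ C
      · exact ih _ _ hd _ hρ'
      · rw [D.c₂_out hd, hW _ _ hd]
        exact (prob_le_pay hρ' (D.hτ _) n).trans ((D.hout s hs a ha j hj hd).2.2.1 _ hρ')
  exact fun b s hs ρ hρ => pay_le fun n => d n b s hs ρ hρ

theorem cap₂ (W : Bool → S → ℝ) (h0 : ∀ b, ∀ s ∈ C, 0 ≤ W b s)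
    (hW : ∀ b, ∀ s ∉ C, W b s = G.pay T₂ s (D.σ s) (D.τ s))
    (V : ∀ b, ∀ s ∈ C, ∀ j ∈ G.act₂ s,
      ∑ a ∈ G.act₁ s, D.x b s a * W (D.ph b s (G.δ s a j)) (G.δ s a j) ≤ W b s) :
    ∀ b, ∀ s ∈ C, ∀ ρ, G.Strat₂ s ρ → G.pay T₂ s (D.c₁ b s) ρ ≤ W b s := by
  have d : ∀ n b, ∀ s ∈ C, ∀ ρ, G.Strat₂ s ρ → G.prob T₂ s (D.c₁ b s) ρ n [] ≤ W b s := by
    intro n
    induction n with
    | zero =>
      intro b s hs ρ _
      rw [prob_zero' (h := []) (D.hC₂ s hs)]
      exact h0 b s hs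
    | succ n ih =>
      intro b s hs ρ hρ
      rw [ST.prob_front (D.hC₂ s hs), dsum']
      refine mix_le (hρ []) fun j hj => le_trans ?_ (V b s hs j hj)
      rw [D.c₁_nil hs]
      refine Finset.sum_le_sum fun a ha => mul_le_mul_of_nonneg_left ?_ ((D.hx b s).1 a ha)
      simp only [D.c₁_append hs]
      have hρ' := strat₂_append hρ [(a, j)]
      by_cases hd : G.δ s a j ∈ C
      · exact ih _ _ hd _ hρ'
      · rw [D.c₁_out hd, hW _ _ hd]
        exact (prob_le_pay (D.hσ _) hρ' n).trans ((D.hout s hs a ha j hj hd).2.2.2 _ hρ')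
  exact fun b s hs ρ hρ => pay_le fun n => d n b s hs ρ hρ

/-- If the caps in the phase `true` are attained, this is an equilibrium. -/
theorem verify (W₁ W₂ : Bool → S → ℝ) (h01 : ∀ b, ∀ s ∈ C, 0 ≤ W₁ b s)
    (h02 : ∀ b, ∀ s ∈ C, 0 ≤ W₂ b s)
    (hW₁ : ∀ b, ∀ s ∉ C, W₁ b s = G.pay T₁ s (D.σ s) (D.τ s))
    (hW₂ : ∀ b, ∀ s ∉ C, W₂ b s = G.pay T₂ s (D.σ s) (D.τ s))
    (V₁ : ∀ b, ∀ s ∈ C, ∀ a ∈ G.act₁ s,
      ∑ j ∈ G.act₂ s, D.y b s j * W₁ (D.ph b s (G.δ s a j)) (G.δ s a j) ≤ W₁ b s)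
    (V₂ : ∀ b, ∀ s ∈ C, ∀ j ∈ G.act₂ s,
      ∑ a ∈ G.act₁ s, D.x b s a * W₂ (D.ph b s (G.δ s a j)) (G.δ s a j) ≤ W₂ b s)
    {s : S} (hs : s ∈ C) (a₁ : W₁ true s ≤ D.F T₁ true s) (a₂ : W₂ true s ≤ D.F T₂ true s) :
    HasNE G T₁ T₂ s :=
  ⟨D.c₁ true s, D.c₂ true s, D.s₁ true s, D.s₂ true s,
    fun ρ hρ => (D.cap₁ W₁ h01 hW₁ V₁ true s hs ρ hρ).trans a₁,
    fun ρ hρ => (D.cap₂ W₂ h02 hW₂ V₂ true s hs ρ hρ).trans a₂⟩

end TP

end Pool.Agent.H40.NE
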